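import Mathlib

/-!
Cutting a walk with steps at most one into disjoint consecutive blocks of weight exactly `h`,
and closed walks as permutations.
-/

namespace ExPeriod

open List

variable {α : Type}

/-- Weight of a walk: the sum of the weights of its consecutive pairs. -/
def pw (w : α → α → ℤ) : List α → ℤ
  | [] => 0
  | [_] => 0
  | a :: b :: l => w a b + pw w (b :: l)

lemma pw_nil (w : α → α → ℤ) : pw w [] = 0 := rfl

lemma pw_single (w : α → α → ℤ) (a : α) : pw w [a] = 0 := rfl

lemma pw_cons_cons (w : α → α → ℤ) (a b : α) (l : List α) :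
    pw w (a :: b :: l) = w a b + pw w (b :: l) := rfl

lemma pw_overlap (w : α → α → ℤ) (b : α) (r : List α) : ∀ l : List α,
    pw w (l ++ b :: r) = pw w (l ++ [b]) + pw w (b :: r) := by
  intro l
  induction l with
  | nil => simp [pw_single]
  | cons x l ih =>
    cases l with
    | nil => simp [pw_cons_cons, pw_single]
    | cons y l =>
      simp only [List.cons_append, pw_cons_cons] at ih ⊢
      rw [ih]; ring

lemma pw_append_le (w : α → α → ℤ) (hw : ∀ a b, w a b ≤ 1) (l₂ : List α) : ∀ l₁ : List α,
    pw w (l₁ ++ l₂) ≤ pw w l₁ + pw w l₂ + 1 := by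
  intro l₁
  induction l₁ with
  | nil => simp [pw_nil]
  | cons x l ih =>
    cases l with
    | nil =>
      cases l₂ with
      | nil => simp [pw_single, pw_nil]
      | cons y m =>
        simp only [List.cons_append, List.nil_append, pw_cons_cons, pw_single]
        have := hw x y
        linarith
    | cons y l =>
      simp only [List.cons_append, pw_cons_cons] at ih ⊢
      linarith

lemma pw_abs_le (w : α → α → ℤ) (hw : ∀ a b, |w a b| ≤ 1) : ∀ (l : List α) (a : α),
    |pw w (a :: l)| ≤ (l.length : ℤ) := by
  intro l
  induction l with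
  | nil => intro a; simp [pw_single]
  | cons y l ih =>
    intro a
    rw [pw_cons_cons]
    have h1 := ih y
    have h2 := hw a y
    have h3 := abs_add_le (w a y) (pw w (y :: l))
    push_cast [List.length_cons]
    linarith

lemma cut_one (w : α → α → ℤ) (hw : ∀ a b, w a b ≤ 1) (h : ℤ) (hh : 1 ≤ h) (l : List α) :
    pw w l < h ∨ ∃ l₁ l₂, l = l₁ ++ l₂ ∧ pw w l₁ = h := by
  induction l using List.reverseRecOn with
  | nil => left; rw [pw_nil]; linarith
  | append_singleton l a ih =>
    rcases ih with h1 | ⟨l₁, l₂, rfl, h2⟩
    · have h3 := pw_append_le w hw [a] l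
      rw [pw_single] at h3
      rcases lt_or_eq_of_le (show pw w (l ++ [a]) ≤ h by linarith) with h4 | h4
      · left; exact h4
      · right; exact ⟨l ++ [a], [], by simp, h4⟩
    · right
      exact ⟨l₁, l₂ ++ [a], by simp, h2⟩

lemma cut_all (w : α → α → ℤ) (hw : ∀ a b, w a b ≤ 1) (h : ℤ) (hh : 1 ≤ h) : ∀ (n : ℕ)
    (l : List α), l.length ≤ n → ∃ Bs : List (List α),
      (∀ B ∈ Bs, B <:+: l ∧ pw w B = h) ∧ Bs.flatten <+ l ∧
      pw w l ≤ (h + 1) * (Bs.length : ℤ) + h := by
  intro n
  induction n with
  | zero =>
    intro l hl
    have : l = [] := List.length_eq_zero_iff.mp (Nat.le_zero.mp hl)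
    subst this
    refine ⟨[], by simp, by simp, ?_⟩
    simp [pw_nil]; linarith
  | succ n ih =>
    intro l hl
    rcases cut_one w hw h hh l with h1 | ⟨l₁, l₂, rfl, h2⟩
    · refine ⟨[], by simp, by simp, ?_⟩
      simp; linarith
    · have hne : l₁ ≠ [] := by
        rintro rfl
        rw [pw_nil] at h2
        linarith
      have hpos : 0 < l₁.length := List.length_pos_iff.mpr hne
      have hlen : l₂.length ≤ n := by
        rw [List.length_append] at hl
        omega
      obtain ⟨Bs, hB1, hB2, hB3⟩ := ih l₂ hlen
      refine ⟨l₁ :: Bs, ?_, ?_, ?_⟩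
      · intro B hB
        rcases List.mem_cons.mp hB with rfl | hB
        · exact ⟨⟨[], l₂, by simp⟩, h2⟩
        · obtain ⟨h3, h4⟩ := hB1 B hB
          exact ⟨h3.trans ⟨l₁, [], by simp⟩, h4⟩
      · rw [List.flatten_cons]
        exact List.Sublist.append (List.Sublist.refl _) hB2
      · have h5 := pw_append_le w hw l₂ l₁
        push_cast [List.length_cons]
        nlinarith

/-- Sums along a walk that follows a function. -/
lemma sum_follow (w : α → α → ℤ) (f : α → α) (z : α) : ∀ l : List α,
    IsChain (fun x y => f x = y) (l ++ [z]) →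
      (l.map (fun i => w i (f i))).sum = pw w (l ++ [z]) := by
  intro l
  induction l with
  | nil => intro _; simp [pw_single]
  | cons x l ih =>
    intro hc
    cases l with
    | nil =>
      simp only [List.cons_append, List.nil_append] at hc ⊢
      rw [List.isChain_pair] at hc
      simp [pw_cons_cons, pw_single, hc]
    | cons y l =>
      simp only [List.cons_append] at hc ih ⊢
      rw [List.isChain_cons_cons] at hc
      rw [pw_cons_cons, ← ih hc.2, List.map_cons, List.sum_cons, hc.1]

lemma chain_follow (V : α → α → Prop) (f : α → α) (z : α) : ∀ l : List α,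
    IsChain (fun x y => f x = y) (l ++ [z]) →
      ((∀ i ∈ l, V i (f i)) ↔ IsChain V (l ++ [z])) := by
  intro l
  induction l with
  | nil => intro _; simp
  | cons x l ih =>
    intro hc
    cases l with
    | nil =>
      simp only [List.cons_append, List.nil_append] at hc ⊢
      rw [List.isChain_pair] at hc ⊢
      simp [hc]
    | cons y l =>
      simp only [List.cons_append] at hc ih ⊢
      rw [List.isChain_cons_cons] at hc ⊢
      rw [← ih hc.2]
      constructor
      · intro h
        refine ⟨by have := h x (by simp); rwa [hc.1] at this, fun i hi => h i (by simp [hi])⟩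
      · rintro ⟨h1, h2⟩ i hi
        rcases List.mem_cons.mp hi with rfl | hi
        · rw [hc.1]; exact h1
        · exact h2 i hi

lemma formPerm_chain [DecidableEq α] (a : α) (l : List α) (hl : (a :: l).Nodup) :
    IsChain (fun x y => formPerm (a :: l) x = y) ((a :: l) ++ [a]) := by
  rw [List.isChain_iff_getElem]
  intro i hi
  have hi' : i < (a :: l).length := by
    simp only [List.length_append, List.length_cons, List.length_nil] at hi ⊢
    omega
  rw [List.getElem_append_left hi']
  by_cases h : i + 1 < (a :: l).length
  · rw [List.getElem_append_left h]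
    exact List.formPerm_apply_lt_getElem _ hl i h
  · have hi2 : i + 1 = (a :: l).length := by omega
    rw [List.getElem_append_right (by omega)]
    have hlast : (a :: l)[i] = (a :: l).getLast (List.cons_ne_nil a l) := by
      rw [List.getLast_eq_getElem]
      congr 1
      omega
    rw [hlast, List.formPerm_apply_getLast]
    simp

end ExPeriod
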