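import Mathlib
import Pool.Agent.H.MP_36be4a_lc.PX.Cut

/-!
Every valid permutation of large gain contains many disjoint blocks.
-/

namespace ExPeriod

open List

variable {α : Type}

/-- A permutation all of whose arcs are admissible. -/
def Valid (V : α → α → Prop) (θ : Equiv.Perm α) : Prop := ∀ i, V i (θ i)

/-- Gain of a permutation. -/
def gain [Fintype α] (w : α → α → ℤ) (θ : Equiv.Perm α) : ℤ := ∑ i, w i (θ i)

/-- A block: a walk of weight exactly `h`, or a closed walk of weight in `[1, h + 1]`. -/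
def Good (V : α → α → Prop) (w : α → α → ℤ) (h : ℤ) (l : List α) : Prop :=
  ∃ a l', l = a :: l' ∧ ((IsChain V l ∧ pw w l = h) ∨
    (IsChain V (l ++ [a]) ∧ 1 ≤ pw w (l ++ [a]) ∧ pw w (l ++ [a]) ≤ h + 1))

lemma closed_family (V : α → α → Prop) (w : α → α → ℤ) (hw : ∀ a b, w a b ≤ 1) (h : ℤ)
    (hh : 1 ≤ h) (a : α) (l : List α) (hn : (a :: l).Nodup)
    (hc : IsChain V ((a :: l) ++ [a])) :
    ∃ F : List (List α), (∀ B ∈ F, Good V w h B) ∧ F.flatten.Nodup ∧
      (∀ x ∈ F.flatten, x ∈ a :: l) ∧ pw w ((a :: l) ++ [a]) ≤ 2 * (h + 1) * (F.length : ℤ) := by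
  obtain ⟨Bs, hB1, hB2, hB3⟩ := cut_all w hw h hh _ (a :: l) le_rfl
  have h1 := pw_append_le w hw [a] (a :: l)
  rw [pw_single] at h1
  by_cases hne : Bs = []
  · subst hne
    simp only [List.length_nil, Nat.cast_zero, mul_zero, zero_add] at hB3
    by_cases hp : 1 ≤ pw w ((a :: l) ++ [a])
    · refine ⟨[a :: l], ?_, by simpa using hn, by simp, ?_⟩
      · intro B hB
        rw [List.mem_singleton] at hB
        subst hB
        exact ⟨a, l, rfl, Or.inr ⟨hc, hp, by linarith⟩⟩
      · simp only [List.length_singleton, Nat.cast_one, mul_one]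
        linarith
    · refine ⟨[], by simp, by simp, by simp, ?_⟩
      simp only [List.length_nil, Nat.cast_zero, mul_zero]
      linarith
  · have hpos : (1 : ℤ) ≤ (Bs.length : ℤ) := by
      have := List.length_pos_iff.mpr hne
      exact_mod_cast this
    refine ⟨Bs, ?_, hn.sublist hB2, fun x hx => hB2.subset hx, ?_⟩
    · intro B hB
      obtain ⟨h2, h3⟩ := hB1 B hB
      have hcB : IsChain V B := by
        obtain ⟨s, t, hst⟩ : B <:+: (a :: l) ++ [a] := h2.trans ⟨[], [a], by simp⟩
        have hc' := hc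
        rw [← hst] at hc'
        exact hc'.left_of_append.right_of_append
      cases B with
      | nil => rw [pw_nil] at h3; linarith
      | cons b B' => exact ⟨b, B', rfl, Or.inl ⟨hcB, h3⟩⟩
    · nlinarith

variable [Fintype α] [DecidableEq α]

lemma gain_formPerm (w : α → α → ℤ) (hw0 : ∀ a, w a a = 0) (a : α) (l : List α)
    (hn : (a :: l).Nodup) :
    gain w (formPerm (a :: l)) = pw w ((a :: l) ++ [a]) := by
  have hc := formPerm_chain a l hn
  rw [← sum_follow w (formPerm (a :: l)) a (a :: l) hc, ← List.sum_toFinset _ hn, gain]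
  symm
  apply Finset.sum_subset (Finset.subset_univ _)
  intro x _ hx
  rw [List.mem_toFinset] at hx
  rw [List.formPerm_apply_of_notMem hx, hw0]

lemma valid_formPerm (V : α → α → Prop) (hV : ∀ a, V a a) (a : α) (l : List α)
    (hn : (a :: l).Nodup) :
    Valid V (formPerm (a :: l)) ↔ IsChain V ((a :: l) ++ [a]) := by
  have hc := formPerm_chain a l hn
  rw [← chain_follow V (formPerm (a :: l)) a (a :: l) hc]
  constructor
  · intro h i _; exact h i
  · intro h i
    by_cases hi : i ∈ a :: l
    · exact h i hi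
    · rw [List.formPerm_apply_of_notMem hi]; exact hV i

lemma gain_mul (w : α → α → ℤ) (hw0 : ∀ a, w a a = 0) (σ τ : Equiv.Perm α)
    (hd : σ.Disjoint τ) : gain w (σ * τ) = gain w σ + gain w τ := by
  rw [gain, gain, gain, ← Finset.sum_add_distrib]
  apply Finset.sum_congr rfl
  intro i _
  rcases hd i with h | h
  · have h2 : (σ * τ) i = τ i := by
      rw [hd.commute.eq, Equiv.Perm.mul_apply, h]
    rw [h2, h, hw0, zero_add]
  · rw [Equiv.Perm.mul_apply, h, hw0, add_zero]

lemma valid_mul (V : α → α → Prop) (σ τ : Equiv.Perm α) (hd : σ.Disjoint τ)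
    (h1 : Valid V σ) (h2 : Valid V τ) : Valid V (σ * τ) := by
  intro i
  rcases hd i with h | h
  · have h3 : (σ * τ) i = τ i := by
      rw [hd.commute.eq, Equiv.Perm.mul_apply, h]
    rw [h3]; exact h2 i
  · rw [Equiv.Perm.mul_apply, h]; exact h1 i

lemma valid_of_mul (V : α → α → Prop) (hV : ∀ a, V a a) (σ τ : Equiv.Perm α)
    (hd : σ.Disjoint τ) (h : Valid V (σ * τ)) : Valid V σ ∧ Valid V τ := by
  constructor
  · intro i
    rcases hd i with h1 | h1
    · rw [h1]; exact hV i
    · have := h i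
      rwa [Equiv.Perm.mul_apply, h1] at this
  · intro i
    rcases hd i with h1 | h1
    · have := h i
      rwa [hd.commute.eq, Equiv.Perm.mul_apply, h1] at this
    · rw [h1]; exact hV i

lemma cycle_list (σ : Equiv.Perm α) (hσ : σ.IsCycle) :
    ∃ a l, (a :: l).Nodup ∧ formPerm (a :: l) = σ ∧ ∀ x ∈ a :: l, σ x ≠ x := by
  have hσ' := hσ
  obtain ⟨x, hx, _⟩ := hσ
  have h1 := Equiv.Perm.formPerm_toList σ x
  rw [hσ'.cycleOf_eq hx] at h1
  have h2 := Equiv.Perm.nodup_toList σ x
  have h3 : ∀ y ∈ σ.toList x, σ y ≠ y := by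
    intro y hy
    rw [Equiv.Perm.mem_toList_iff] at hy
    have := (hy.1.mem_support_iff).mp hy.2
    exact Equiv.Perm.mem_support.mp this
  cases hL : σ.toList x with
  | nil =>
    rw [hL, List.formPerm_nil] at h1
    exact absurd (by rw [← h1]; rfl) hx
  | cons a l =>
    rw [hL] at h1 h2 h3
    exact ⟨a, l, h2, h1, h3⟩

lemma family (V : α → α → Prop) (hV : ∀ a, V a a) (w : α → α → ℤ) (hw0 : ∀ a, w a a = 0)
    (hw : ∀ a b, w a b ≤ 1) (h : ℤ) (hh : 1 ≤ h) (π : Equiv.Perm α) (hπ : Valid V π) :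
    ∃ F : List (List α), (∀ B ∈ F, Good V w h B) ∧ F.flatten.Nodup ∧
      gain w π ≤ 2 * (h + 1) * (F.length : ℤ) := by
  have key : Valid V π → ∃ F : List (List α), (∀ B ∈ F, Good V w h B) ∧ F.flatten.Nodup ∧
      (∀ x ∈ F.flatten, π x ≠ x) ∧ gain w π ≤ 2 * (h + 1) * (F.length : ℤ) := by
    induction π using Equiv.Perm.cycle_induction_on with
    | base_one =>
      intro _
      refine ⟨[], by simp, by simp, by simp, ?_⟩
      simp [gain, hw0]
    | base_cycles σ hσ =>
      intro hv
      obtain ⟨a, l, hn, hf, hs⟩ := cycle_list σ hσ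
      rw [← hf, valid_formPerm V hV a l hn] at hv
      obtain ⟨F, h1, h2, h3, h4⟩ := closed_family V w hw h hh a l hn hv
      refine ⟨F, h1, h2, fun x hx => hs x (h3 x hx), ?_⟩
      rw [← hf, gain_formPerm w hw0 a l hn]
      exact h4
    | induction_disjoint σ τ hd hσ ihσ ihτ =>
      intro hv
      obtain ⟨hv1, hv2⟩ := valid_of_mul V hV σ τ hd hv
      obtain ⟨F, h1, h2, h3, h4⟩ := ihσ hv1 hv1
      obtain ⟨G, g1, g2, g3, g4⟩ := ihτ hv2 hv2
      refine ⟨F ++ G, ?_, ?_, ?_, ?_⟩
      · intro B hB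
        rcases List.mem_append.mp hB with hB | hB
        · exact h1 B hB
        · exact g1 B hB
      · rw [List.flatten_append, List.nodup_append]
        refine ⟨h2, g2, ?_⟩
        rintro x hx y hy rfl
        rcases hd x with h5 | h5
        · exact h3 x hx h5
        · exact g3 x hy h5
      · intro x hx
        rw [List.flatten_append] at hx
        rcases List.mem_append.mp hx with hx | hx
        · have h5 := h3 x hx
          rcases hd x with h6 | h6
          · exact absurd h6 h5
          · rwa [Equiv.Perm.mul_apply, h6]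
        · have h5 := g3 x hx
          rcases hd x with h6 | h6
          · rwa [hd.commute.eq, Equiv.Perm.mul_apply, h6]
          · exact absurd h6 h5
      · rw [gain_mul w hw0 σ τ hd, List.length_append]
        push_cast
        nlinarith
  obtain ⟨F, h1, h2, _, h4⟩ := key hπ
  exact ⟨F, h1, h2, h4⟩

end ExPeriod
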