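import Mathlib
import Pool.Agent.H.MP_36be4a_lc.PX.Gad

/-!
Short connecting walks avoiding a small set.
-/

namespace ExPeriod

open List

variable {α : Type} [Fintype α] [DecidableEq α]

open Classical in
/-- Out-neighbourhood. -/
noncomputable def nb (V : α → α → Prop) (X : Finset α) : Finset α :=
  Finset.univ.filter (fun j => ∃ i ∈ X, V i j)

lemma mem_nb (V : α → α → Prop) (X : Finset α) (j : α) : j ∈ nb V X ↔ ∃ i ∈ X, V i j := by
  simp [nb]

/-- Vertices outside `Z` reached from `b` in at most `t` steps outside `Z`. -/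
noncomputable def reach (V : α → α → Prop) (Z : Finset α) (b : α) : ℕ → Finset α
  | 0 => ∅
  | t + 1 => nb V (insert b (reach V Z b t)) \ Z

lemma reach_path (V : α → α → Prop) (Z : Finset α) (b : α) : ∀ (t : ℕ) (x : α),
    x ∈ reach V Z b t → ∃ m : List α, (m ++ [x]).Nodup ∧ (∀ y ∈ m ++ [x], y ∉ Z) ∧
      IsChain V (b :: (m ++ [x])) ∧ (m ++ [x]).length ≤ t := by
  intro t
  induction t with
  | zero => intro x hx; simp [reach] at hx
  | succ t ih =>
    intro x hx
    rw [reach, Finset.mem_sdiff, mem_nb] at hx
    obtain ⟨⟨y, hy, hV⟩, hxZ⟩ := hx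
    rw [Finset.mem_insert] at hy
    rcases hy with rfl | hy
    · refine ⟨[], by simp, by simpa using hxZ, ?_, by simp⟩
      simpa using hV
    · obtain ⟨m, h1, h2, h3, h4⟩ := ih y hy
      by_cases hxp : x ∈ m ++ [y]
      · obtain ⟨s, s', hs⟩ := List.append_of_mem hxp
        have hpre : (s ++ [x]) <+: (m ++ [y]) := ⟨s', by rw [hs]; simp⟩
        refine ⟨s, h1.sublist hpre.sublist, fun z hz => h2 z (hpre.subset hz), ?_, ?_⟩
        · obtain ⟨r, hr⟩ : (b :: (s ++ [x])) <+: (b :: (m ++ [y])) := by
            rw [List.prefix_cons_inj]; exact hpre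
          have h3' := h3
          rw [← hr] at h3'
          exact h3'.left_of_append
        · have := hpre.length_le
          omega
      · refine ⟨m ++ [y], ?_, ?_, ?_, ?_⟩
        · rw [List.nodup_append]
          refine ⟨h1, by simp, ?_⟩
          rintro u hu v hv rfl
          rw [List.mem_singleton] at hv
          subst hv
          exact hxp hu
        · intro z hz
          rcases List.mem_append.mp hz with hz | hz
          · exact h2 z hz
          · rw [List.mem_singleton] at hz
            subst hz; exact hxZ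
        · have h5 : IsChain V ([y] ++ [x]) := by simpa using hV
          have h6 : IsChain V ((b :: m) ++ [y]) := by simpa using h3
          have h7 := h6.append_overlap h5 (by simp)
          simpa using h7
        · rw [List.length_append]
          simp only [List.length_singleton]
          omega

lemma reach_card (V : α → α → Prop) (c : ℝ) (Z : Finset α) (b : α)
    (hE : ∀ X : Finset α, X.Nonempty → nb V X = Finset.univ ∨
      (X.card : ℝ) + c * (Fintype.card α : ℝ) ≤ ((nb V X).card : ℝ))
    (hZ : (Z.card : ℝ) ≤ c * (Fintype.card α : ℝ) / 2) : ∀ t : ℕ,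
    (∀ s < t, nb V (insert b (reach V Z b s)) ≠ Finset.univ) →
      (t : ℝ) * (c * (Fintype.card α : ℝ) / 2) ≤ ((reach V Z b t).card : ℝ) := by
  intro t
  induction t with
  | zero => intro _; simp
  | succ t ih =>
    intro h
    have h1 := ih (fun s hs => h s (by omega))
    have h2 := h t (by omega)
    rcases hE (insert b (reach V Z b t)) (Finset.insert_nonempty _ _) with h3 | h3
    · exact absurd h3 h2
    · have h4 : (reach V Z b t).card ≤ (insert b (reach V Z b t)).card :=
        Finset.card_le_card (Finset.subset_insert _ _)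
      have h5 : (nb V (insert b (reach V Z b t))).card ≤
          (nb V (insert b (reach V Z b t)) \ Z).card + Z.card :=
        Finset.card_le_card_sdiff_add_card
      have h4' : ((reach V Z b t).card : ℝ) ≤ ((insert b (reach V Z b t)).card : ℝ) := by
        exact_mod_cast h4
      have h5' : ((nb V (insert b (reach V Z b t))).card : ℝ) ≤
          ((nb V (insert b (reach V Z b t)) \ Z).card : ℝ) + (Z.card : ℝ) := by
        exact_mod_cast h5
      rw [reach]
      push_cast
      linarith

lemma chord (V : α → α → Prop) (c : ℝ) (hc : 0 < c) (Q : ℕ) (hQ : 2 / c < Q) (Z : Finset α)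
    (a b : α)
    (hE : ∀ X : Finset α, X.Nonempty → nb V X = Finset.univ ∨
      (X.card : ℝ) + c * (Fintype.card α : ℝ) ≤ ((nb V X).card : ℝ))
    (hZ : (Z.card : ℝ) ≤ c * (Fintype.card α : ℝ) / 2) :
    ∃ m : List α, m.Nodup ∧ (∀ y ∈ m, y ∉ Z) ∧ IsChain V (b :: (m ++ [a])) ∧
      m.length ≤ Q := by
  have hn : (0 : ℝ) < (Fintype.card α : ℝ) := by
    have : 0 < Fintype.card α := Fintype.card_pos_iff.mpr ⟨a⟩
    exact_mod_cast this
  have hex : ∃ s < Q, nb V (insert b (reach V Z b s)) = Finset.univ := by
    by_contra hcon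
    push Not at hcon
    have h1 := reach_card V c Z b hE hZ Q hcon
    have h2 : ((reach V Z b Q).card : ℝ) ≤ (Fintype.card α : ℝ) := by
      exact_mod_cast Finset.card_le_univ _
    rw [div_lt_iff₀ hc] at hQ
    nlinarith
  obtain ⟨s, hs, hu⟩ := hex
  have ha : a ∈ nb V (insert b (reach V Z b s)) := by rw [hu]; exact Finset.mem_univ _
  rw [mem_nb] at ha
  obtain ⟨y, hy, hV⟩ := ha
  rw [Finset.mem_insert] at hy
  rcases hy with rfl | hy
  · exact ⟨[], by simp, by simp, by simpa using hV, by simp⟩
  · obtain ⟨m, h1, h2, h3, h4⟩ := reach_path V Z b s y hy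
    refine ⟨m ++ [y], h1, h2, ?_, by omega⟩
    have h5 : IsChain V ([y] ++ [a]) := by simpa using hV
    have h6 : IsChain V ((b :: m) ++ [y]) := by simpa using h3
    have h7 := h6.append_overlap h5 (by simp)
    simpa using h7

end ExPeriod
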