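import Mathlib
import Pool.Agent.H.MP_36be4a_lc.PX.Chord

/-!
Closing disjoint blocks into disjoint admissible permutations of bounded positive gain, and the
shift theorem.
-/

namespace ExPeriod

open List

section Lists

/-- Few long lists: a sub-family of given size with small total length. -/
lemma chunk {β : Type} (m : ℕ) : ∀ (K : ℕ), 1 ≤ K → ∀ (F : List (List β)), K * m ≤ F.length →
    ∃ G : List (List β), G <+ F ∧ G.length = m ∧ K * G.flatten.length ≤ F.flatten.length := by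
  intro K hK
  induction K, hK using Nat.le_induction with
  | base =>
    intro F hF
    refine ⟨F.take m, List.take_sublist _ _, ?_, ?_⟩
    · rw [List.length_take]; omega
    · rw [one_mul]
      exact (List.take_sublist m F).flatten.length_le
  | succ K hK ih =>
    intro F hF
    have e : F = F.take m ++ F.drop m := (List.take_append_drop m F).symm
    have hlen : F.flatten.length = (F.take m).flatten.length + (F.drop m).flatten.length := by
      conv_lhs => rw [e]
      rw [List.flatten_append, List.length_append]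
    have hm : m ≤ F.length := by nlinarith
    by_cases h : (K + 1) * (F.take m).flatten.length ≤ F.flatten.length
    · exact ⟨F.take m, List.take_sublist _ _, by rw [List.length_take]; omega, h⟩
    · push Not at h
      obtain ⟨G, g1, g2, g3⟩ := ih (F.drop m) (by
        rw [List.length_drop]
        have : (K + 1) * m = K * m + m := by ring
        omega)
      refine ⟨G, g1.trans (List.drop_sublist _ _), g2, ?_⟩
      by_contra hcon
      push Not at hcon
      nlinarith

lemma pigeon {β : Type} [DecidableEq β] (g : β → ℕ) (N P : ℕ) (hP : 0 < P) :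
    ∀ L : List β, (∀ b ∈ L, 1 ≤ g b ∧ g b ≤ N) → 0 < L.length → N * P ≤ L.length →
    ∃ v, 1 ≤ v ∧ v ≤ N ∧ P ≤ (L.filter (fun b => decide (g b = v))).length := by
  intro L hL hpos hlen
  by_contra hcon
  push Not at hcon
  have key : ∀ L : List β, (∀ b ∈ L, 1 ≤ g b ∧ g b ≤ N) →
      L.length = ∑ v ∈ Finset.Icc 1 N, (L.filter (fun b => decide (g b = v))).length := by
    intro L
    induction L with
    | nil => intro _; simp
    | cons b L ih =>
      intro hb
      have h1 := ih (fun x hx => hb x (List.mem_cons_of_mem _ hx))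
      have h2 := hb b List.mem_cons_self
      have h3 : ∀ v, ((b :: L).filter (fun b => decide (g b = v))).length =
          (L.filter (fun b => decide (g b = v))).length + if g b = v then 1 else 0 := by
        intro v
        rw [List.filter_cons]
        by_cases hv : g b = v
        · simp [hv]
        · simp [hv]
      rw [Finset.sum_congr rfl (fun v _ => h3 v), Finset.sum_add_distrib, ← h1,
        List.length_cons, Finset.sum_ite_eq, if_pos (Finset.mem_Icc.mpr h2)]
  have h1 := key L hL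
  have h2 : ∑ v ∈ Finset.Icc 1 N, (L.filter (fun b => decide (g b = v))).length ≤
      ∑ _v ∈ Finset.Icc 1 N, (P - 1) := by
    apply Finset.sum_le_sum
    intro v hv
    rw [Finset.mem_Icc] at hv
    have := hcon v hv.1 hv.2
    omega
  rw [← h1, Finset.sum_const, Nat.card_Icc, smul_eq_mul] at h2
  have h3 : N * P ≤ N * (P - 1) := by
    calc N * P ≤ L.length := hlen
      _ ≤ (N + 1 - 1) * (P - 1) := h2
      _ = N * (P - 1) := by simp
  rcases Nat.eq_zero_or_pos N with hN | hN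
  · subst hN
    cases L with
    | nil => simp at hpos
    | cons b L =>
      have := hL b List.mem_cons_self
      omega
  · have := Nat.le_of_mul_le_mul_left h3 hN
    omega

end Lists

variable {α : Type} [Fintype α] [DecidableEq α]

lemma close_one (V : α → α → Prop) (w : α → α → ℤ) (hw : ∀ a b, |w a b| ≤ 1)
    (c : ℝ) (hc : 0 < c) (Q : ℕ) (hQ : 2 / c < Q)
    (hE : ∀ X : Finset α, X.Nonempty → nb V X = Finset.univ ∨
      (X.card : ℝ) + c * (Fintype.card α : ℝ) ≤ ((nb V X).card : ℝ))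
    (B : List α) (hB : Good V w ((Q : ℤ) + 2) B) (Z : Finset α)
    (hZ : (Z.card : ℝ) ≤ c * (Fintype.card α : ℝ) / 2) :
    ∃ a l m, B = a :: l ∧ m.Nodup ∧ (∀ y ∈ m, y ∉ Z) ∧ m.length ≤ Q ∧
      IsChain V ((a :: (l ++ m)) ++ [a]) ∧ 1 ≤ pw w ((a :: (l ++ m)) ++ [a]) ∧
      pw w ((a :: (l ++ m)) ++ [a]) ≤ 2 * (Q : ℤ) + 3 := by
  obtain ⟨a, l, rfl, h | h⟩ := hB
  · obtain ⟨d, b, hd⟩ : ∃ d b, a :: l = d ++ [b] :=
      ⟨(a :: l).dropLast, (a :: l).getLast (List.cons_ne_nil _ _),
        (List.dropLast_append_getLast _).symm⟩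
    obtain ⟨m, h1, h2, h3, h4⟩ := chord V c hc Q hQ Z a b hE hZ
    have e : (a :: (l ++ m)) ++ [a] = d ++ b :: (m ++ [a]) := by
      have : (a :: (l ++ m)) ++ [a] = (a :: l) ++ (m ++ [a]) := by simp
      rw [this, hd]; simp
    have hch : IsChain V (d ++ b :: (m ++ [a])) := by
      have h5 : IsChain V (d ++ [b]) := by rw [← hd]; exact h.1
      have h6 : IsChain V ([b] ++ (m ++ [a])) := by simpa using h3
      have h7 := h5.append_overlap h6 (by simp)
      simpa using h7
    have hpw : pw w (d ++ b :: (m ++ [a])) = ((Q : ℤ) + 2) + pw w (b :: (m ++ [a])) := by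
      rw [pw_overlap, ← hd, h.2]
    have hab := pw_abs_le w hw (m ++ [a]) b
    rw [List.length_append, List.length_singleton] at hab
    have hmQ : ((m.length + 1 : ℕ) : ℤ) ≤ (Q : ℤ) + 1 := by
      push_cast
      have : (m.length : ℤ) ≤ (Q : ℤ) := by exact_mod_cast h4
      linarith
    rw [abs_le] at hab
    refine ⟨a, l, m, rfl, h1, h2, h4, ?_, ?_, ?_⟩
    · rw [e]; exact hch
    · rw [e, hpw]; linarith [hab.1]
    · rw [e, hpw]; linarith [hab.2]
  · refine ⟨a, l, [], rfl, by simp, by simp, by simp, ?_, ?_, ?_⟩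
    · simpa using h.1
    · simpa using h.2.1
    · have h5 := h.2.2
      have hQ0 : (0 : ℤ) ≤ (Q : ℤ) := Int.natCast_nonneg Q
      have h6 : pw w ((a :: (l ++ [])) ++ [a]) ≤ (Q : ℤ) + 2 + 1 := by simpa using h5
      linarith

lemma process (V : α → α → Prop) (hV : ∀ a, V a a) (w : α → α → ℤ) (hw0 : ∀ a, w a a = 0)
    (hw : ∀ a b, |w a b| ≤ 1) (c : ℝ) (hc : 0 < c) (Q : ℕ) (hQ : 2 / c < Q)
    (hE : ∀ X : Finset α, X.Nonempty → nb V X = Finset.univ ∨
      (X.card : ℝ) + c * (Fintype.card α : ℝ) ≤ ((nb V X).card : ℝ)) :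
    ∀ (G : List (List α)) (Z : Finset α), (∀ B ∈ G, Good V w ((Q : ℤ) + 2) B) →
      G.flatten.Nodup → (∀ x ∈ G.flatten, x ∈ Z) →
      (Z.card : ℝ) + (G.length : ℝ) * (Q : ℝ) ≤ c * (Fintype.card α : ℝ) / 2 →
      ∃ Θ : List (Equiv.Perm α), Θ.length = G.length ∧ Θ.Pairwise Equiv.Perm.Disjoint ∧
        (∀ θ ∈ Θ, Valid V θ ∧ 1 ≤ gain w θ ∧ gain w θ ≤ 2 * (Q : ℤ) + 3) ∧
        (∀ θ ∈ Θ, ∀ x, θ x ≠ x → x ∈ G.flatten ∨ x ∉ Z) := by
  intro G
  induction G with
  | nil =>
    intro Z _ _ _ _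
    exact ⟨[], by simp, by simp, by simp, by simp⟩
  | cons B G ih =>
    intro Z hG hn hsub hcard
    have hQ0 : (0 : ℝ) ≤ (Q : ℝ) := Nat.cast_nonneg Q
    have hG0 : (0 : ℝ) ≤ (G.length : ℝ) := Nat.cast_nonneg _
    have hcard1 : (Z.card : ℝ) ≤ c * (Fintype.card α : ℝ) / 2 := by
      have : (0 : ℝ) ≤ ((B :: G).length : ℝ) * (Q : ℝ) := by positivity
      linarith
    obtain ⟨a, l, m, hBe, m1, m2, m3, m4, m5, m6⟩ :=
      close_one V w hw c hc Q hQ hE B (hG B List.mem_cons_self) Z hcard1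
    rw [List.flatten_cons] at hn hsub
    have hn' := List.nodup_append.mp hn
    have hBZ : ∀ x ∈ B, x ∈ Z := fun x hx => hsub x (List.mem_append_left _ hx)
    have hGZ : ∀ x ∈ G.flatten, x ∈ Z := fun x hx => hsub x (List.mem_append_right _ hx)
    have hnod : (a :: (l ++ m)).Nodup := by
      have e : a :: (l ++ m) = B ++ m := by rw [hBe]; simp
      rw [e, List.nodup_append]
      refine ⟨hn'.1, m1, ?_⟩
      rintro x hx y hy rfl
      exact m2 x hy (hBZ x hx)
    have hmem : ∀ x, formPerm (a :: (l ++ m)) x ≠ x → x ∈ B ∨ x ∈ m := by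
      intro x hx
      have h1 : x ∈ a :: (l ++ m) := by
        by_contra h
        exact hx (List.formPerm_apply_of_notMem h)
      have e : a :: (l ++ m) = B ++ m := by rw [hBe]; simp
      rw [e] at h1
      exact List.mem_append.mp h1
    have hcard2 : (((Z ∪ m.toFinset).card : ℕ) : ℝ) ≤ (Z.card : ℝ) + (Q : ℝ) := by
      have h1 := Finset.card_union_le Z m.toFinset
      have h2 := List.toFinset_card_le m
      have h3 : (Z ∪ m.toFinset).card ≤ Z.card + Q := by omega
      exact_mod_cast h3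
    obtain ⟨Θ, t1, t2, t3, t4⟩ := ih (Z ∪ m.toFinset)
      (fun B' hB' => hG B' (List.mem_cons_of_mem _ hB')) hn'.2.1
      (fun x hx => Finset.mem_union_left _ (hGZ x hx)) (by
        have : ((B :: G).length : ℝ) = (G.length : ℝ) + 1 := by
          push_cast [List.length_cons]; ring
        rw [this] at hcard
        nlinarith)
    refine ⟨formPerm (a :: (l ++ m)) :: Θ, by simp [t1], ?_, ?_, ?_⟩
    · rw [List.pairwise_cons]
      refine ⟨?_, t2⟩
      intro θ hθ x
      by_contra hcon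
      push Not at hcon
      rcases hmem x hcon.1 with h1 | h1
      · rcases t4 θ hθ x hcon.2 with h2 | h2
        · exact hn'.2.2 x h1 x h2 rfl
        · exact h2 (Finset.mem_union_left _ (hBZ x h1))
      · rcases t4 θ hθ x hcon.2 with h2 | h2
        · exact m2 x h1 (hGZ x h2)
        · exact h2 (Finset.mem_union_right _ (List.mem_toFinset.mpr h1))
    · intro θ hθ
      rcases List.mem_cons.mp hθ with rfl | hθ
      · refine ⟨(valid_formPerm V hV a (l ++ m) hnod).mpr m4, ?_, ?_⟩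
        · rw [gain_formPerm w hw0 a (l ++ m) hnod]; exact m5
        · rw [gain_formPerm w hw0 a (l ++ m) hnod]; exact m6
      · exact t3 θ hθ
    · intro θ hθ x hx
      rw [List.flatten_cons]
      rcases List.mem_cons.mp hθ with rfl | hθ
      · rcases hmem x hx with h1 | h1
        · left; exact List.mem_append_left _ h1
        · right; exact m2 x h1
      · rcases t4 θ hθ x hx with h1 | h1
        · left; exact List.mem_append_right _ h1
        · right; exact fun h => h1 (Finset.mem_union_left _ h)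

lemma prod_gain (V : α → α → Prop) (hV : ∀ a, V a a) (w : α → α → ℤ) (hw0 : ∀ a, w a a = 0)
    (v : ℤ) : ∀ Θ : List (Equiv.Perm α), Θ.Pairwise Equiv.Perm.Disjoint →
      (∀ θ ∈ Θ, Valid V θ ∧ gain w θ = v) →
      Valid V Θ.prod ∧ gain w Θ.prod = (Θ.length : ℤ) * v := by
  intro Θ
  induction Θ with
  | nil =>
    intro _ _
    refine ⟨fun i => by simpa using hV i, ?_⟩
    simp [gain, hw0]
  | cons θ Θ ih =>
    intro hp hv
    rw [List.pairwise_cons] at hp
    obtain ⟨h1, h2⟩ := ih hp.2 (fun x hx => hv x (List.mem_cons_of_mem _ hx))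
    have h3 : θ.Disjoint Θ.prod := Equiv.Perm.disjoint_prod_right Θ hp.1
    obtain ⟨h4, h5⟩ := hv θ List.mem_cons_self
    rw [List.prod_cons]
    refine ⟨valid_mul V θ Θ.prod h3 h4 h1, ?_⟩
    rw [gain_mul w hw0 θ Θ.prod h3, h5, h2]
    push_cast [List.length_cons]
    ring

lemma gain_le_card (w : α → α → ℤ) (hw : ∀ a b, |w a b| ≤ 1) (θ : Equiv.Perm α) :
    gain w θ ≤ (Fintype.card α : ℤ) := by
  rw [gain]
  calc ∑ i, w i (θ i) ≤ ∑ _i : α, (1 : ℤ) :=
        Finset.sum_le_sum (fun i _ => (abs_le.mp (hw i (θ i))).2)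
    _ = (Fintype.card α : ℤ) := by simp

/-- Bound for the length of connecting walks. -/
noncomputable def QQ (c : ℝ) : ℕ := ⌈2 / c⌉₊ + 1

/-- The period: the least common multiple of `1, ..., 2 QQ + 3`. -/
noncomputable def PP (c : ℝ) : ℕ := (Finset.Icc 1 (2 * QQ c + 3)).lcm id

/-- The margin at the two ends. -/
noncomputable def CC (c : ℝ) : ℕ :=
  2 * (QQ c + 3) * ((⌈4 / c⌉₊ + 1) * ((2 * QQ c + 3) * PP c)) +
    ⌈4 * ((((2 * QQ c + 3) * PP c : ℕ) : ℝ) * (QQ c : ℝ)) / c⌉₊

lemma PP_pos (c : ℝ) : 0 < PP c := by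
  rw [PP, Nat.pos_iff_ne_zero]
  intro h
  rw [Finset.lcm_eq_zero_iff] at h
  simp at h

/-- The shift theorem. -/
theorem shift (c : ℝ) (hc : 0 < c)
    (α : Type) [Fintype α] [DecidableEq α] (V : α → α → Prop) (w : α → α → ℤ)
    (hV : ∀ a, V a a) (hw0 : ∀ a, w a a = 0) (hw : ∀ a b, |w a b| ≤ 1)
    (hE : ∀ X : Finset α, X.Nonempty → nb V X = Finset.univ ∨
        (X.card : ℝ) + c * (Fintype.card α : ℝ) ≤ ((nb V X).card : ℝ))
    (π : Equiv.Perm α) (hπ : Valid V π) (hgain : (CC c : ℤ) ≤ gain w π) :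
    ∃ θ : Equiv.Perm α, Valid V θ ∧ gain w θ = (PP c : ℤ) := by
  have hPpos : 0 < PP c := PP_pos c
  have hdv : ∀ v, 1 ≤ v → v ≤ 2 * QQ c + 3 → v ∣ PP c := by
    intro v h1 h2
    exact Finset.dvd_lcm (f := id) (Finset.mem_Icc.mpr ⟨h1, h2⟩)
  have hC : CC c = 2 * (QQ c + 3) * ((⌈4 / c⌉₊ + 1) * ((2 * QQ c + 3) * PP c)) +
    ⌈4 * ((((2 * QQ c + 3) * PP c : ℕ) : ℝ) * (QQ c : ℝ)) / c⌉₊ := rfl
  have hQdef : QQ c = ⌈2 / c⌉₊ + 1 := rfl
  generalize QQ c = Q at *
  generalize hN : 2 * Q + 3 = N at *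
  generalize PP c = P at *
  generalize hm0 : N * P = m0 at *
  generalize hK : ⌈4 / c⌉₊ + 1 = K at *
  generalize CC c = C at *
  have hQ : 2 / c < (Q : ℝ) := by
    rw [hQdef]; push_cast
    have := Nat.le_ceil (2 / c)
    linarith
  have hw1 : ∀ a b, w a b ≤ 1 := fun a b => (abs_le.mp (hw a b)).2
  have hQ0 : (0 : ℤ) ≤ (Q : ℤ) := Int.natCast_nonneg Q
  obtain ⟨F, f1, f2, f3⟩ := family V hV w hw0 hw1 ((Q : ℤ) + 2) (by linarith) π hπ
  have hCM : ((2 * (Q + 3) * (K * m0) : ℕ) : ℤ) ≤ (C : ℤ) := by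
    rw [hC]; push_cast
    have : (0 : ℤ) ≤ ((⌈4 * (m0 * Q : ℝ) / c⌉₊ : ℕ) : ℤ) := Int.natCast_nonneg _
    linarith
  have hFlen : K * m0 ≤ F.length := by
    have h1 : ((2 * (Q + 3) * (K * m0) : ℕ) : ℤ) ≤ 2 * ((Q : ℤ) + 2 + 1) * (F.length : ℤ) := by
      linarith
    have h2 : (2 * ((Q : ℤ) + 3)) * ((K * m0 : ℕ) : ℤ) ≤ (2 * ((Q : ℤ) + 3)) * (F.length : ℤ) := by
      push_cast at h1 ⊢
      linarith
    have h3 := le_of_mul_le_mul_left h2 (by linarith)
    exact_mod_cast h3
  obtain ⟨G, g1, g2, g3⟩ := chunk m0 K (by rw [← hK]; omega) F hFlen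
  have gn : G.flatten.Nodup := f2.sublist g1.flatten
  have gG : ∀ B ∈ G, Good V w ((Q : ℤ) + 2) B := fun B hB => f1 B (g1.subset hB)
  have hnpos : (C : ℤ) ≤ (Fintype.card α : ℤ) := hgain.trans (gain_le_card w hw π)
  have hnC : (C : ℝ) ≤ (Fintype.card α : ℝ) := by exact_mod_cast hnpos
  have hC2 : 4 * (m0 * Q : ℝ) / c ≤ (C : ℝ) := by
    have h1 := Nat.le_ceil (4 * (m0 * Q : ℝ) / c)
    rw [hC]; push_cast
    have h2 : (0 : ℝ) ≤ 2 * ((Q : ℝ) + 3) * ((K : ℝ) * (m0 : ℝ)) := by positivity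
    linarith
  have hmQ : (m0 : ℝ) * (Q : ℝ) ≤ c * (Fintype.card α : ℝ) / 4 := by
    have h1 := hC2.trans hnC
    rw [div_le_iff₀ hc] at h1
    linarith
  have hZc : ((G.flatten.toFinset.card : ℕ) : ℝ) ≤ c * (Fintype.card α : ℝ) / 4 := by
    have h1 : G.flatten.toFinset.card ≤ G.flatten.length := List.toFinset_card_le _
    have h2 : F.flatten.length ≤ Fintype.card α := f2.length_le_card
    have h3 : K * G.flatten.toFinset.card ≤ Fintype.card α :=
      (Nat.mul_le_mul_left K h1).trans (g3.trans h2)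
    have h4 : (K : ℝ) * (G.flatten.toFinset.card : ℝ) ≤ (Fintype.card α : ℝ) := by
      exact_mod_cast h3
    have h5 : 4 / c ≤ (K : ℝ) := by
      rw [← hK]; push_cast
      have := Nat.le_ceil (4 / c)
      linarith
    have h6 : 4 / c * (G.flatten.toFinset.card : ℝ) ≤ (Fintype.card α : ℝ) :=
      (mul_le_mul_of_nonneg_right h5 (Nat.cast_nonneg _)).trans h4
    rw [div_mul_eq_mul_div, div_le_iff₀ hc] at h6
    linarith
  obtain ⟨Θ, t1, t2, t3, _⟩ := process V hV w hw0 hw c hc Q hQ hE G G.flatten.toFinset gG gn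
    (fun x hx => List.mem_toFinset.mpr hx) (by rw [g2]; linarith)
  have hm0pos : 0 < m0 := by
    rw [← hm0]; exact Nat.mul_pos (by omega) hPpos
  obtain ⟨v, v1, v2, v3⟩ := pigeon (fun θ : Equiv.Perm α => (gain w θ).toNat) N P hPpos Θ (by
    intro θ hθ
    obtain ⟨_, h1, h2⟩ := t3 θ hθ
    constructor
    · show 1 ≤ (gain w θ).toNat
      omega
    · show (gain w θ).toNat ≤ N
      rw [← hN]
      omega) (by omega) (by omega)
  set Θv := Θ.filter (fun θ => decide ((gain w θ).toNat = v)) with hΘv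
  have hdvd : v ∣ P := hdv v v1 v2
  have hsub : (Θv.take (P / v)) <+ Θ := (List.take_sublist _ _).trans List.filter_sublist
  obtain ⟨h1, h2⟩ := prod_gain V hV w hw0 (v : ℤ) (Θv.take (P / v)) (t2.sublist hsub) (by
    intro θ hθ
    have h3 : θ ∈ Θv := (List.take_sublist _ _).subset hθ
    rw [hΘv, List.mem_filter] at h3
    obtain ⟨h4, h5, _⟩ := t3 θ h3.1
    refine ⟨h4, ?_⟩
    have h6 : (gain w θ).toNat = v := by simpa using h3.2
    omega)
  refine ⟨(Θv.take (P / v)).prod, h1, ?_⟩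
  rw [h2, List.length_take, Nat.min_eq_left ((Nat.div_le_self P v).trans v3)]
  exact_mod_cast Nat.div_mul_cancel hdvd

end ExPeriod
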