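import Mathlib
import Pool.Agent.H.MP_36be4a_lc.PX.Proc

/-!
Red-blue coloured bipartite graphs: the achieved red counts of an expanding graph are periodic
away from the two extremes.
-/

namespace ExPeriod

open Finset

variable {ι κ : Type} [Fintype ι] [Fintype κ]

/-- `σ` is a perfect matching of the bipartite graph `E`. -/
def IsPM (E : ι → κ → Prop) (σ : ι ≃ κ) : Prop := ∀ i, E i (σ i)

open Classical in
/-- Number of red edges of the matching `σ`. -/
noncomputable def red (R : ι → κ → Prop) (σ : ι ≃ κ) : ℕ :=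
  (univ.filter (fun i => R i (σ i))).card

/-- There is a perfect matching of `E` with exactly `k` red edges. -/
def HasExact (E R : ι → κ → Prop) (k : ℕ) : Prop := ∃ σ : ι ≃ κ, IsPM E σ ∧ red R σ = k

open Classical in
/-- Neighbourhood of a set of rows. -/
noncomputable def nbhd (E : ι → κ → Prop) (X : Finset ι) : Finset κ :=
  univ.filter (fun j => ∃ i ∈ X, E i j)

/-- Every nonempty set of rows has all columns or at least `|X| + c n` columns as neighbours. -/
def Expanding (c : ℝ) (E : ι → κ → Prop) : Prop :=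
  ∀ X : Finset ι, X.Nonempty → nbhd E X = univ ∨
    (X.card : ℝ) + c * (Fintype.card ι : ℝ) ≤ ((nbhd E X).card : ℝ)

open Classical in
/-- Indicator of a proposition, as an integer. -/
noncomputable def ind (p : Prop) : ℤ := if p then 1 else 0

lemma ind_nonneg (p : Prop) : 0 ≤ ind p := by unfold ind; split_ifs <;> simp

lemma ind_le_one (p : Prop) : ind p ≤ 1 := by unfold ind; split_ifs <;> simp

lemma red_eq_sum (R : ι → κ → Prop) (σ : ι ≃ κ) : (red R σ : ℤ) = ∑ i, ind (R i (σ i)) := by
  unfold red ind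
  rw [Finset.card_filter]
  push_cast
  rfl

lemma ind_not (p : Prop) : ind (¬ p) = 1 - ind p := by
  unfold ind
  by_cases h : p <;> simp [h]

lemma red_not (R : ι → κ → Prop) (σ : ι ≃ κ) :
    (red (fun i j => ¬ R i j) σ : ℤ) = (Fintype.card ι : ℤ) - red R σ := by
  rw [red_eq_sum, red_eq_sum]
  simp only [ind_not]
  rw [Finset.sum_sub_distrib]
  simp

lemma step_up (c : ℝ) (hc : 0 < c) (E R : ι → κ → Prop) (hE : Expanding c E)
    (ρ τ : ι ≃ κ) (hρ : IsPM E ρ) (hτ : IsPM E τ) (hred : red R ρ + CC c ≤ red R τ) :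
    ∃ σ : ι ≃ κ, IsPM E σ ∧ red R σ = red R ρ + PP c := by
  classical
  have hcard : ∀ X : Finset ι, (nb (fun i j => E i (ρ j)) X).card = (nbhd E X).card ∧
      (nbhd E X = univ → nb (fun i j => E i (ρ j)) X = univ) := by
    intro X
    have h1 : (nb (fun i j => E i (ρ j)) X).map ρ.toEmbedding = nbhd E X := by
      ext j
      simp only [Finset.mem_map, mem_nb, nbhd, Finset.mem_filter, Finset.mem_univ, true_and,
        Equiv.coe_toEmbedding]
      constructor
      · rintro ⟨x, ⟨i, hi, hE⟩, rfl⟩
        exact ⟨i, hi, hE⟩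
      · rintro ⟨i, hi, hE⟩
        exact ⟨ρ.symm j, ⟨i, hi, by simpa using hE⟩, by simp⟩
    refine ⟨by rw [← h1, Finset.card_map], ?_⟩
    intro h2
    ext x
    simp only [Finset.mem_univ, iff_true]
    have h3 : ρ x ∈ nbhd E X := by rw [h2]; exact Finset.mem_univ _
    rw [← h1] at h3
    simpa using h3
  obtain ⟨θ, hθ1, hθ2⟩ := shift c hc ι (fun i j => E i (ρ j))
    (fun i j => ind (R i (ρ j)) - ind (R i (ρ i))) (fun a => hρ a) (fun a => by simp)
    (fun a b => by
      rw [abs_le]
      have h1 := ind_nonneg (R a (ρ b))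
      have h2 := ind_le_one (R a (ρ b))
      have h3 := ind_nonneg (R a (ρ a))
      have h4 := ind_le_one (R a (ρ a))
      constructor <;> linarith)
    (by
      intro X hX
      obtain ⟨h1, h2⟩ := hcard X
      rcases hE X hX with h3 | h3
      · left; exact h2 h3
      · right; rw [h1]; exact h3)
    (τ.trans ρ.symm) (by
      intro i
      simpa using hτ i)
    (by
      have h1 : gain (fun i j => ind (R i (ρ j)) - ind (R i (ρ i))) (τ.trans ρ.symm) =
          (red R τ : ℤ) - red R ρ := by
        rw [gain, Finset.sum_sub_distrib, red_eq_sum, red_eq_sum]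
        simp
      rw [h1]
      have : ((red R ρ + CC c : ℕ) : ℤ) ≤ (red R τ : ℤ) := by exact_mod_cast hred
      push_cast at this
      linarith)
  refine ⟨θ.trans ρ, fun i => by simpa using hθ1 i, ?_⟩
  have h1 : gain (fun i j => ind (R i (ρ j)) - ind (R i (ρ i))) θ =
      (red R (θ.trans ρ) : ℤ) - red R ρ := by
    rw [gain, Finset.sum_sub_distrib, red_eq_sum, red_eq_sum]
    simp
  rw [h1] at hθ2
  have : (red R (θ.trans ρ) : ℤ) = ((red R ρ + PP c : ℕ) : ℤ) := by
    push_cast; linarith
  exact_mod_cast this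

/-- Fold the target `k` into a window of length `P` above `a + C`. -/
def fold (a b P C k : ℕ) : ℕ :=
  if a + C ≤ k ∧ k + C ≤ b then a + C + (k - (a + C)) % P else k

lemma up_one (c : ℝ) (hc : 0 < c) (E R : ι → κ → Prop) (hE : Expanding c E) (b : ℕ)
    (hb : HasExact E R b) (k : ℕ) (hk : k + CC c ≤ b) (h : HasExact E R k) :
    HasExact E R (k + PP c) := by
  obtain ⟨ρ, h1, h2⟩ := h
  obtain ⟨τ, h3, h4⟩ := hb
  obtain ⟨σ, h5, h6⟩ := step_up c hc E R hE ρ τ h1 h3 (by omega)
  exact ⟨σ, h5, by omega⟩

lemma down_one (c : ℝ) (hc : 0 < c) (E R : ι → κ → Prop) (hE : Expanding c E) (a : ℕ)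
    (ha : HasExact E R a) (k : ℕ) (hk : a + CC c ≤ k + PP c) (h : HasExact E R (k + PP c)) :
    HasExact E R k := by
  obtain ⟨ρ, h1, h2⟩ := h
  obtain ⟨τ, h3, h4⟩ := ha
  have e1 := red_not R ρ
  have e2 := red_not R τ
  obtain ⟨σ, h5, h6⟩ := step_up c hc E (fun i j => ¬ R i j) hE ρ τ h1 h3 (by
    have : ((red (fun i j => ¬ R i j) ρ + CC c : ℕ) : ℤ) ≤
        (red (fun i j => ¬ R i j) τ : ℤ) := by
      push_cast
      rw [e1, e2]
      have : ((a + CC c : ℕ) : ℤ) ≤ ((k + PP c : ℕ) : ℤ) := by exact_mod_cast hk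
      push_cast at this
      rw [h2, h4]
      push_cast
      linarith
    exact_mod_cast this)
  refine ⟨σ, h5, ?_⟩
  have e3 := red_not R σ
  have : (red (fun i j => ¬ R i j) σ : ℤ) = (red (fun i j => ¬ R i j) ρ : ℤ) + PP c := by
    exact_mod_cast h6
  rw [e3, e1, h2] at this
  push_cast at this
  have h7 : (red R σ : ℤ) = (k : ℤ) := by linarith
  exact_mod_cast h7

theorem fold_iff (c : ℝ) (hc : 0 < c) (E R : ι → κ → Prop) (hE : Expanding c E) (a b : ℕ)
    (ha : HasExact E R a) (hb : HasExact E R b) (k : ℕ) :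
    HasExact E R k ↔ HasExact E R (fold a b (PP c) (CC c) k) := by
  have up := up_one c hc E R hE b hb
  have down := down_one c hc E R hE a ha
  generalize PP c = P at *
  generalize CC c = C at *
  unfold fold
  split_ifs with h
  · obtain ⟨h1, h2⟩ := h
    have key : ∀ t r : ℕ, a + C + r + t * P + C ≤ b →
        (HasExact E R (a + C + r + t * P) ↔ HasExact E R (a + C + r)) := by
      intro t
      induction t with
      | zero => intro r _; simp
      | succ t ih =>
        intro r hr
        have e : a + C + r + (t + 1) * P = (a + C + r + t * P) + P := by ring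
        rw [e] at hr ⊢
        rw [← ih r (by omega)]
        constructor
        · intro h; exact down _ (by omega) h
        · intro h; exact up _ (by omega) h
    have h3 : (k - (a + C)) % P + (k - (a + C)) / P * P = k - (a + C) := by
      rw [mul_comm]; exact Nat.mod_add_div _ _
    have h4 : k = a + C + (k - (a + C)) % P + (k - (a + C)) / P * P := by omega
    have h5 := key ((k - (a + C)) / P) ((k - (a + C)) % P) (by rw [← h4]; exact h2)
    rw [← h4] at h5
    exact h5
  · exact Iff.rfl

lemma fold_near (a b P C k : ℕ) (hP : 0 < P) :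
    fold a b P C k ≤ a + (C + P) ∨ b ≤ fold a b P C k + (C + P) := by
  unfold fold
  split_ifs with h
  · left
    have := Nat.mod_lt (k - (a + C)) hP
    omega
  · by_cases h1 : a + C ≤ k
    · right
      have h2 : ¬ (k + C ≤ b) := fun h2 => h ⟨h1, h2⟩
      omega
    · left; omega

end ExPeriod
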