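import Mathlib
import Pool.Agent.H.MP_36be4a_lc.PX.Fold

/-!
Degree and hole conditions that imply expansion, and expansion implies a perfect matching.
-/

namespace ExPeriod

open Finset

variable {ι κ : Type} [Fintype ι] [Fintype κ]

open Classical in
/-- All rows and all columns have degree at least `δ n`. -/
def MinDeg (δ : ℝ) (E : ι → κ → Prop) : Prop :=
  (∀ i, δ * (Fintype.card ι : ℝ) ≤ ((univ.filter (fun j => E i j)).card : ℝ)) ∧
  (∀ j, δ * (Fintype.card ι : ℝ) ≤ ((univ.filter (fun i => E i j)).card : ℝ))

/-- Two sets, of rows and of columns, of sizes above `η n` have an edge between them. -/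
def NoHole (η : ℝ) (E : ι → κ → Prop) : Prop :=
  ∀ (X : Finset ι) (Y : Finset κ), η * (Fintype.card ι : ℝ) < (X.card : ℝ) →
    η * (Fintype.card ι : ℝ) < (Y.card : ℝ) → ∃ i ∈ X, ∃ j ∈ Y, E i j

theorem expanding_of_noHole (δ η : ℝ) (E : ι → κ → Prop)
    (hcard : Fintype.card ι = Fintype.card κ) (hd : MinDeg δ E) (hh : NoHole η E) :
    Expanding (δ - η) E := by
  classical
  intro X hX
  obtain ⟨x, hx⟩ := hX
  have hcard' : (Fintype.card ι : ℝ) = (Fintype.card κ : ℝ) := by exact_mod_cast hcard
  by_cases h1 : η * (Fintype.card ι : ℝ) < (X.card : ℝ)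
  · by_cases h2 : (1 - δ) * (Fintype.card ι : ℝ) < (X.card : ℝ)
    · left
      ext j
      simp only [nbhd, Finset.mem_filter, Finset.mem_univ, true_and, iff_true]
      by_contra hcon
      push Not at hcon
      have h3 : Disjoint X (univ.filter (fun i => E i j)) := by
        rw [Finset.disjoint_left]
        intro i hi hi'
        rw [Finset.mem_filter] at hi'
        exact hcon i hi hi'.2
      have h4 := Finset.card_le_univ (X ∪ univ.filter (fun i => E i j))
      rw [Finset.card_union_of_disjoint h3] at h4
      have h5 : (X.card : ℝ) + ((univ.filter (fun i => E i j)).card : ℝ) ≤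
          (Fintype.card ι : ℝ) := by exact_mod_cast h4
      have h6 := hd.2 j
      linarith
    · right
      push Not at h2
      have h3 : (((univ \ nbhd E X).card : ℕ) : ℝ) ≤ η * (Fintype.card ι : ℝ) := by
        by_contra hcon
        push Not at hcon
        obtain ⟨i, hi, j, hj, hE⟩ := hh X (univ \ nbhd E X) h1 hcon
        rw [Finset.mem_sdiff] at hj
        apply hj.2
        rw [nbhd, Finset.mem_filter]
        exact ⟨Finset.mem_univ _, i, hi, hE⟩
      have h4 : (univ \ nbhd E X).card + (nbhd E X).card = Fintype.card κ := by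
        rw [Finset.card_sdiff_add_card_eq_card (Finset.subset_univ _), Finset.card_univ]
      have h5 : (((univ \ nbhd E X).card : ℕ) : ℝ) + ((nbhd E X).card : ℝ) =
          (Fintype.card κ : ℝ) := by exact_mod_cast h4
      nlinarith
  · right
    push Not at h1
    have h2 : (univ.filter (fun j => E x j)).card ≤ (nbhd E X).card := by
      apply Finset.card_le_card
      intro j hj
      rw [Finset.mem_filter] at hj
      rw [nbhd, Finset.mem_filter]
      exact ⟨Finset.mem_univ _, x, hx, hj.2⟩
    have h3 : ((univ.filter (fun j => E x j)).card : ℝ) ≤ ((nbhd E X).card : ℝ) := by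
      exact_mod_cast h2
    have h4 := hd.1 x
    nlinarith

theorem noHole_of_minDeg (δ : ℝ) (E : ι → κ → Prop)
    (hcard : Fintype.card ι = Fintype.card κ) (hd : MinDeg δ E)
    (hpos : 0 ≤ 1 - δ) : NoHole (1 - δ) E := by
  classical
  intro X Y hX hY
  have hcard' : (Fintype.card ι : ℝ) = (Fintype.card κ : ℝ) := by exact_mod_cast hcard
  have h0 : (0 : ℝ) < (X.card : ℝ) := by
    have : (0 : ℝ) ≤ (1 - δ) * (Fintype.card ι : ℝ) := by positivity
    linarith
  have h1 : 0 < X.card := by exact_mod_cast h0
  obtain ⟨i, hi⟩ := Finset.card_pos.mp h1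
  refine ⟨i, hi, ?_⟩
  by_contra hcon
  push Not at hcon
  have h3 : Disjoint Y (univ.filter (fun j => E i j)) := by
    rw [Finset.disjoint_left]
    intro j hj hj'
    rw [Finset.mem_filter] at hj'
    exact hcon j hj hj'.2
  have h4 := Finset.card_le_univ (Y ∪ univ.filter (fun j => E i j))
  rw [Finset.card_union_of_disjoint h3] at h4
  have h5 : (Y.card : ℝ) + ((univ.filter (fun j => E i j)).card : ℝ) ≤
      (Fintype.card κ : ℝ) := by exact_mod_cast h4
  have h6 := hd.1 i
  linarith

/-- Degrees at least `(1/2 + ε) n` imply expansion with constant `2 ε`. -/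
theorem expanding_of_minDeg (ε : ℝ) (E : ι → κ → Prop)
    (hcard : Fintype.card ι = Fintype.card κ) (hε : ε ≤ 1 / 2) (hd : MinDeg (1 / 2 + ε) E) :
    Expanding (2 * ε) E := by
  have h1 := noHole_of_minDeg (1 / 2 + ε) E hcard hd (by linarith)
  have h2 := expanding_of_noHole (1 / 2 + ε) (1 - (1 / 2 + ε)) E hcard hd h1
  have e : 1 / 2 + ε - (1 - (1 / 2 + ε)) = 2 * ε := by ring
  rwa [e] at h2

/-- Expanding graphs with parts of equal size have perfect matchings. -/
theorem exists_pm (c : ℝ) (hc : 0 ≤ c) (E : ι → κ → Prop)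
    (hcard : Fintype.card ι = Fintype.card κ) (hE : Expanding c E) :
    ∃ σ : ι ≃ κ, IsPM E σ := by
  classical
  have hall : ∀ X : Finset ι, X.card ≤ (X.biUnion (fun i => univ.filter (fun j => E i j))).card := by
    intro X
    have h0 : X.biUnion (fun i => univ.filter (fun j => E i j)) = nbhd E X := by
      ext j
      simp [nbhd]
    rw [h0]
    rcases X.eq_empty_or_nonempty with rfl | hX
    · simp
    · rcases hE X hX with h1 | h1
      · rw [h1, Finset.card_univ, ← hcard]
        exact Finset.card_le_univ _
      · have h2 : (X.card : ℝ) ≤ ((nbhd E X).card : ℝ) := by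
          have : 0 ≤ c * (Fintype.card ι : ℝ) := by positivity
          linarith
        exact_mod_cast h2
  obtain ⟨f, hinj, hf2⟩ := (Finset.all_card_le_biUnion_card_iff_exists_injective _).mp hall
  have hbij : Function.Bijective f :=
    (Fintype.bijective_iff_injective_and_card f).mpr ⟨hinj, hcard⟩
  refine ⟨Equiv.ofBijective f hbij, ?_⟩
  intro i
  have := hf2 i
  simpa using this

end ExPeriod
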