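import Mathlib
import Pool.Agent.H.MP_36be4a_lc.PX.Fold

/-!
Potentials for the least number of red edges, and the criterion near the least number.
-/

namespace ExPeriod

open Finset

variable {ι κ : Type} [Fintype ι] [Fintype κ]

/-- Reduced cost of the pair `(i, j)`. -/
noncomputable def rc (R : ι → κ → Prop) (y : ι → ℤ) (z : κ → ℤ) (i : ι) (j : κ) : ℤ :=
  ind (R i j) - y i - z j

/-- Potentials: reduced costs of edges are nonnegative and some perfect matching has only
edges of reduced cost zero. -/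
def Potentials (E R : ι → κ → Prop) (y : ι → ℤ) (z : κ → ℤ) : Prop :=
  (∀ i j, E i j → 0 ≤ rc R y z i j) ∧ ∃ σ : ι ≃ κ, IsPM E σ ∧ ∀ i, rc R y z i (σ i) = 0

/-- The subgraph in which the pairs of `T` are forced and all other rows use edges of reduced
cost zero. -/
def Forced (E R : ι → κ → Prop) (y : ι → ℤ) (z : κ → ℤ) (T : Finset (ι × κ)) : ι → κ → Prop :=
  fun i j => E i j ∧ ((i, j) ∈ T ∨ ((∀ j', (i, j') ∉ T) ∧ rc R y z i j = 0))

/-- Some subgraph `Forced T` with at most `d` forced pairs, of total reduced cost `d`, has a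
perfect matching. -/
def Near (E R : ι → κ → Prop) (y : ι → ℤ) (z : κ → ℤ) (d : ℕ) : Prop :=
  ∃ T : Finset (ι × κ), T.card ≤ d ∧ (∀ p ∈ T, ∀ q ∈ T, p.1 = q.1 → p = q) ∧
    ∑ p ∈ T, rc R y z p.1 p.2 = (d : ℤ) ∧ ∃ σ : ι ≃ κ, IsPM (Forced E R y z T) σ

lemma sum_rc (R : ι → κ → Prop) (y : ι → ℤ) (z : κ → ℤ) (σ : ι ≃ κ) :
    ∑ i, rc R y z i (σ i) = (red R σ : ℤ) - (∑ i, y i + ∑ j, z j) := by
  unfold rc
  rw [Finset.sum_sub_distrib, Finset.sum_sub_distrib, red_eq_sum, Equiv.sum_comp σ z]
  ring

theorem exists_potentials (E R : ι → κ → Prop) (h : ∃ σ : ι ≃ κ, IsPM E σ) :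
    ∃ y z, Potentials E R y z := by
  classical
  obtain ⟨σ0, hσ0⟩ := h
  have hmax : ∃ M : ℤ, (∃ y : ι → ℤ, ∃ z : κ → ℤ, (∀ i j, E i j → 0 ≤ rc R y z i j) ∧
      ∑ i, y i + ∑ j, z j = M) ∧ ∀ M' : ℤ, (∃ y : ι → ℤ, ∃ z : κ → ℤ,
      (∀ i j, E i j → 0 ≤ rc R y z i j) ∧ ∑ i, y i + ∑ j, z j = M') → M' ≤ M := by
    apply Int.exists_greatest_of_bdd
    · refine ⟨(red R σ0 : ℤ), ?_⟩
      rintro M' ⟨y, z, hf, rfl⟩
      have h1 := sum_rc R y z σ0
      have h2 : 0 ≤ ∑ i, rc R y z i (σ0 i) := Finset.sum_nonneg (fun i _ => hf i (σ0 i) (hσ0 i))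
      linarith
    · refine ⟨0, fun _ => 0, fun _ => 0, ?_, by simp⟩
      intro i j _
      have := ind_nonneg (R i j)
      simpa [rc] using this
  obtain ⟨M, ⟨y, z, hf, hM⟩, hmx⟩ := hmax
  refine ⟨y, z, hf, ?_⟩
  have hall : ∀ X : Finset ι, X.card ≤
      (X.biUnion (fun i => univ.filter (fun j => E i j ∧ rc R y z i j = 0))).card := by
    intro X
    by_contra hcon
    push Not at hcon
    set N := X.biUnion (fun i => univ.filter (fun j => E i j ∧ rc R y z i j = 0)) with hN
    have h1 := hmx (∑ i, (y i + if i ∈ X then 1 else 0) + ∑ j, (z j - if j ∈ N then 1 else 0))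
      ⟨fun i => y i + if i ∈ X then 1 else 0, fun j => z j - if j ∈ N then 1 else 0, by
        intro i j hE
        have h2 := hf i j hE
        unfold rc at h2 ⊢
        by_cases hi : i ∈ X
        · by_cases hj : j ∈ N
          · simp only [hi, hj, if_true]
            linarith
          · have h3 : rc R y z i j ≠ 0 := by
              intro h3
              apply hj
              rw [hN, Finset.mem_biUnion]
              exact ⟨i, hi, by simp [hE, h3]⟩
            unfold rc at h3
            simp only [hi, hj, if_true, if_false]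
            have h4 : 0 < ind (R i j) - y i - z j := lt_of_le_of_ne h2 (Ne.symm h3)
            linarith
        · by_cases hj : j ∈ N
          · simp only [hi, hj, if_true, if_false]
            linarith
          · simp only [hi, hj, if_false]
            linarith, rfl⟩
    rw [Finset.sum_add_distrib, Finset.sum_sub_distrib, ← Finset.sum_filter,
      ← Finset.sum_filter, Finset.filter_mem_eq_inter, Finset.filter_mem_eq_inter] at h1
    simp only [Finset.univ_inter, Finset.sum_const, nsmul_eq_mul, mul_one] at h1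
    have h5 : (N.card : ℤ) < (X.card : ℤ) := by exact_mod_cast hcon
    linarith
  obtain ⟨f, hinj, hf2⟩ := (Finset.all_card_le_biUnion_card_iff_exists_injective _).mp hall
  have hbij : Function.Bijective f :=
    (Fintype.bijective_iff_injective_and_card f).mpr ⟨hinj, Fintype.card_congr σ0⟩
  refine ⟨Equiv.ofBijective f hbij, ?_, ?_⟩
  · intro i
    have := hf2 i
    simp only [Finset.mem_filter, Finset.mem_univ, true_and] at this
    exact this.1
  · intro i
    have := hf2 i
    simp only [Finset.mem_filter, Finset.mem_univ, true_and] at this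
    exact this.2

theorem near_least (E R : ι → κ → Prop) (y : ι → ℤ) (z : κ → ℤ) (hp : Potentials E R y z) :
    ∃ a : ℕ, (a : ℤ) = ∑ i, y i + ∑ j, z j ∧ HasExact E R a ∧
      (∀ k, HasExact E R k → a ≤ k) ∧ ∀ d : ℕ, HasExact E R (a + d) ↔ Near E R y z d := by
  classical
  obtain ⟨hf, σ0, hσ0, ht⟩ := hp
  have h0 := sum_rc R y z σ0
  rw [Finset.sum_eq_zero (fun i _ => ht i)] at h0
  refine ⟨red R σ0, by linarith, ⟨σ0, hσ0, rfl⟩, ?_, ?_⟩
  · rintro k ⟨σ, h1, rfl⟩
    have h2 := sum_rc R y z σ
    have h3 : 0 ≤ ∑ i, rc R y z i (σ i) := Finset.sum_nonneg (fun i _ => hf i (σ i) (h1 i))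
    have : (red R σ0 : ℤ) ≤ (red R σ : ℤ) := by linarith
    exact_mod_cast this
  · intro d
    constructor
    · rintro ⟨σ, h1, h2⟩
      have h3 := sum_rc R y z σ
      have h4 : ∑ i, rc R y z i (σ i) = (d : ℤ) := by
        rw [h3, h2]; push_cast; linarith
      set S := univ.filter (fun i => rc R y z i (σ i) ≠ 0) with hS
      have hinj : Set.InjOn (fun i => (i, σ i)) (S : Set ι) := fun a _ b _ hab => by
        simpa using congrArg Prod.fst hab
      have h5 : ∑ i ∈ S, rc R y z i (σ i) = (d : ℤ) := by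
        rw [← h4, hS, Finset.sum_filter_ne_zero]
      have hmem : ∀ i j, (i, j) ∈ S.image (fun i => (i, σ i)) ↔ rc R y z i (σ i) ≠ 0 ∧ j = σ i := by
        intro i j
        rw [Finset.mem_image]
        constructor
        · rintro ⟨i', hi', he⟩
          rw [Prod.mk.injEq] at he
          obtain ⟨rfl, rfl⟩ := he
          rw [hS, Finset.mem_filter] at hi'
          exact ⟨hi'.2, rfl⟩
        · rintro ⟨h6, rfl⟩
          exact ⟨i, by rw [hS, Finset.mem_filter]; exact ⟨Finset.mem_univ _, h6⟩, rfl⟩
      refine ⟨S.image (fun i => (i, σ i)), ?_, ?_, ?_, σ, ?_⟩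
      · rw [Finset.card_image_of_injOn hinj]
        have h6 : (S.card : ℤ) ≤ ∑ i ∈ S, rc R y z i (σ i) := by
          have : (S.card : ℤ) = ∑ _i ∈ S, (1 : ℤ) := by simp
          rw [this]
          apply Finset.sum_le_sum
          intro i hi
          rw [hS, Finset.mem_filter] at hi
          have h7 := hf i (σ i) (h1 i)
          have h8 : 0 < rc R y z i (σ i) := lt_of_le_of_ne h7 (Ne.symm hi.2)
          linarith
        rw [h5] at h6
        exact_mod_cast h6
      · rintro ⟨i, j⟩ hp ⟨i', j'⟩ hq he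
        rw [hmem] at hp hq
        simp only at he
        subst he
        rw [hp.2, hq.2]
      · rw [Finset.sum_image hinj]
        exact h5
      · intro i
        refine ⟨h1 i, ?_⟩
        by_cases h6 : rc R y z i (σ i) = 0
        · right
          refine ⟨fun j' hj' => ?_, h6⟩
          rw [hmem] at hj'
          exact hj'.1 h6
        · left
          rw [hmem]
          exact ⟨h6, rfl⟩
    · rintro ⟨T, t1, t2, t3, σ, h1⟩
      refine ⟨σ, fun i => (h1 i).1, ?_⟩
      have hT : ∀ p ∈ T, p.2 = σ p.1 := by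
        intro p hp
        rcases (h1 p.1).2 with h2 | h2
        · have := t2 p hp _ h2 rfl
          exact congrArg Prod.snd this
        · exact absurd hp (h2.1 p.2)
      have h2 : ∑ p ∈ T, rc R y z p.1 p.2 = ∑ i ∈ T.image Prod.fst, rc R y z i (σ i) := by
        rw [Finset.sum_image (fun p hp q hq he => t2 p hp q hq he)]
        exact Finset.sum_congr rfl (fun p hp => by rw [← hT p hp])
      have h3 : ∑ i ∈ T.image Prod.fst, rc R y z i (σ i) = ∑ i, rc R y z i (σ i) := by
        apply Finset.sum_subset (Finset.subset_univ _)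
        intro i _ hi
        rcases (h1 i).2 with h4 | h4
        · exact absurd (Finset.mem_image.mpr ⟨_, h4, rfl⟩) hi
        · exact h4.2
      have h4 := sum_rc R y z σ
      rw [← h3, ← h2, t3] at h4
      have h5 : (red R σ : ℤ) = ((red R σ0 + d : ℕ) : ℤ) := by
        push_cast
        linarith
      exact_mod_cast h5

/-- The number of candidate sets `T`. -/
theorem count_candidates (D : ℕ) :
    ((univ : Finset (Finset (ι × κ))).filter (fun T => T.card ≤ D)).card ≤
      (Fintype.card ι * Fintype.card κ + 1) ^ D := by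
  classical
  have h1 : (Fintype.card ι * Fintype.card κ + 1) ^ D =
      Fintype.card (Fin D → Option (ι × κ)) := by
    simp [Fintype.card_option]
  rw [h1, ← Finset.card_univ]
  apply Finset.card_le_card_of_surjOn
    (fun g : Fin D → Option (ι × κ) => univ.filter (fun x => ∃ i, g i = some x))
  intro T hT
  simp only [Finset.coe_filter, Finset.mem_univ, true_and, Set.mem_setOf_eq] at hT
  refine ⟨fun i => if h : (i : ℕ) < T.card then some (T.equivFin.symm ⟨i, h⟩ : ι × κ) else none,
    by simp, ?_⟩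
  ext x
  simp only [Finset.mem_filter, Finset.mem_univ, true_and]
  constructor
  · rintro ⟨i, hi⟩
    split_ifs at hi with h
    · rw [Option.some.injEq] at hi
      rw [← hi]
      exact (T.equivFin.symm ⟨i, h⟩).2
  · intro hx
    refine ⟨⟨(T.equivFin ⟨x, hx⟩ : ℕ), lt_of_lt_of_le (T.equivFin ⟨x, hx⟩).2 hT⟩, ?_⟩
    rw [dif_pos (T.equivFin ⟨x, hx⟩).2]
    simp

end ExPeriod
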