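import Mathlib
import Pool.Agent.H.MP_36be4a_lc.PX.Dual
import Pool.Agent.H.MP_36be4a_lc.PX.Deg

/-!
The decision criterion for expanding graphs.
-/

namespace ExPeriod

open Finset

variable {ι κ : Type} [Fintype ι] [Fintype κ]

lemma red_le (R : ι → κ → Prop) (σ : ι ≃ κ) : red R σ ≤ Fintype.card ι := Finset.card_le_univ _

lemma exact_not (E R : ι → κ → Prop) (k : ℕ) :
    HasExact E R k ↔ k ≤ Fintype.card ι ∧
      HasExact E (fun i j => ¬ R i j) (Fintype.card ι - k) := by
  constructor
  · rintro ⟨σ, h1, rfl⟩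
    have h2 := red_le R σ
    refine ⟨h2, σ, h1, ?_⟩
    have h3 := red_not R σ
    have h4 : (red (fun i j => ¬ R i j) σ : ℤ) = ((Fintype.card ι - red R σ : ℕ) : ℤ) := by
      rw [h3]
      push_cast [Nat.cast_sub h2]
      ring
    exact_mod_cast h4
  · rintro ⟨h0, σ, h1, h2⟩
    refine ⟨σ, h1, ?_⟩
    have h3 := red_not R σ
    rw [h2] at h3
    have h4 : (red R σ : ℤ) = (k : ℤ) := by
      push_cast [Nat.cast_sub h0] at h3
      linarith
    exact_mod_cast h4

lemma fold_bounds (a b P C k : ℕ) (h1 : a ≤ k) (h2 : k ≤ b) :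
    a ≤ fold a b P C k ∧ fold a b P C k ≤ b := by
  unfold fold
  split_ifs with h
  · have := Nat.mod_le (k - (a + C)) P
    omega
  · exact ⟨h1, h2⟩

/-- Exact matching for the graph `E` and the red set `R` is decided with period `P` and
margin `C`: potentials exist for the red and for the blue edges, they give the least red count
`a` and the largest red count `b`, and `k` is achieved if and only if it lies between them and
its folded value passes the test near one of the two ends. -/
def DecidedBy (P C : ℕ) (E R : ι → κ → Prop) : Prop :=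
  (∃ y z, Potentials E R y z) ∧ (∃ y z, Potentials E (fun i j => ¬ R i j) y z) ∧
    ∀ (y : ι → ℤ) (z : κ → ℤ) (y' : ι → ℤ) (z' : κ → ℤ), Potentials E R y z →
      Potentials E (fun i j => ¬ R i j) y' z' → ∃ a b : ℕ,
        (a : ℤ) = ∑ i, y i + ∑ j, z j ∧
        (b : ℤ) = (Fintype.card ι : ℤ) - (∑ i, y' i + ∑ j, z' j) ∧
        HasExact E R a ∧ HasExact E R b ∧ (∀ k, HasExact E R k → a ≤ k ∧ k ≤ b) ∧
        ∀ k, HasExact E R k ↔ (a ≤ k ∧ k ≤ b ∧
          ((fold a b P C k ≤ a + (C + P) ∧ Near E R y z (fold a b P C k - a)) ∨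
            (b ≤ fold a b P C k + (C + P) ∧
              Near E (fun i j => ¬ R i j) y' z' (b - fold a b P C k))))

theorem decision (c : ℝ) (hc : 0 < c) (E R : ι → κ → Prop)
    (hcard : Fintype.card ι = Fintype.card κ) (hE : Expanding c E) :
    DecidedBy (PP c) (CC c) E R := by
  have hpm := exists_pm c hc.le E hcard hE
  refine ⟨exists_potentials E R hpm, exists_potentials E _ hpm, ?_⟩
  intro y z y' z' hp hp'
  obtain ⟨a, a1, a2, a3, a4⟩ := near_least E R y z hp
  obtain ⟨a', b1, b2, b3, b4⟩ := near_least E (fun i j => ¬ R i j) y' z' hp'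
  have ha' : a' ≤ Fintype.card ι := by
    obtain ⟨σ, _, h2⟩ := b2
    rw [← h2]; exact red_le _ σ
  have hb : HasExact E R (Fintype.card ι - a') := by
    rw [exact_not]
    refine ⟨Nat.sub_le _ _, ?_⟩
    rw [Nat.sub_sub_self ha']
    exact b2
  have hbnd : ∀ k, HasExact E R k → a ≤ k ∧ k ≤ Fintype.card ι - a' := by
    intro k hk
    refine ⟨a3 k hk, ?_⟩
    rw [exact_not] at hk
    have := b3 _ hk.2
    omega
  refine ⟨a, Fintype.card ι - a', a1, ?_, a2, hb, hbnd, ?_⟩
  · rw [Nat.cast_sub ha', b1]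
  · intro k
    have hfold := fold_iff c hc E R hE a (Fintype.card ι - a') a2 hb k
    have hnear := fold_near a (Fintype.card ι - a') (PP c) (CC c) k (PP_pos c)
    have hlow : ∀ f, a ≤ f → (HasExact E R f ↔ Near E R y z (f - a)) := by
      intro f hf
      rw [← a4 (f - a)]
      have e : a + (f - a) = f := by omega
      rw [e]
    have hhigh : ∀ f, f ≤ Fintype.card ι - a' →
        (HasExact E R f ↔ Near E (fun i j => ¬ R i j) y' z' (Fintype.card ι - a' - f)) := by
      intro f hf
      rw [← b4, exact_not]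
      have e : a' + (Fintype.card ι - a' - f) = Fintype.card ι - f := by omega
      rw [e]
      constructor
      · exact fun h => h.2
      · exact fun h => ⟨by omega, h⟩
    constructor
    · intro hk
      obtain ⟨h1, h2⟩ := hbnd k hk
      obtain ⟨h3, h4⟩ := fold_bounds a (Fintype.card ι - a') (PP c) (CC c) k h1 h2
      refine ⟨h1, h2, ?_⟩
      rw [hfold] at hk
      rcases hnear with h5 | h5
      · left; exact ⟨h5, (hlow _ h3).mp hk⟩
      · right; exact ⟨h5, (hhigh _ h4).mp hk⟩
    · rintro ⟨h1, h2, h⟩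
      obtain ⟨h3, h4⟩ := fold_bounds a (Fintype.card ι - a') (PP c) (CC c) k h1 h2
      rw [hfold]
      rcases h with h | h
      · exact (hlow _ h3).mpr h.2
      · exact (hhigh _ h4).mpr h.2

end ExPeriod
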