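import Mathlib
import Pool.Agent.H.MP_36be4a_lc.PX.Cut

/-!
The scale lemma: inside a walk of large weight there is a stretch of bounded weight whose two
end parts are both long compared with the whole stretch.
-/

namespace ExPeriod

lemma first_hit (L : ℕ → ℤ) (hL : ∀ t, L (t + 1) ≤ L t + 1) (i0 i3 : ℕ) (h : i0 ≤ i3) (g : ℤ)
    (h0 : L i0 ≤ g) (h3 : g ≤ L i3) :
    ∃ t, i0 ≤ t ∧ t ≤ i3 ∧ L t = g ∧ ∀ s, i0 ≤ s → s < t → L s < g := by
  classical
  have hex : ∃ t, i0 ≤ t ∧ g ≤ L t := ⟨i3, h, h3⟩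
  have h1 := Nat.find_spec hex
  have h2 : ∀ s, s < Nat.find hex → ¬ (i0 ≤ s ∧ g ≤ L s) := fun s hs => Nat.find_min hex hs
  have h4 : Nat.find hex ≤ i3 := Nat.find_min' hex ⟨h, h3⟩
  generalize Nat.find hex = t at *
  refine ⟨t, h1.1, h4, ?_, ?_⟩
  · rcases Nat.eq_or_lt_of_le h1.1 with h5 | h5
    · rw [← h5] at h1 ⊢
      linarith [h1.2]
    · obtain ⟨s, rfl⟩ : ∃ s, t = s + 1 := ⟨t - 1, by omega⟩
      have h6 := h2 s (by omega)
      have h7 : ¬ (g ≤ L s) := fun h => h6 ⟨by omega, h⟩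
      have h8 := hL s
      have h9 := h1.2
      omega
  · intro s hs1 hs2
    have h6 := h2 s hs2
    by_contra hcon
    exact h6 ⟨hs1, by omega⟩

lemma last_hit (L : ℕ → ℤ) (hL : ∀ t, L (t + 1) ≤ L t + 1) (i0 i3 : ℕ) (h : i0 ≤ i3) (g : ℤ)
    (h0 : L i0 ≤ g) (h3 : g ≤ L i3) :
    ∃ t, i0 ≤ t ∧ t ≤ i3 ∧ L t = g ∧ ∀ s, t < s → s ≤ i3 → g < L s := by
  classical
  have h1 : L (Nat.findGreatest (fun t => L t ≤ g) i3) ≤ g :=
    Nat.findGreatest_spec (P := fun t => L t ≤ g) h h0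
  have h2 : i0 ≤ Nat.findGreatest (fun t => L t ≤ g) i3 := Nat.le_findGreatest h h0
  have h4 : Nat.findGreatest (fun t => L t ≤ g) i3 ≤ i3 := Nat.findGreatest_le _
  have h5 : ∀ s, Nat.findGreatest (fun t => L t ≤ g) i3 < s → s ≤ i3 → ¬ (L s ≤ g) :=
    fun s hs1 hs2 => Nat.findGreatest_is_greatest hs1 hs2
  generalize Nat.findGreatest (fun t => L t ≤ g) i3 = t at *
  refine ⟨t, h2, h4, ?_, fun s hs1 hs2 => not_le.mp (h5 s hs1 hs2)⟩
  rcases Nat.eq_or_lt_of_le h4 with h6 | h6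
  · rw [← h6] at h3
    omega
  · have h7 := h5 (t + 1) (by omega) (by omega)
    have h8 := hL t
    omega

lemma scale_int (L : ℕ → ℤ) (hL : ∀ t, L (t + 1) ≤ L t + 1) (h : ℤ) (hh : 1 ≤ h) (q : ℕ) :
    ∀ (J i0 i3 : ℕ), i0 ≤ i3 → L i3 = L i0 + 3 ^ J * h → i3 - i0 + 1 < q ^ J →
      ∃ (j0 j1 j2 j3 : ℕ) (g base : ℤ), i0 ≤ j0 ∧ j0 ≤ j1 ∧ j1 < j2 ∧ j2 ≤ j3 ∧ j3 ≤ i3 ∧
        h ≤ g ∧ 3 * g ≤ 3 ^ J * h ∧
        (∀ t, j0 ≤ t → t ≤ j1 → base ≤ L t ∧ L t ≤ base + g) ∧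
        (∀ t, j2 ≤ t → t ≤ j3 → base + 2 * g ≤ L t ∧ L t ≤ base + 3 * g) ∧
        j3 - j0 + 1 ≤ q * (j1 - j0 + 1) ∧ j3 - j0 + 1 ≤ q * (j3 - j2 + 1) := by
  intro J
  induction J with
  | zero =>
    intro i0 i3 _ _ h2
    simp at h2
  | succ J ih =>
    intro i0 i3 h03 hJ hlen
    have hg : (1 : ℤ) ≤ 3 ^ J := one_le_pow₀ (by norm_num)
    set g : ℤ := 3 ^ J * h with hgdef
    have hg3 : (3 : ℤ) ^ (J + 1) * h = 3 * g := by rw [hgdef]; ring
    have hhg : h ≤ g := by rw [hgdef]; nlinarith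
    have hg1 : 1 ≤ g := by linarith
    rw [hg3] at hJ
    obtain ⟨j3, a1, a2, a3, a4⟩ := first_hit L hL i0 i3 h03 (L i0 + 3 * g) (by linarith)
      (by rw [hJ])
    obtain ⟨j0, b1, b2, b3, b4⟩ := last_hit L hL i0 j3 a1 (L i0) le_rfl (by rw [a3]; linarith)
    obtain ⟨j1, c1, c2, c3, c4⟩ := first_hit L hL j0 j3 b2 (L i0 + g) (by rw [b3]; linarith)
      (by rw [a3]; linarith)
    obtain ⟨j2, d1, d2, d3, d4⟩ := last_hit L hL j0 j3 b2 (L i0 + 2 * g) (by rw [b3]; linarith)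
      (by rw [a3]; linarith)
    have hlow : ∀ t, j0 ≤ t → t ≤ j3 → L i0 ≤ L t := by
      intro t h1 h2
      rcases Nat.eq_or_lt_of_le h1 with h3 | h3
      · rw [← h3, b3]
      · exact (b4 t h3 h2).le
    have hup : ∀ t, i0 ≤ t → t ≤ j3 → L t ≤ L i0 + 3 * g := by
      intro t h1 h2
      rcases Nat.eq_or_lt_of_le h2 with h3 | h3
      · rw [h3, a3]
      · exact (a4 t h1 h3).le
    have h12 : j1 < j2 := by
      by_contra hcon
      push Not at hcon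
      rcases Nat.eq_or_lt_of_le hcon with h3 | h3
      · rw [h3, c3] at d3; linarith
      · have := d4 j1 h3 c2
        rw [c3] at this; linarith
    have hA : ∀ t, j0 ≤ t → t ≤ j1 → L i0 ≤ L t ∧ L t ≤ L i0 + g := by
      intro t h1 h2
      refine ⟨hlow t h1 (h2.trans c2), ?_⟩
      rcases Nat.eq_or_lt_of_le h2 with h3 | h3
      · rw [h3, c3]
      · exact (c4 t h1 h3).le
    have hC : ∀ t, j2 ≤ t → t ≤ j3 → L i0 + 2 * g ≤ L t ∧ L t ≤ L i0 + 3 * g := by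
      intro t h1 h2
      refine ⟨?_, hup t (b1.trans (d1.trans h1)) h2⟩
      rcases Nat.eq_or_lt_of_le h1 with h3 | h3
      · rw [← h3, d3]
      · exact (d4 t h3 h2).le
    have hqpos : 0 < q := by
      rcases Nat.eq_zero_or_pos q with h1 | h1
      · rw [h1, zero_pow (Nat.succ_ne_zero J)] at hlen
        omega
      · exact h1
    by_cases e1 : j3 - j0 + 1 ≤ q * (j1 - j0 + 1)
    · by_cases e2 : j3 - j0 + 1 ≤ q * (j3 - j2 + 1)
      · exact ⟨j0, j1, j2, j3, g, L i0, b1, c1, h12, d2, a2, hhg, by rw [hg3], hA, hC, e1, e2⟩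
      · push Not at e2
        have h1 : j3 - j2 + 1 < q ^ J := by
          have h2 : q * (j3 - j2 + 1) < q * q ^ J := by
            calc q * (j3 - j2 + 1) < j3 - j0 + 1 := e2
              _ ≤ i3 - i0 + 1 := by omega
              _ < q ^ (J + 1) := hlen
              _ = q * q ^ J := by ring
          exact Nat.lt_of_mul_lt_mul_left h2
        obtain ⟨k0, k1, k2, k3, g', base, f1, f2, f3, f4, f5, f6, f7, f8⟩ := ih j2 j3 d2
          (by rw [a3, d3]; ring) h1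
        exact ⟨k0, k1, k2, k3, g', base, by omega, f2, f3, f4, by omega, f6,
          by rw [hg3]; linarith, f8⟩
    · push Not at e1
      have h1 : j1 - j0 + 1 < q ^ J := by
        have h2 : q * (j1 - j0 + 1) < q * q ^ J := by
          calc q * (j1 - j0 + 1) < j3 - j0 + 1 := e1
            _ ≤ i3 - i0 + 1 := by omega
            _ < q ^ (J + 1) := hlen
            _ = q * q ^ J := by ring
        exact Nat.lt_of_mul_lt_mul_left h2
      obtain ⟨k0, k1, k2, k3, g', base, f1, f2, f3, f4, f5, f6, f7, f8⟩ := ih j0 j1 c1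
        (by rw [c3, b3]) h1
      exact ⟨k0, k1, k2, k3, g', base, by omega, f2, f3, f4, by omega, f6,
        by rw [hg3]; linarith, f8⟩

end ExPeriod
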