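import Mathlib
import Pool.Agent.H.MP_36be4a_lc.PX.Scale
import Pool.Agent.H.MP_36be4a_lc.PX.Proc

/-!
Flexible walks: walks that have, for every small set `W`, a stretch of bounded positive weight
with both ends outside `W`.
-/

namespace ExPeriod

open List

variable {α : Type}

lemma slice_head (l : List α) (s n : ℕ) (hs : s < l.length) :
    (l.drop s).take (n + 1) = l[s] :: (l.drop (s + 1)).take n := by
  rw [List.drop_eq_getElem_cons hs, List.take_succ_cons]

lemma slice_last (l : List α) (s t : ℕ) (hst : s ≤ t) (ht : t < l.length) :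
    (l.drop s).take (t - s + 1) = (l.drop s).take (t - s) ++ [l[t]] := by
  have h1 : t - s < (l.drop s).length := by rw [List.length_drop]; omega
  rw [List.take_succ_eq_append_getElem h1]
  congr 2
  rw [List.getElem_drop]
  congr 1
  omega

lemma slice_pw (w : α → α → ℤ) (l : List α) (s t : ℕ) (hst : s ≤ t) (ht : t < l.length) :
    pw w ((l.drop s).take (t - s + 1)) = pw w (l.take (t + 1)) - pw w (l.take (s + 1)) := by
  have h1 : l.take (t + 1) = l.take s ++ (l.drop s).take (t - s + 1) := by
    have h2 : t + 1 = s + (t - s + 1) := by omega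
    rw [h2, List.take_add]
  have h3 : l.take (s + 1) = l.take s ++ [l[s]] := by
    rw [List.take_succ_eq_append_getElem]
  rw [h1, h3, slice_head l s (t - s) (by omega), pw_overlap w]
  ring

/-- For every small `W` there is a stretch with ends outside `W` and weight in `[lo, hi]`. -/
def Flex (w : α → α → ℤ) (lo hi : ℤ) (q : ℕ) (l : List α) : Prop :=
  ∀ W : Finset α, q * W.card < l.length → ∃ (m : List α) (a b : α) (m1 m2 : List α),
    m <:+: l ∧ m = a :: m1 ∧ m = m2 ++ [b] ∧ a ∉ W ∧ b ∉ W ∧ lo ≤ pw w m ∧ pw w m ≤ hi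

lemma exists_index [DecidableEq α] (l : List α) (hn : l.Nodup) (i j : ℕ) (hij : i ≤ j)
    (hj : j < l.length) (W : Finset α) (hW : W.card < j - i + 1) :
    ∃ t, ∃ ht : t < l.length, i ≤ t ∧ t ≤ j ∧ l[t] ∉ W := by
  by_contra hcon
  push Not at hcon
  have h1 : ((l.drop i).take (j - i + 1)).toFinset ⊆ W := by
    intro x hx
    rw [List.mem_toFinset] at hx
    obtain ⟨k, hk, rfl⟩ := List.getElem_of_mem hx
    rw [List.length_take, List.length_drop] at hk
    rw [List.getElem_take, List.getElem_drop]
    exact hcon (i + k) (by omega) (by omega) (by omega)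
  have h2 := Finset.card_le_card h1
  have h3 : ((l.drop i).take (j - i + 1)).Nodup :=
    hn.sublist ((List.take_sublist _ _).trans (List.drop_sublist _ _))
  rw [List.toFinset_card_of_nodup h3, List.length_take, List.length_drop] at h2
  omega

lemma flex_exists [DecidableEq α] (w : α → α → ℤ) (hw : ∀ a b, w a b ≤ 1) (h : ℤ) (hh : 1 ≤ h)
    (q J : ℕ) (l : List α) (hn : l.Nodup) (hl : pw w l = 3 ^ J * h) (hlen : l.length < q ^ J) :
    ∃ s, s <:+: l ∧ s ≠ [] ∧ Flex w h (3 ^ J * h) q s := by
  have hpos : (1 : ℤ) ≤ 3 ^ J * h := by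
    have : (1 : ℤ) ≤ 3 ^ J := one_le_pow₀ (by norm_num)
    nlinarith
  have hne : l ≠ [] := by
    rintro rfl
    rw [pw_nil] at hl
    linarith
  have hlpos : 0 < l.length := List.length_pos_iff.mpr hne
  have hL : ∀ t, pw w (l.take (t + 1 + 1)) ≤ pw w (l.take (t + 1)) + 1 := by
    intro t
    by_cases ht : t + 1 < l.length
    · rw [List.take_succ_eq_append_getElem ht]
      have := pw_append_le w hw [l[t + 1]] (l.take (t + 1))
      rw [pw_single] at this
      linarith
    · rw [List.take_of_length_le (by omega), List.take_of_length_le (by omega)]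
      linarith
  have h0 : pw w (l.take (0 + 1)) = 0 := by
    cases l with
    | nil => exact absurd rfl hne
    | cons a l => simp [pw_single]
  have h1 : pw w (l.take (l.length - 1 + 1)) = pw w l := by
    rw [List.take_of_length_le (by omega)]
  obtain ⟨j0, j1, j2, j3, g, base, e0, e1, e2, e3, e4, e5, e6, e7, e8, e9, e10⟩ :=
    scale_int (fun t => pw w (l.take (t + 1))) hL h hh q J 0 (l.length - 1) (by omega)
      (by show pw w (l.take (l.length - 1 + 1)) = pw w (l.take (0 + 1)) + 3 ^ J * h
          rw [h0, h1, hl]; ring) (by omega)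
  have hs : (l.drop j0).take (j3 - j0 + 1) <:+: l :=
    ⟨l.take j0, (l.drop j0).drop (j3 - j0 + 1), by
      rw [List.append_assoc, List.take_append_drop, List.take_append_drop]⟩
  have hslen : ((l.drop j0).take (j3 - j0 + 1)).length = j3 - j0 + 1 := by
    rw [List.length_take, List.length_drop]; omega
  refine ⟨(l.drop j0).take (j3 - j0 + 1), hs, ?_, ?_⟩
  · intro hcon
    rw [hcon] at hslen
    simp at hslen
  · intro W hW
    rw [hslen] at hW
    obtain ⟨t, ht, t1, t2, t3⟩ := exists_index l hn j0 j1 e1 (by omega) W (by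
      have : q * W.card < q * (j1 - j0 + 1) := lt_of_lt_of_le hW e9
      exact Nat.lt_of_mul_lt_mul_left this)
    obtain ⟨u, hu, u1, u2, u3⟩ := exists_index l hn j2 j3 e3 (by omega) W (by
      have : q * W.card < q * (j3 - j2 + 1) := lt_of_lt_of_le hW e10
      exact Nat.lt_of_mul_lt_mul_left this)
    refine ⟨(l.drop t).take (u - t + 1), l[t], l[u], (l.drop (t + 1)).take (u - t),
      (l.drop t).take (u - t), ?_, slice_head l t (u - t) ht, slice_last l t u (by omega) hu,
      t3, u3, ?_, ?_⟩
    · refine ⟨(l.drop j0).take (t - j0), ((l.drop (u + 1))).take (j3 - u), ?_⟩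
      have x1 : (l.drop j0).take (j3 - j0 + 1) =
          (l.drop j0).take (t - j0) ++ ((l.drop j0).drop (t - j0)).take (j3 - t + 1) := by
        have : j3 - j0 + 1 = (t - j0) + (j3 - t + 1) := by omega
        rw [this, List.take_add]
      have x2 : (l.drop j0).drop (t - j0) = l.drop t := by
        rw [List.drop_drop]; congr 1; omega
      have x3 : (l.drop t).take (j3 - t + 1) =
          (l.drop t).take (u - t + 1) ++ ((l.drop t).drop (u - t + 1)).take (j3 - u) := by
        have : j3 - t + 1 = (u - t + 1) + (j3 - u) := by omega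
        rw [this, List.take_add]
      have x4 : (l.drop t).drop (u - t + 1) = l.drop (u + 1) := by
        rw [List.drop_drop]; congr 1; omega
      rw [x1, x2, x3, x4, List.append_assoc]
    · rw [slice_pw w l t u (by omega) hu]
      have h2 := (e7 t t1 t2).2
      have h3 := (e8 u u1 u2).1
      linarith
    · rw [slice_pw w l t u (by omega) hu]
      have h2 := (e7 t t1 t2).1
      have h3 := (e8 u u1 u2).2
      linarith

end ExPeriod
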