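import Mathlib
import Pool.Agent.H.MP_36be4a_lc.PX.Decide

/-!
From a shift property of all exchange digraphs of a bipartite graph to the decision criterion.
-/

namespace ExPeriod

open Finset

variable {ι κ : Type} [Fintype ι] [Fintype κ]

lemma step_of_shift (P C : ℕ) (E R : ι → κ → Prop) (ρ τ : ι ≃ κ) (hτ : IsPM E τ)
    (hshift : ∀ w : ι → ι → ℤ, (∀ a, w a a = 0) → (∀ a b, |w a b| ≤ 1) →
      ∀ π : Equiv.Perm ι, Valid (fun i j => E i (ρ j)) π → (C : ℤ) ≤ gain w π →
        ∃ θ : Equiv.Perm ι, Valid (fun i j => E i (ρ j)) θ ∧ gain w θ = (P : ℤ))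
    (hred : red R ρ + C ≤ red R τ) :
    ∃ σ : ι ≃ κ, IsPM E σ ∧ red R σ = red R ρ + P := by
  obtain ⟨θ, hθ1, hθ2⟩ := hshift
    (fun i j => ind (R i (ρ j)) - ind (R i (ρ i))) (fun a => by simp)
    (fun a b => by
      rw [abs_le]
      have h1 := ind_nonneg (R a (ρ b))
      have h2 := ind_le_one (R a (ρ b))
      have h3 := ind_nonneg (R a (ρ a))
      have h4 := ind_le_one (R a (ρ a))
      constructor <;> linarith)
    (τ.trans ρ.symm) (by
      intro i
      simpa using hτ i)
    (by
      have h1 : gain (fun i j => ind (R i (ρ j)) - ind (R i (ρ i))) (τ.trans ρ.symm) =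
          (red R τ : ℤ) - red R ρ := by
        rw [gain, Finset.sum_sub_distrib, red_eq_sum, red_eq_sum]
        simp
      rw [h1]
      have : ((red R ρ + C : ℕ) : ℤ) ≤ (red R τ : ℤ) := by exact_mod_cast hred
      push_cast at this
      linarith)
  refine ⟨θ.trans ρ, fun i => by simpa using hθ1 i, ?_⟩
  have h1 : gain (fun i j => ind (R i (ρ j)) - ind (R i (ρ i))) θ =
      (red R (θ.trans ρ) : ℤ) - red R ρ := by
    rw [gain, Finset.sum_sub_distrib, red_eq_sum, red_eq_sum]
    simp
  rw [h1] at hθ2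
  have : (red R (θ.trans ρ) : ℤ) = ((red R ρ + P : ℕ) : ℤ) := by
    push_cast; linarith
  exact_mod_cast this

lemma fold_iff_of (P C : ℕ) (E R : ι → κ → Prop) (a b : ℕ)
    (up : ∀ k, k + C ≤ b → HasExact E R k → HasExact E R (k + P))
    (down : ∀ k, a + C ≤ k + P → HasExact E R (k + P) → HasExact E R k) (k : ℕ) :
    HasExact E R k ↔ HasExact E R (fold a b P C k) := by
  unfold fold
  split_ifs with h
  · obtain ⟨h1, h2⟩ := h
    have key : ∀ t r : ℕ, a + C + r + t * P + C ≤ b →
        (HasExact E R (a + C + r + t * P) ↔ HasExact E R (a + C + r)) := by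
      intro t
      induction t with
      | zero => intro r _; simp
      | succ t ih =>
        intro r hr
        have e : a + C + r + (t + 1) * P = (a + C + r + t * P) + P := by ring
        rw [e] at hr ⊢
        rw [← ih r (by omega)]
        constructor
        · intro h; exact down _ (by omega) h
        · intro h; exact up _ (by omega) h
    have h3 : (k - (a + C)) % P + (k - (a + C)) / P * P = k - (a + C) := by
      rw [mul_comm]; exact Nat.mod_add_div _ _
    have h4 : k = a + C + (k - (a + C)) % P + (k - (a + C)) / P * P := by omega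
    have h5 := key ((k - (a + C)) / P) ((k - (a + C)) % P) (by rw [← h4]; exact h2)
    rw [← h4] at h5
    exact h5
  · exact Iff.rfl

theorem decidedBy_of_step (P C : ℕ) (hP : 0 < P) (E : ι → κ → Prop)
    (hpm : ∃ σ : ι ≃ κ, IsPM E σ)
    (hstep : ∀ (R : ι → κ → Prop) (ρ τ : ι ≃ κ), IsPM E ρ → IsPM E τ →
      red R ρ + C ≤ red R τ → ∃ σ : ι ≃ κ, IsPM E σ ∧ red R σ = red R ρ + P)
    (R : ι → κ → Prop) : DecidedBy P C E R := by
  have up : ∀ b, HasExact E R b → ∀ k, k + C ≤ b → HasExact E R k → HasExact E R (k + P) := by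
    rintro b ⟨τ, h3, h4⟩ k hk ⟨ρ, h1, h2⟩
    obtain ⟨σ, h5, h6⟩ := hstep R ρ τ h1 h3 (by omega)
    exact ⟨σ, h5, by omega⟩
  have down : ∀ a, HasExact E R a → ∀ k, a + C ≤ k + P → HasExact E R (k + P) →
      HasExact E R k := by
    rintro a ⟨τ, h3, h4⟩ k hk ⟨ρ, h1, h2⟩
    have e1 := red_not R ρ
    have e2 := red_not R τ
    obtain ⟨σ, h5, h6⟩ := hstep (fun i j => ¬ R i j) ρ τ h1 h3 (by
      have : ((red (fun i j => ¬ R i j) ρ + C : ℕ) : ℤ) ≤
          (red (fun i j => ¬ R i j) τ : ℤ) := by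
        push_cast
        rw [e1, e2]
        have : ((a + C : ℕ) : ℤ) ≤ ((k + P : ℕ) : ℤ) := by exact_mod_cast hk
        push_cast at this
        rw [h2, h4]
        push_cast
        linarith
      exact_mod_cast this)
    refine ⟨σ, h5, ?_⟩
    have e3 := red_not R σ
    have : (red (fun i j => ¬ R i j) σ : ℤ) = (red (fun i j => ¬ R i j) ρ : ℤ) + P := by
      exact_mod_cast h6
    rw [e3, e1, h2] at this
    push_cast at this
    have h7 : (red R σ : ℤ) = (k : ℤ) := by linarith
    exact_mod_cast h7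
  refine ⟨exists_potentials E R hpm, exists_potentials E _ hpm, ?_⟩
  intro y z y' z' hp hp'
  obtain ⟨a, a1, a2, a3, a4⟩ := near_least E R y z hp
  obtain ⟨a', b1, b2, b3, b4⟩ := near_least E (fun i j => ¬ R i j) y' z' hp'
  have ha' : a' ≤ Fintype.card ι := by
    obtain ⟨σ, _, h2⟩ := b2
    rw [← h2]; exact red_le _ σ
  have hb : HasExact E R (Fintype.card ι - a') := by
    rw [exact_not]
    refine ⟨Nat.sub_le _ _, ?_⟩
    rw [Nat.sub_sub_self ha']
    exact b2
  have hbnd : ∀ k, HasExact E R k → a ≤ k ∧ k ≤ Fintype.card ι - a' := by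
    intro k hk
    refine ⟨a3 k hk, ?_⟩
    rw [exact_not] at hk
    have := b3 _ hk.2
    omega
  refine ⟨a, Fintype.card ι - a', a1, ?_, a2, hb, hbnd, ?_⟩
  · rw [Nat.cast_sub ha', b1]
  · intro k
    have hfold := fold_iff_of P C E R a (Fintype.card ι - a') (up _ hb) (down _ a2) k
    have hnear := fold_near a (Fintype.card ι - a') P C k hP
    have hlow : ∀ f, a ≤ f → (HasExact E R f ↔ Near E R y z (f - a)) := by
      intro f hf
      rw [← a4 (f - a)]
      have e : a + (f - a) = f := by omega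
      rw [e]
    have hhigh : ∀ f, f ≤ Fintype.card ι - a' →
        (HasExact E R f ↔ Near E (fun i j => ¬ R i j) y' z' (Fintype.card ι - a' - f)) := by
      intro f hf
      rw [← b4, exact_not]
      have e : a' + (Fintype.card ι - a' - f) = Fintype.card ι - f := by omega
      rw [e]
      constructor
      · exact fun h => h.2
      · exact fun h => ⟨by omega, h⟩
    constructor
    · intro hk
      obtain ⟨h1, h2⟩ := hbnd k hk
      obtain ⟨h3, h4⟩ := fold_bounds a (Fintype.card ι - a') P C k h1 h2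
      refine ⟨h1, h2, ?_⟩
      rw [hfold] at hk
      rcases hnear with h5 | h5
      · left; exact ⟨h5, (hlow _ h3).mp hk⟩
      · right; exact ⟨h5, (hhigh _ h4).mp hk⟩
    · rintro ⟨h1, h2, h⟩
      obtain ⟨h3, h4⟩ := fold_bounds a (Fintype.card ι - a') P C k h1 h2
      rw [hfold]
      rcases h with h | h
      · exact (hlow _ h3).mpr h.2
      · exact (hhigh _ h4).mpr h.2

end ExPeriod
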