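import Mathlib
import Pool.Agent.H.MP_36be4a_lc.PX.Deg

/-!
The degree threshold one half: any instance embeds in one of minimum degree `α n`, `α < 1/2`.
-/

namespace ExPeriod

open Finset

variable {ι κ : Type} [Fintype ι] [Fintype κ]

/-- The padded graph: `N + N` new rows and columns. -/
def padE (N : ℕ) (E : ι → κ → Prop) : ι ⊕ (Fin N ⊕ Fin N) → κ ⊕ (Fin N ⊕ Fin N) → Prop
  | Sum.inl i, Sum.inl j => E i j
  | Sum.inl _, Sum.inr (Sum.inl _) => True
  | Sum.inl _, Sum.inr (Sum.inr _) => False
  | Sum.inr (Sum.inl _), Sum.inr (Sum.inl _) => True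
  | Sum.inr (Sum.inl _), Sum.inl _ => False
  | Sum.inr (Sum.inl _), Sum.inr (Sum.inr _) => False
  | Sum.inr (Sum.inr _), Sum.inl _ => True
  | Sum.inr (Sum.inr _), Sum.inr (Sum.inr _) => True
  | Sum.inr (Sum.inr _), Sum.inr (Sum.inl _) => False

/-- The padded colouring: only old edges can be red. -/
def padR (N : ℕ) (R : ι → κ → Prop) : ι ⊕ (Fin N ⊕ Fin N) → κ ⊕ (Fin N ⊕ Fin N) → Prop
  | Sum.inl i, Sum.inl j => R i j
  | _, _ => False

theorem pad_exact (N : ℕ) (E R : ι → κ → Prop) (k : ℕ) :
    HasExact (padE N E) (padR N R) k ↔ HasExact E R k := by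
  classical
  constructor
  · rintro ⟨σ, h1, h2⟩
    have hB : ∀ b : Fin N, ∃ b' : Fin N, σ (Sum.inr (Sum.inl b)) = Sum.inr (Sum.inl b') := by
      intro b
      have h3 := h1 (Sum.inr (Sum.inl b))
      rcases hs : σ (Sum.inr (Sum.inl b)) with j | b' | c
      · rw [hs] at h3; exact absurd h3 (by simp [padE])
      · exact ⟨b', rfl⟩
      · rw [hs] at h3; exact absurd h3 (by simp [padE])
    choose g hg using hB
    have hginj : Function.Injective g := by
      intro b b' hb
      have h3 : σ (Sum.inr (Sum.inl b)) = σ (Sum.inr (Sum.inl b')) := by rw [hg, hg, hb]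
      simpa using σ.injective h3
    have hgsurj : Function.Surjective g := Finite.surjective_of_injective hginj
    have hA : ∀ i : ι, ∃ j : κ, σ (Sum.inl i) = Sum.inl j ∧ E i j := by
      intro i
      have h3 := h1 (Sum.inl i)
      rcases hs : σ (Sum.inl i) with j | b' | c
      · rw [hs] at h3; exact ⟨j, rfl, h3⟩
      · obtain ⟨b, rfl⟩ := hgsurj b'
        rw [← hg b] at hs
        have := σ.injective hs
        simp at this
      · rw [hs] at h3; exact absurd h3 (by simp [padE])
    choose f hf using hA
    have hfinj : Function.Injective f := by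
      intro i i' hi
      have h3 : σ (Sum.inl i) = σ (Sum.inl i') := by rw [(hf i).1, (hf i').1, hi]
      simpa using σ.injective h3
    have hcard : Fintype.card ι = Fintype.card κ := by
      have := Fintype.card_congr σ
      simp only [Fintype.card_sum, Fintype.card_fin] at this
      omega
    have hbij : Function.Bijective f :=
      (Fintype.bijective_iff_injective_and_card f).mpr ⟨hfinj, hcard⟩
    refine ⟨Equiv.ofBijective f hbij, fun i => (hf i).2, ?_⟩
    have h3 : (red (padR N R) σ : ℤ) = (red R (Equiv.ofBijective f hbij) : ℤ) := by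
      rw [red_eq_sum, red_eq_sum, Fintype.sum_sum_type]
      have h4 : ∑ x : Fin N ⊕ Fin N, ind (padR N R (Sum.inr x) (σ (Sum.inr x))) = 0 := by
        apply Finset.sum_eq_zero
        intro x _
        simp [padR, ind]
      rw [h4, add_zero]
      apply Finset.sum_congr rfl
      intro i _
      rw [(hf i).1]
      rfl
    rw [← h2]
    exact_mod_cast h3.symm
  · rintro ⟨σ, h1, h2⟩
    refine ⟨Equiv.sumCongr σ (Equiv.refl _), ?_, ?_⟩
    · rintro (i | b | c)
      · exact h1 i
      · simp [padE]
      · simp [padE]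
    · have h3 : (red (padR N R) (Equiv.sumCongr σ (Equiv.refl _)) : ℤ) = (red R σ : ℤ) := by
        rw [red_eq_sum, red_eq_sum, Fintype.sum_sum_type]
        have h4 : ∑ x : Fin N ⊕ Fin N, ind (padR N R (Sum.inr x)
            ((Equiv.sumCongr σ (Equiv.refl _)) (Sum.inr x))) = 0 := by
          apply Finset.sum_eq_zero
          intro x _
          simp [padR, ind]
        rw [h4, add_zero]
        rfl
      rw [← h2]
      exact_mod_cast h3

theorem pad_minDeg (N : ℕ) (α : ℝ) (E : ι → κ → Prop)
    (hα : α * ((Fintype.card ι : ℝ) + 2 * (N : ℝ)) ≤ (N : ℝ)) : MinDeg α (padE N E) := by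
  classical
  have hc : α * (Fintype.card (ι ⊕ (Fin N ⊕ Fin N)) : ℝ) ≤ (N : ℝ) := by
    simp only [Fintype.card_sum, Fintype.card_fin]
    push_cast
    have e : (Fintype.card ι : ℝ) + ((N : ℝ) + (N : ℝ)) = (Fintype.card ι : ℝ) + 2 * (N : ℝ) := by
      ring
    rw [e]; exact hα
  have hN : N = (univ : Finset (Fin N)).card := by simp
  constructor
  · intro r
    refine hc.trans ?_
    have key : N ≤ (univ.filter (fun s => padE N E r s)).card := by
      rcases r with i | b | c
      · conv_lhs => rw [hN]
        apply Finset.card_le_card_of_injOn (fun b : Fin N => Sum.inr (Sum.inl b))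
        · intro b _; rw [Finset.mem_coe, Finset.mem_filter]; exact ⟨Finset.mem_univ _, trivial⟩
        · intro b _ b' _ h; simpa using h
      · conv_lhs => rw [hN]
        apply Finset.card_le_card_of_injOn (fun b : Fin N => Sum.inr (Sum.inl b))
        · intro b _; rw [Finset.mem_coe, Finset.mem_filter]; exact ⟨Finset.mem_univ _, trivial⟩
        · intro b _ b' _ h; simpa using h
      · conv_lhs => rw [hN]
        apply Finset.card_le_card_of_injOn (fun b : Fin N => Sum.inr (Sum.inr b))
        · intro b _; rw [Finset.mem_coe, Finset.mem_filter]; exact ⟨Finset.mem_univ _, trivial⟩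
        · intro b _ b' _ h; simpa using h
    exact_mod_cast key
  · intro s
    refine hc.trans ?_
    have key : N ≤ (univ.filter (fun r => padE N E r s)).card := by
      rcases s with i | b | c
      · conv_lhs => rw [hN]
        apply Finset.card_le_card_of_injOn (fun b : Fin N => Sum.inr (Sum.inr b))
        · intro b _; rw [Finset.mem_coe, Finset.mem_filter]; exact ⟨Finset.mem_univ _, trivial⟩
        · intro b _ b' _ h; simpa using h
      · conv_lhs => rw [hN]
        apply Finset.card_le_card_of_injOn (fun b : Fin N => Sum.inr (Sum.inl b))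
        · intro b _; rw [Finset.mem_coe, Finset.mem_filter]; exact ⟨Finset.mem_univ _, trivial⟩
        · intro b _ b' _ h; simpa using h
      · conv_lhs => rw [hN]
        apply Finset.card_le_card_of_injOn (fun b : Fin N => Sum.inr (Sum.inr b))
        · intro b _; rw [Finset.mem_coe, Finset.mem_filter]; exact ⟨Finset.mem_univ _, trivial⟩
        · intro b _ b' _ h; simpa using h
    exact_mod_cast key

/-- Below one half the minimum degree condition is no restriction. -/
theorem hard (α : ℝ) (hα : α < 1 / 2) : ∃ K : ℕ,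
    ∀ (ι κ : Type) [Fintype ι] [Fintype κ] (E R : ι → κ → Prop),
      MinDeg α (padE (K * Fintype.card ι) E) ∧
      ∀ k, HasExact (padE (K * Fintype.card ι) E) (padR (K * Fintype.card ι) R) k ↔
        HasExact E R k := by
  refine ⟨⌈α / (1 - 2 * α)⌉₊, ?_⟩
  intro ι κ _ _ E R
  refine ⟨?_, fun k => pad_exact _ E R k⟩
  apply pad_minDeg
  have h1 := Nat.le_ceil (α / (1 - 2 * α))
  have h2 : (0 : ℝ) < 1 - 2 * α := by linarith
  rw [div_le_iff₀ h2] at h1
  have h3 : (0 : ℝ) ≤ (Fintype.card ι : ℝ) := Nat.cast_nonneg _
  push_cast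
  nlinarith

end ExPeriod
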