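import Mathlib
import Pool.Agent.H.MP_36be4a_lc.PX.Flex

/-!
The shift theorem for linked digraphs: every small set `Z` has a much smaller exceptional set `W`
such that all vertices outside `W` are joined by short walks avoiding `Z`.
-/

namespace ExPeriod

open List

variable {α : Type} [Fintype α] [DecidableEq α]

/-- Short connections avoiding small sets, up to a small set of exceptions. -/
def Linked (V : α → α → Prop) (β ν : ℝ) (Q : ℕ) : Prop :=
  ∀ Z : Finset α, Z.Nonempty → (Z.card : ℝ) ≤ β * (Fintype.card α : ℝ) →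
    ∃ W : Finset α, (W.card : ℝ) ≤ ν * (Z.card : ℝ) ∧ ∀ a b, a ∉ W → b ∉ W →
      ∃ m : List α, m.Nodup ∧ (∀ y ∈ m, y ∉ Z) ∧ IsChain V (b :: (m ++ [a])) ∧ m.length ≤ Q

lemma process_closed (V : α → α → Prop) (hV : ∀ a, V a a) (w : α → α → ℤ)
    (hw0 : ∀ a, w a a = 0) (N : ℤ) :
    ∀ G : List (List α), (∀ B ∈ G, ∃ a l, B = a :: l ∧ IsChain V (B ++ [a]) ∧
        1 ≤ pw w (B ++ [a]) ∧ pw w (B ++ [a]) ≤ N) → G.flatten.Nodup →
      ∃ Θ : List (Equiv.Perm α), Θ.length = G.length ∧ Θ.Pairwise Equiv.Perm.Disjoint ∧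
        (∀ θ ∈ Θ, Valid V θ ∧ 1 ≤ gain w θ ∧ gain w θ ≤ N) ∧
        (∀ θ ∈ Θ, ∀ x, θ x ≠ x → x ∈ G.flatten) := by
  intro G
  induction G with
  | nil =>
    intro _ _
    exact ⟨[], by simp, by simp, by simp, by simp⟩
  | cons B G ih =>
    intro hG hn
    obtain ⟨a, l, hB, b1, b2, b3⟩ := hG B List.mem_cons_self
    rw [List.flatten_cons] at hn
    have hn' := List.nodup_append.mp hn
    obtain ⟨Θ, t1, t2, t3, t4⟩ := ih (fun B' hB' => hG B' (List.mem_cons_of_mem _ hB')) hn'.2.1
    have hnB : (a :: l).Nodup := by rw [← hB]; exact hn'.1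
    have hmem : ∀ x, formPerm (a :: l) x ≠ x → x ∈ B := by
      intro x hx
      rw [hB]
      by_contra h
      exact hx (List.formPerm_apply_of_notMem h)
    refine ⟨formPerm (a :: l) :: Θ, by simp [t1], ?_, ?_, ?_⟩
    · rw [List.pairwise_cons]
      refine ⟨?_, t2⟩
      intro θ hθ x
      by_contra hcon
      push Not at hcon
      exact hn'.2.2 x (hmem x hcon.1) x (t4 θ hθ x hcon.2) rfl
    · intro θ hθ
      rcases List.mem_cons.mp hθ with rfl | hθ
      · refine ⟨(valid_formPerm V hV a l hnB).mpr (by rw [← hB]; exact b1), ?_, ?_⟩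
        · rw [gain_formPerm w hw0 a l hnB, ← hB]; exact b2
        · rw [gain_formPerm w hw0 a l hnB, ← hB]; exact b3
      · exact t3 θ hθ
    · intro θ hθ x hx
      rw [List.flatten_cons]
      rcases List.mem_cons.mp hθ with rfl | hθ
      · exact List.mem_append_left _ (hmem x hx)
      · exact List.mem_append_right _ (t4 θ hθ x hx)

lemma process_flex (V : α → α → Prop) (hV : ∀ a, V a a) (w : α → α → ℤ)
    (hw0 : ∀ a, w a a = 0) (hw : ∀ a b, |w a b| ≤ 1) (β ν : ℝ) (hν : 0 ≤ ν) (Q q : ℕ) (H : ℤ)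
    (hlink : Linked V β ν Q) (zmax : ℝ) (hz : zmax ≤ β * (Fintype.card α : ℝ)) :
    ∀ (G : List (List α)) (Z : Finset α), (∀ B ∈ G, IsChain V B ∧
        Flex w ((Q : ℤ) + 2) H q B ∧ (q : ℝ) * (ν * zmax) < (B.length : ℝ)) →
      G.flatten.Nodup → (∀ x ∈ G.flatten, x ∈ Z) →
      (Z.card : ℝ) + (G.length : ℝ) * (Q : ℝ) ≤ zmax →
      ∃ Θ : List (Equiv.Perm α), Θ.length = G.length ∧ Θ.Pairwise Equiv.Perm.Disjoint ∧
        (∀ θ ∈ Θ, Valid V θ ∧ 1 ≤ gain w θ ∧ gain w θ ≤ H + (Q : ℤ) + 1) ∧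
        (∀ θ ∈ Θ, ∀ x, θ x ≠ x → x ∈ G.flatten ∨ x ∉ Z) := by
  intro G
  induction G with
  | nil =>
    intro Z _ _ _ _
    exact ⟨[], by simp, by simp, by simp, by simp⟩
  | cons B G ih =>
    intro Z hG hn hsub hcard
    have hQ0 : (0 : ℝ) ≤ (Q : ℝ) := Nat.cast_nonneg Q
    have hG0 : (0 : ℝ) ≤ (G.length : ℝ) := Nat.cast_nonneg _
    have hcard1 : (Z.card : ℝ) ≤ zmax := by
      have : (0 : ℝ) ≤ ((B :: G).length : ℝ) * (Q : ℝ) := by positivity
      linarith
    obtain ⟨hBc, hBf, hBl⟩ := hG B List.mem_cons_self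
    rw [List.flatten_cons] at hn hsub
    have hn' := List.nodup_append.mp hn
    have hBZ : ∀ x ∈ B, x ∈ Z := fun x hx => hsub x (List.mem_append_left _ hx)
    have hGZ : ∀ x ∈ G.flatten, x ∈ Z := fun x hx => hsub x (List.mem_append_right _ hx)
    have hZ0 : (0 : ℝ) ≤ (Z.card : ℝ) := Nat.cast_nonneg _
    have hBne : B ≠ [] := by
      rintro rfl
      have : (0 : ℝ) ≤ (q : ℝ) * (ν * zmax) := by
        have : (0 : ℝ) ≤ (q : ℝ) := Nat.cast_nonneg _
        have : 0 ≤ zmax := hZ0.trans hcard1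
        positivity
      simp only [List.length_nil, Nat.cast_zero] at hBl
      linarith
    have hZne : Z.Nonempty := by
      obtain ⟨x, hx⟩ := List.exists_mem_of_ne_nil B hBne
      exact ⟨x, hBZ x hx⟩
    obtain ⟨W, W1, W2⟩ := hlink Z hZne (hcard1.trans hz)
    have hWq : q * W.card < B.length := by
      have h1 : (q : ℝ) * (W.card : ℝ) ≤ (q : ℝ) * (ν * zmax) := by
        apply mul_le_mul_of_nonneg_left _ (Nat.cast_nonneg _)
        exact W1.trans (mul_le_mul_of_nonneg_left hcard1 hν)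
      have h2 : ((q * W.card : ℕ) : ℝ) < (B.length : ℝ) := by push_cast; linarith
      exact_mod_cast h2
    obtain ⟨s, a, b, s1, s2, hs, hs1, hs2, haW, hbW, g1, g2⟩ := hBf W hWq
    obtain ⟨m, m1, m2, m3, m4⟩ := W2 a b haW hbW
    have hsB : ∀ x ∈ s, x ∈ B := fun x hx => hs.subset hx
    have hsn : s.Nodup := hn'.1.sublist hs.sublist
    have hsc : IsChain V s := by
      obtain ⟨u, v, huv⟩ := hs
      have hBc' := hBc
      rw [← huv] at hBc'
      exact hBc'.left_of_append.right_of_append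
    have e1 : a :: (s1 ++ m) = s ++ m := by rw [hs1]; simp
    have e2 : (a :: (s1 ++ m)) ++ [a] = s2 ++ b :: (m ++ [a]) := by
      rw [e1, hs2]; simp
    have hnod : (a :: (s1 ++ m)).Nodup := by
      rw [e1, List.nodup_append]
      refine ⟨hsn, m1, ?_⟩
      rintro x hx y hy rfl
      exact m2 x hy (hBZ x (hsB x hx))
    have hch : IsChain V ((a :: (s1 ++ m)) ++ [a]) := by
      rw [e2]
      have h5 : IsChain V (s2 ++ [b]) := by rw [← hs2]; exact hsc
      have h6 : IsChain V ([b] ++ (m ++ [a])) := by simpa using m3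
      have h7 := h5.append_overlap h6 (by simp)
      simpa using h7
    have hpw : pw w ((a :: (s1 ++ m)) ++ [a]) = pw w s + pw w (b :: (m ++ [a])) := by
      rw [e2, pw_overlap, ← hs2]
    have hab := pw_abs_le w hw (m ++ [a]) b
    rw [List.length_append, List.length_singleton] at hab
    have hmQ : ((m.length + 1 : ℕ) : ℤ) ≤ (Q : ℤ) + 1 := by
      push_cast
      have : (m.length : ℤ) ≤ (Q : ℤ) := by exact_mod_cast m4
      linarith
    rw [abs_le] at hab
    have hmem : ∀ x, formPerm (a :: (s1 ++ m)) x ≠ x → x ∈ B ∨ x ∈ m := by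
      intro x hx
      have h1 : x ∈ a :: (s1 ++ m) := by
        by_contra h
        exact hx (List.formPerm_apply_of_notMem h)
      rw [e1] at h1
      rcases List.mem_append.mp h1 with h2 | h2
      · left; exact hsB x h2
      · right; exact h2
    have hcard2 : (((Z ∪ m.toFinset).card : ℕ) : ℝ) ≤ (Z.card : ℝ) + (Q : ℝ) := by
      have h1 := Finset.card_union_le Z m.toFinset
      have h2 := List.toFinset_card_le m
      have h3 : (Z ∪ m.toFinset).card ≤ Z.card + Q := by omega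
      exact_mod_cast h3
    obtain ⟨Θ, t1, t2, t3, t4⟩ := ih (Z ∪ m.toFinset)
      (fun B' hB' => hG B' (List.mem_cons_of_mem _ hB')) hn'.2.1
      (fun x hx => Finset.mem_union_left _ (hGZ x hx)) (by
        have : ((B :: G).length : ℝ) = (G.length : ℝ) + 1 := by
          push_cast [List.length_cons]; ring
        rw [this] at hcard
        nlinarith)
    refine ⟨formPerm (a :: (s1 ++ m)) :: Θ, by simp [t1], ?_, ?_, ?_⟩
    · rw [List.pairwise_cons]
      refine ⟨?_, t2⟩
      intro θ hθ x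
      by_contra hcon
      push Not at hcon
      rcases hmem x hcon.1 with h1 | h1
      · rcases t4 θ hθ x hcon.2 with h2 | h2
        · exact hn'.2.2 x h1 x h2 rfl
        · exact h2 (Finset.mem_union_left _ (hBZ x h1))
      · rcases t4 θ hθ x hcon.2 with h2 | h2
        · exact m2 x h1 (hGZ x h2)
        · exact h2 (Finset.mem_union_right _ (List.mem_toFinset.mpr h1))
    · intro θ hθ
      rcases List.mem_cons.mp hθ with rfl | hθ
      · refine ⟨(valid_formPerm V hV a (s1 ++ m) hnod).mpr hch, ?_, ?_⟩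
        · rw [gain_formPerm w hw0 a (s1 ++ m) hnod, hpw]; linarith [hab.1]
        · rw [gain_formPerm w hw0 a (s1 ++ m) hnod, hpw]; linarith [hab.2]
      · exact t3 θ hθ
    · intro θ hθ x hx
      rw [List.flatten_cons]
      rcases List.mem_cons.mp hθ with rfl | hθ
      · rcases hmem x hx with h1 | h1
        · left; exact List.mem_append_left _ h1
        · right; exact m2 x h1
      · rcases t4 θ hθ x hx with h1 | h1
        · left; exact List.mem_append_right _ h1
        · right; exact fun h => h1 (Finset.mem_union_left _ h)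

/-- From many disjoint permutations of bounded positive gain to one of prescribed gain. -/
lemma finish (V : α → α → Prop) (hV : ∀ a, V a a) (w : α → α → ℤ) (hw0 : ∀ a, w a a = 0)
    (N P : ℕ) (hN : 0 < N) (hP : 0 < P) (hdv : ∀ v, 1 ≤ v → v ≤ N → v ∣ P)
    (Θ : List (Equiv.Perm α)) (hlen : Θ.length = N * P) (hd : Θ.Pairwise Equiv.Perm.Disjoint)
    (hΘ : ∀ θ ∈ Θ, Valid V θ ∧ 1 ≤ gain w θ ∧ gain w θ ≤ (N : ℤ)) :
    ∃ θ : Equiv.Perm α, Valid V θ ∧ gain w θ = (P : ℤ) := by
  have hpos : 0 < Θ.length := by rw [hlen]; exact Nat.mul_pos hN hP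
  obtain ⟨v, v1, v2, v3⟩ := pigeon (fun θ : Equiv.Perm α => (gain w θ).toNat) N P hP Θ (by
    intro θ hθ
    obtain ⟨_, h1, h2⟩ := hΘ θ hθ
    constructor
    · show 1 ≤ (gain w θ).toNat
      omega
    · show (gain w θ).toNat ≤ N
      omega) hpos (by omega)
  set Θv := Θ.filter (fun θ => decide ((gain w θ).toNat = v)) with hΘv
  have hdvd : v ∣ P := hdv v v1 v2
  have hsub : (Θv.take (P / v)) <+ Θ := (List.take_sublist _ _).trans List.filter_sublist
  obtain ⟨h1, h2⟩ := prod_gain V hV w hw0 (v : ℤ) (Θv.take (P / v)) (hd.sublist hsub) (by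
    intro θ hθ
    have h3 : θ ∈ Θv := (List.take_sublist _ _).subset hθ
    rw [hΘv, List.mem_filter] at h3
    obtain ⟨h4, h5, _⟩ := hΘ θ h3.1
    refine ⟨h4, ?_⟩
    have h6 : (gain w θ).toNat = v := by simpa using h3.2
    omega)
  refine ⟨(Θv.take (P / v)).prod, h1, ?_⟩
  rw [h2, List.length_take, Nat.min_eq_left ((Nat.div_le_self P v).trans v3)]
  exact_mod_cast Nat.div_mul_cancel hdvd

end ExPeriod
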