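import Mathlib
import Pool.Agent.H.MP_36be4a_lc.PX.Shift2

/-!
The shift theorem for linked digraphs, main part.
-/

namespace ExPeriod

open List

/-- Bound for the gains of the exchange cycles. -/
def NL (J Q : ℕ) : ℕ := 3 ^ J * (Q + 2) + Q + 1

/-- The period. -/
def PL (J Q : ℕ) : ℕ := (Finset.Icc 1 (NL J Q)).lcm id

/-- The number of disjoint exchange cycles that are needed. -/
def ML (J Q : ℕ) : ℕ := NL J Q * PL J Q

/-- The margin. -/
noncomputable def CL (J Q : ℕ) (β : ℝ) : ℕ :=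
  2 * (3 ^ J * (Q + 2) + 1) * (ML J Q + J * ((⌈2 / β⌉₊ + 1) * ML J Q)) +
    ⌈2 * ((ML J Q : ℝ) * (Q : ℝ)) / β⌉₊

lemma PL_pos (J Q : ℕ) : 0 < PL J Q := by
  rw [PL, Nat.pos_iff_ne_zero]
  intro h
  rw [Finset.lcm_eq_zero_iff] at h
  simp at h

lemma map_flatten_sublist {α : Type} (s : List α → List α) : ∀ F : List (List α),
    (∀ B ∈ F, s B <+ B) → (F.map s).flatten <+ F.flatten := by
  intro F
  induction F with
  | nil => intro _; simp
  | cons B F ih =>
    intro h
    rw [List.map_cons, List.flatten_cons, List.flatten_cons]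
    exact (h B List.mem_cons_self).append (ih (fun B' hB' => h B' (List.mem_cons_of_mem _ hB')))

lemma flatten_length_le {α : Type} (L : ℕ) : ∀ G : List (List α),
    (∀ B ∈ G, B.length ≤ L) → G.flatten.length ≤ G.length * L := by
  intro G
  induction G with
  | nil => intro _; simp
  | cons B G ih =>
    intro h
    rw [List.flatten_cons, List.length_append, List.length_cons]
    have h1 := h B List.mem_cons_self
    have h2 := ih (fun B' hB' => h B' (List.mem_cons_of_mem _ hB'))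
    nlinarith

lemma mem_flatten_sublist {α : Type} (B : List α) : ∀ F : List (List α), B ∈ F →
    B <+ F.flatten := by
  intro F
  induction F with
  | nil => intro h; simp at h
  | cons A F ih =>
    intro h
    rw [List.flatten_cons]
    rcases List.mem_cons.mp h with rfl | h
    · exact List.sublist_append_left _ _
    · exact (ih h).trans (List.sublist_append_right _ _)

variable {α : Type} [Fintype α] [DecidableEq α]

theorem shift_linked (J Q q : ℕ) (hJ : 0 < J) (β ν : ℝ) (hβ : 0 < β) (hν : 0 ≤ ν)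
    (V : α → α → Prop) (w : α → α → ℤ) (hV : ∀ a, V a a) (hw0 : ∀ a, w a a = 0)
    (hw : ∀ a b, |w a b| ≤ 1) (hlink : Linked V β ν Q) (hq : Fintype.card α < q ^ J)
    (hcond : ν * q * ((ML J Q : ℝ) * q + (ML J Q : ℝ) * Q) < 1)
    (π : Equiv.Perm α) (hπ : Valid V π) (hgain : (CL J Q β : ℤ) ≤ gain w π) :
    ∃ θ : Equiv.Perm α, Valid V θ ∧ gain w θ = (PL J Q : ℤ) := by
  classical
  have hPpos : 0 < PL J Q := PL_pos J Q
  have hdv : ∀ v, 1 ≤ v → v ≤ NL J Q → v ∣ PL J Q := by
    intro v h1 h2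
    exact Finset.dvd_lcm (f := id) (Finset.mem_Icc.mpr ⟨h1, h2⟩)
  have hNpos : 0 < NL J Q := by unfold NL; omega
  have hMdef : ML J Q = NL J Q * PL J Q := rfl
  have hC : CL J Q β = 2 * (3 ^ J * (Q + 2) + 1) * (ML J Q + J * ((⌈2 / β⌉₊ + 1) * ML J Q)) +
    ⌈2 * ((ML J Q : ℝ) * (Q : ℝ)) / β⌉₊ := rfl
  have hNdef : NL J Q = 3 ^ J * (Q + 2) + Q + 1 := rfl
  have hMpos : 0 < ML J Q := by rw [hMdef]; exact Nat.mul_pos hNpos hPpos
  generalize PL J Q = P at *
  generalize hKd : ⌈2 / β⌉₊ + 1 = K at *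
  generalize NL J Q = N at *
  generalize ML J Q = m0 at *
  generalize CL J Q β = C at *
  have hw1 : ∀ a b, w a b ≤ 1 := fun a b => (abs_le.mp (hw a b)).2
  have h3J : (1 : ℤ) ≤ 3 ^ J := one_le_pow₀ (by norm_num)
  have hQ0 : (0 : ℤ) ≤ (Q : ℤ) := Int.natCast_nonneg Q
  have hH1 : (1 : ℤ) ≤ 3 ^ J * ((Q : ℤ) + 2) := by nlinarith
  obtain ⟨F, f1, f2, f3⟩ := family V hV w hw0 hw1 (3 ^ J * ((Q : ℤ) + 2)) hH1 π hπ
  have hFlen : m0 + J * (K * m0) ≤ F.length := by
    have h0 : ((2 * (3 ^ J * (Q + 2) + 1) * (m0 + J * (K * m0)) : ℕ) : ℤ) ≤ (C : ℤ) := by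
      rw [hC]; push_cast
      have : (0 : ℤ) ≤ ((⌈2 * ((m0 : ℝ) * (Q : ℝ)) / β⌉₊ : ℕ) : ℤ) := Int.natCast_nonneg _
      linarith
    have h2 : (2 * (3 ^ J * ((Q : ℤ) + 2) + 1)) * ((m0 + J * (K * m0) : ℕ) : ℤ) ≤
        (2 * (3 ^ J * ((Q : ℤ) + 2) + 1)) * (F.length : ℤ) := by
      push_cast at h0 ⊢
      linarith
    have h3 := le_of_mul_le_mul_left h2 (by linarith)
    exact_mod_cast h3
  set isC : List α → Prop := fun B => ∃ a l, B = a :: l ∧ IsChain V (B ++ [a]) ∧
    1 ≤ pw w (B ++ [a]) ∧ pw w (B ++ [a]) ≤ 3 ^ J * ((Q : ℤ) + 2) + 1 with hisC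
  have hsplit := List.length_eq_length_filter_add (l := F) (fun B => decide (isC B))
  by_cases hcase : m0 ≤ (F.filter (fun B => decide (isC B))).length
  · set G := (F.filter (fun B => decide (isC B))).take m0 with hG
    have hGF : G <+ F := (List.take_sublist _ _).trans List.filter_sublist
    have hGl : G.length = m0 := by rw [hG, List.length_take]; omega
    obtain ⟨Θ, t1, t2, t3, _⟩ := process_closed V hV w hw0 (3 ^ J * ((Q : ℤ) + 2) + 1) G (by
      intro B hB
      have h1 : B ∈ F.filter (fun B => decide (isC B)) := (List.take_sublist _ _).subset hB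
      rw [List.mem_filter] at h1
      exact of_decide_eq_true h1.2) (f2.sublist hGF.flatten)
    refine finish V hV w hw0 N P hNpos hPpos hdv Θ (by rw [t1, hGl, hMdef]) t2 ?_
    intro θ hθ
    obtain ⟨h1, h2, h3⟩ := t3 θ hθ
    refine ⟨h1, h2, h3.trans ?_⟩
    rw [hNdef]; push_cast; linarith
  · push Not at hcase
    set F2 := F.filter (fun B => !decide (isC B)) with hF2
    have hF2len : J * (K * m0) ≤ F2.length := by omega
    have hF2F : F2 <+ F := List.filter_sublist
    have hF2n : F2.flatten.Nodup := f2.sublist hF2F.flatten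
    have hF2good : ∀ B ∈ F2, IsChain V B ∧ pw w B = 3 ^ J * ((Q : ℤ) + 2) := by
      intro B hB
      have h1 := f1 B (hF2F.subset hB)
      rw [hF2, List.mem_filter] at hB
      have h2 : ¬ isC B := by simpa using hB.2
      obtain ⟨a, l, h3, h4 | h4⟩ := h1
      · exact h4
      · exact absurd ⟨a, l, h3, h4⟩ h2
    have hF2nod : ∀ B ∈ F2, B.Nodup := fun B hB => hF2n.sublist (mem_flatten_sublist B F2 hB)
    have hex : ∀ B ∈ F2, ∃ s, s <:+: B ∧ s ≠ [] ∧
        Flex w ((Q : ℤ) + 2) (3 ^ J * ((Q : ℤ) + 2)) q s := by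
      intro B hB
      have h1 := (hF2nod B hB).length_le_card
      exact flex_exists w hw1 ((Q : ℤ) + 2) (by linarith) q J B (hF2nod B hB) (hF2good B hB).2
        (lt_of_le_of_lt h1 hq)
    set s : List α → List α := fun B => if h : ∃ s, s <:+: B ∧ s ≠ [] ∧
        Flex w ((Q : ℤ) + 2) (3 ^ J * ((Q : ℤ) + 2)) q s then h.choose else [] with hs
    have hsp : ∀ B ∈ F2, s B <:+: B ∧ s B ≠ [] ∧
        Flex w ((Q : ℤ) + 2) (3 ^ J * ((Q : ℤ) + 2)) q (s B) := by
      intro B hB
      have h1 := hex B hB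
      have h2 : s B = h1.choose := by rw [hs]; exact dif_pos h1
      rw [h2]
      exact h1.choose_spec
    set F3 := F2.map s with hF3
    have hF3sub : F3.flatten <+ F2.flatten :=
      map_flatten_sublist s F2 (fun B hB => (hsp B hB).1.sublist)
    have hF3n : F3.flatten.Nodup := hF2n.sublist hF3sub
    have hF3len : F3.length = F2.length := by rw [hF3, List.length_map]
    have hF3p : ∀ S ∈ F3, IsChain V S ∧ S ≠ [] ∧
        Flex w ((Q : ℤ) + 2) (3 ^ J * ((Q : ℤ) + 2)) q S := by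
      intro S hS
      rw [hF3, List.mem_map] at hS
      obtain ⟨B, hB, rfl⟩ := hS
      obtain ⟨h1, h2, h3⟩ := hsp B hB
      refine ⟨?_, h2, h3⟩
      obtain ⟨u, v, huv⟩ := h1
      have h4 := (hF2good B hB).1
      rw [← huv] at h4
      exact h4.left_of_append.right_of_append
    have hF3nod : ∀ S ∈ F3, S.Nodup := fun S hS => hF3n.sublist (mem_flatten_sublist S F3 hS)
    have hKpos : 0 < K := by omega
    have hKm : 0 < K * m0 := Nat.mul_pos hKpos hMpos
    have hF3pos : 0 < F3.length := by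
      have := Nat.mul_pos hJ hKm
      omega
    obtain ⟨v, v1, v2, v3⟩ := pigeon (fun S : List α => Nat.log q S.length + 1) J (K * m0) hKm F3
      (by
        intro S hS
        refine ⟨Nat.succ_le_succ (Nat.zero_le _), ?_⟩
        have h1 := (hF3nod S hS).length_le_card
        have h2 : S.length ≠ 0 := fun h => (hF3p S hS).2.1 (List.length_eq_zero_iff.mp h)
        have h3 := Nat.log_lt_of_lt_pow h2 (lt_of_le_of_lt h1 hq)
        show Nat.log q S.length + 1 ≤ J
        omega) hF3pos (by omega)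
    obtain ⟨G, g1, g2, g3⟩ := chunk m0 K (by omega)
      (F3.filter (fun S => decide (Nat.log q S.length + 1 = v))) v3
    have hGF3 : G <+ F3 := g1.trans List.filter_sublist
    have hGn : G.flatten.Nodup := hF3n.sublist hGF3.flatten
    have hGv : ∀ S ∈ G, Nat.log q S.length + 1 = v := by
      intro S hS
      have h1 := g1.subset hS
      rw [List.mem_filter] at h1
      simpa using h1.2
    have hGne : ∀ S ∈ G, S.length ≠ 0 := fun S hS h =>
      (hF3p S (hGF3.subset hS)).2.1 (List.length_eq_zero_iff.mp h)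
    have hcard1 : 1 ≤ Fintype.card α := by
      obtain ⟨S, hS⟩ := List.exists_mem_of_length_pos hF3pos
      have h1 := (hF3nod S hS).length_le_card
      have h2 : S.length ≠ 0 := fun h => (hF3p S hS).2.1 (List.length_eq_zero_iff.mp h)
      omega
    have hq1 : 1 < q := by
      by_contra hcon
      have : q ≤ 1 := by omega
      have h2 : q ^ J ≤ 1 ^ J := Nat.pow_le_pow_left this J
      rw [one_pow] at h2
      omega
    obtain ⟨j, rfl⟩ : ∃ j, v = j + 1 := ⟨v - 1, by omega⟩
    have hup : ∀ S ∈ G, S.length < q ^ (j + 1) := by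
      intro S hS
      have h1 := hGv S hS
      have h2 := Nat.lt_pow_succ_log_self hq1 S.length
      have h3 : Nat.log q S.length = j := by omega
      rwa [h3] at h2
    have hlo : ∀ S ∈ G, q ^ j ≤ S.length := by
      intro S hS
      have h1 := hGv S hS
      have h2 := Nat.pow_log_le_self q (hGne S hS)
      have h3 : Nat.log q S.length = j := by omega
      rwa [h3] at h2
    have hfl : G.flatten.length ≤ m0 * q ^ (j + 1) := by
      have h1 := flatten_length_le (q ^ (j + 1)) G (fun S hS => (hup S hS).le)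
      rwa [g2] at h1
    set Z0 := G.flatten.toFinset with hZ0
    have hZ0le : Z0.card ≤ G.flatten.length := List.toFinset_card_le _
    have hn : (C : ℤ) ≤ (Fintype.card α : ℤ) := hgain.trans (gain_le_card w hw π)
    have hnC : (C : ℝ) ≤ (Fintype.card α : ℝ) := by exact_mod_cast hn
    have hmQ : (m0 : ℝ) * (Q : ℝ) ≤ β * (Fintype.card α : ℝ) / 2 := by
      have h1 := Nat.le_ceil (2 * ((m0 : ℝ) * (Q : ℝ)) / β)
      have h2 : 2 * ((m0 : ℝ) * (Q : ℝ)) / β ≤ (C : ℝ) := by
        rw [hC]; push_cast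
        have h3 : (0 : ℝ) ≤ 2 * (3 ^ J * ((Q : ℝ) + 2) + 1) * ((m0 : ℝ) + (J : ℝ) *
          ((K : ℝ) * (m0 : ℝ))) := by positivity
        linarith
      have h3 := h2.trans hnC
      rw [div_le_iff₀ hβ] at h3
      linarith
    have hZb : (Z0.card : ℝ) ≤ β * (Fintype.card α : ℝ) / 2 := by
      have h2 : (F3.filter (fun S => decide (Nat.log q S.length + 1 = j + 1))).flatten.length ≤
          Fintype.card α :=
        (hF3n.sublist List.filter_sublist.flatten).length_le_card
      have h3 : K * Z0.card ≤ Fintype.card α :=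
        (Nat.mul_le_mul_left K hZ0le).trans (g3.trans h2)
      have h4 : (K : ℝ) * (Z0.card : ℝ) ≤ (Fintype.card α : ℝ) := by exact_mod_cast h3
      have h5 : 2 / β ≤ (K : ℝ) := by
        rw [← hKd]; push_cast
        have := Nat.le_ceil (2 / β)
        linarith
      have h6 : 2 / β * (Z0.card : ℝ) ≤ (Fintype.card α : ℝ) :=
        (mul_le_mul_of_nonneg_right h5 (Nat.cast_nonneg _)).trans h4
      rw [div_mul_eq_mul_div, div_le_iff₀ hβ] at h6
      linarith
    have hZq : (Z0.card : ℝ) ≤ (m0 : ℝ) * (q : ℝ) ^ (j + 1) := by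
      have := hZ0le.trans hfl
      exact_mod_cast this
    have hqj : (1 : ℝ) ≤ (q : ℝ) ^ j := by
      apply one_le_pow₀
      exact_mod_cast hq1.le
    have hsmall : (q : ℝ) * (ν * ((Z0.card : ℝ) + (m0 : ℝ) * (Q : ℝ))) < (q : ℝ) ^ j := by
      have h1 : (Z0.card : ℝ) + (m0 : ℝ) * (Q : ℝ) ≤
          (q : ℝ) ^ j * ((m0 : ℝ) * q + (m0 : ℝ) * Q) := by
        have h2 : (m0 : ℝ) * (Q : ℝ) ≤ (q : ℝ) ^ j * ((m0 : ℝ) * Q) := by
          have : (0 : ℝ) ≤ (m0 : ℝ) * (Q : ℝ) := by positivity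
          nlinarith
        have h3 : (m0 : ℝ) * (q : ℝ) ^ (j + 1) = (q : ℝ) ^ j * ((m0 : ℝ) * q) := by ring
        rw [h3] at hZq
        linarith
      have h2 : (0 : ℝ) ≤ (q : ℝ) * ν := by positivity
      calc (q : ℝ) * (ν * ((Z0.card : ℝ) + (m0 : ℝ) * (Q : ℝ))) =
            ((q : ℝ) * ν) * ((Z0.card : ℝ) + (m0 : ℝ) * (Q : ℝ)) := by ring
        _ ≤ ((q : ℝ) * ν) * ((q : ℝ) ^ j * ((m0 : ℝ) * q + (m0 : ℝ) * Q)) :=
            mul_le_mul_of_nonneg_left h1 h2
        _ = (q : ℝ) ^ j * (ν * q * ((m0 : ℝ) * q + (m0 : ℝ) * Q)) := by ring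
        _ < (q : ℝ) ^ j * 1 := by
            apply mul_lt_mul_of_pos_left hcond
            linarith
        _ = (q : ℝ) ^ j := mul_one _
    obtain ⟨Θ, t1, t2, t3, _⟩ := process_flex V hV w hw0 hw β ν hν Q q
      (3 ^ J * ((Q : ℤ) + 2)) hlink ((Z0.card : ℝ) + (m0 : ℝ) * (Q : ℝ)) (by linarith) G Z0
      (by
        intro S hS
        obtain ⟨h1, _, h3⟩ := hF3p S (hGF3.subset hS)
        refine ⟨h1, h3, lt_of_lt_of_le hsmall ?_⟩
        exact_mod_cast hlo S hS) hGn (fun x hx => List.mem_toFinset.mpr hx) (by rw [g2])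
    refine finish V hV w hw0 N P hNpos hPpos hdv Θ (by rw [t1, g2, hMdef]) t2 ?_
    intro θ hθ
    obtain ⟨h1, h2, h3⟩ := t3 θ hθ
    refine ⟨h1, h2, h3.trans ?_⟩
    rw [hNdef]; push_cast; linarith

end ExPeriod
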