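import Mathlib
import Pool.Agent.H.MP_36be4a_lc.PX.Shift3

/-!
Local sparsity, minimum degree and absence of large holes imply that exchange digraphs are
linked.
-/

namespace ExPeriod

open Finset

variable {α : Type} [Fintype α] [DecidableEq α]

open Classical in
/-- Number of out-neighbours of `b` in `U`. -/
noncomputable def odeg (D : α → α → Prop) (b : α) (U : Finset α) : ℕ := (U.filter (D b)).card

/-- Out-degrees at least `d`, and no set `W` of at least `ν |U|` vertices sends half of its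
degree into a set `U` of size at most `β n`. -/
def OutSparse (D : α → α → Prop) (β ν d : ℝ) : Prop :=
  (∀ b, d ≤ (odeg D b univ : ℝ)) ∧ ∀ W U : Finset α, W.Nonempty →
    (U.card : ℝ) ≤ β * (Fintype.card α : ℝ) → ν * (U.card : ℝ) ≤ (W.card : ℝ) →
      ∑ i ∈ W, (odeg D i U : ℝ) < d / 2 * (W.card : ℝ)

lemma odeg_mono (D : α → α → Prop) (b : α) (U U' : Finset α) (h : U ⊆ U') :
    odeg D b U ≤ odeg D b U' := by
  classical
  exact Finset.card_le_card (Finset.filter_subset_filter _ h)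

lemma odeg_split (D : α → α → Prop) (b : α) (U : Finset α) :
    odeg D b univ = odeg D b U + odeg D b (univ \ U) := by
  classical
  unfold odeg
  rw [← Finset.card_union_of_disjoint]
  · congr 1
    ext j
    simp only [Finset.mem_filter, Finset.mem_univ, true_and, Finset.mem_union, Finset.mem_sdiff]
    tauto
  · rw [Finset.disjoint_left]
    intro j h1 h2
    simp only [Finset.mem_filter, Finset.mem_univ, true_and, Finset.mem_sdiff] at h1 h2
    exact h2.1 h1.1

lemma bad_out (D : α → α → Prop) (β ν d : ℝ) (hν0 : 0 ≤ ν) (hν : ν ≤ 1 / 4) (hD : OutSparse D β ν d)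
    (Z : Finset α) (hZne : Z.Nonempty) (hZ : (Z.card : ℝ) ≤ β / 2 * (Fintype.card α : ℝ)) :
    ∃ W : Finset α, (W.card : ℝ) ≤ 2 * ν * (Z.card : ℝ) ∧
      ∀ b, b ∉ W → d / 2 ≤ (odeg D b (univ \ (Z ∪ W)) : ℝ) := by
  classical
  have hZ1 : 1 ≤ Z.card := Finset.card_pos.mpr hZne
  set Fam : Finset (Finset α) := univ.filter (fun W => W.card ≤ Z.card ∧
    d / 2 * (W.card : ℝ) ≤ ∑ i ∈ W, (odeg D i (Z ∪ W) : ℝ)) with hFam
  have hFne : Fam.Nonempty := ⟨∅, by rw [hFam, Finset.mem_filter]; simp⟩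
  obtain ⟨W, hW, hmax⟩ := Finset.exists_max_image Fam (fun W => W.card) hFne
  rw [hFam, Finset.mem_filter] at hW
  obtain ⟨_, w1, w2⟩ := hW
  have hWZ : (W.card : ℝ) ≤ (Z.card : ℝ) := by exact_mod_cast w1
  have hcardU : ((Z ∪ W).card : ℝ) ≤ 2 * (Z.card : ℝ) := by
    have h1 : (Z ∪ W).card ≤ Z.card + W.card := Finset.card_union_le _ _
    have h2 : ((Z ∪ W).card : ℝ) ≤ (Z.card : ℝ) + (W.card : ℝ) := by exact_mod_cast h1
    linarith
  have hWs : (W.card : ℝ) ≤ 2 * ν * (Z.card : ℝ) ∨ W = ∅ := by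
    rcases W.eq_empty_or_nonempty with h | h
    · right; exact h
    · left
      by_contra hcon
      push Not at hcon
      have hνnn : ν * ((Z ∪ W).card : ℝ) ≤ (W.card : ℝ) := by nlinarith
      have h3 := hD.2 W (Z ∪ W) h (by linarith) hνnn
      linarith
  have hWh : W.card + 1 ≤ Z.card := by
    rcases hWs with h | h
    · have h1 : (W.card : ℝ) ≤ (Z.card : ℝ) / 2 := by
        have : (0 : ℝ) ≤ (Z.card : ℝ) := Nat.cast_nonneg _
        nlinarith
      have h2 : ((2 * W.card : ℕ) : ℝ) ≤ (Z.card : ℝ) := by push_cast; linarith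
      have h3 : 2 * W.card ≤ Z.card := by exact_mod_cast h2
      omega
    · rw [h]; simpa using hZ1
  have hkey : ∀ b, b ∉ W → d / 2 ≤ (odeg D b (univ \ (Z ∪ W)) : ℝ) := by
    intro b hb
    by_contra hcon
    push Not at hcon
    have h1 := hD.1 b
    have h2 := odeg_split D b (Z ∪ W)
    have h3 : (odeg D b univ : ℝ) = (odeg D b (Z ∪ W) : ℝ) + (odeg D b (univ \ (Z ∪ W)) : ℝ) := by
      exact_mod_cast h2
    have h4 : d / 2 ≤ (odeg D b (Z ∪ W) : ℝ) := by linarith
    have h5 : insert b W ∈ Fam := by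
      rw [hFam, Finset.mem_filter]
      refine ⟨Finset.mem_univ _, ?_, ?_⟩
      · rw [Finset.card_insert_of_notMem hb]; exact hWh
      · rw [Finset.card_insert_of_notMem hb, Finset.sum_insert hb]
        have h6 : ∀ i, (odeg D i (Z ∪ W) : ℝ) ≤ (odeg D i (Z ∪ insert b W) : ℝ) := by
          intro i
          have := odeg_mono D i (Z ∪ W) (Z ∪ insert b W)
            (Finset.union_subset_union_right (Finset.subset_insert _ _))
          exact_mod_cast this
        have h7 : ∑ i ∈ W, (odeg D i (Z ∪ W) : ℝ) ≤ ∑ i ∈ W, (odeg D i (Z ∪ insert b W) : ℝ) :=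
          Finset.sum_le_sum (fun i _ => h6 i)
        have h8 := h6 b
        push_cast
        linarith
    have h6 := hmax _ h5
    rw [Finset.card_insert_of_notMem hb] at h6
    omega
  rcases hWs with h | h
  · exact ⟨W, h, hkey⟩
  · refine ⟨W, ?_, hkey⟩
    rw [h]
    simp only [Finset.card_empty, Nat.cast_zero]
    have : (0 : ℝ) ≤ (Z.card : ℝ) := Nat.cast_nonneg _
    positivity

/-- Layers of a breadth first search outside `U`. -/
noncomputable def layer (D : α → α → Prop) (U : Finset α) (b : α) : ℕ → Finset α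
  | 0 => {b}
  | t + 1 => nb D (layer D U b t) \ U

lemma layer_step (D : α → α → Prop) (β ν d : ℝ) (hD : OutSparse D β ν d) (Z W : Finset α) (b : α)
    (hb : b ∉ W) (hkey : ∀ x, x ∉ W → d / 2 ≤ (odeg D x (univ \ (Z ∪ W)) : ℝ)) (t : ℕ)
    (hne : (layer D (Z ∪ W) b t).Nonempty)
    (hs : ((layer D (Z ∪ W) b (t + 1)).card : ℝ) ≤ β * (Fintype.card α : ℝ)) :
    ((layer D (Z ∪ W) b t).card : ℝ) < ν * ((layer D (Z ∪ W) b (t + 1)).card : ℝ) := by
  classical
  by_contra hcon
  push Not at hcon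
  have h1 := hD.2 _ _ hne hs hcon
  have h2 : ∀ x ∈ layer D (Z ∪ W) b t, x ∉ W := by
    intro x hx
    cases t with
    | zero =>
      rw [layer, Finset.mem_singleton] at hx
      rw [hx]; exact hb
    | succ t =>
      rw [layer, Finset.mem_sdiff] at hx
      exact fun h => hx.2 (Finset.mem_union_right _ h)
  have h3 : ∀ x ∈ layer D (Z ∪ W) b t,
      d / 2 ≤ (odeg D x (layer D (Z ∪ W) b (t + 1)) : ℝ) := by
    intro x hx
    refine (hkey x (h2 x hx)).trans ?_
    have h4 : odeg D x (univ \ (Z ∪ W)) ≤ odeg D x (layer D (Z ∪ W) b (t + 1)) := by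
      unfold odeg
      apply Finset.card_le_card
      intro j hj
      rw [Finset.mem_filter, Finset.mem_sdiff] at hj
      rw [Finset.mem_filter, layer, Finset.mem_sdiff, mem_nb]
      exact ⟨⟨⟨x, hx, hj.2⟩, hj.1.2⟩, hj.2⟩
    exact_mod_cast h4
  have h4 : d / 2 * ((layer D (Z ∪ W) b t).card : ℝ) ≤
      ∑ i ∈ layer D (Z ∪ W) b t, (odeg D i (layer D (Z ∪ W) b (t + 1)) : ℝ) := by
    calc d / 2 * ((layer D (Z ∪ W) b t).card : ℝ) = ∑ _i ∈ layer D (Z ∪ W) b t, d / 2 := by
          rw [Finset.sum_const, nsmul_eq_mul]; ring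
      _ ≤ _ := Finset.sum_le_sum h3
  linarith

lemma layer_large (D : α → α → Prop) (β ν d : ℝ) (hβ : 0 ≤ β) (hν0 : 0 < ν) (hν : ν ≤ 1 / 4)
    (hD : OutSparse D β ν d) (Z W : Finset α) (b : α)
    (hb : b ∉ W) (hkey : ∀ x, x ∉ W → d / 2 ≤ (odeg D x (univ \ (Z ∪ W)) : ℝ)) (T : ℕ)
    (hT : ν ^ T * (Fintype.card α : ℝ) < 1) :
    β * (Fintype.card α : ℝ) < ((layer D (Z ∪ W) b T).card : ℝ) := by
  classical
  have key : ∀ t, (layer D (Z ∪ W) b t).Nonempty ∧
      (((layer D (Z ∪ W) b t).card : ℝ) ≤ β * (Fintype.card α : ℝ) →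
        1 ≤ ν ^ t * ((layer D (Z ∪ W) b t).card : ℝ)) := by
    intro t
    induction t with
    | zero =>
      refine ⟨by rw [layer]; exact Finset.singleton_nonempty b, fun _ => ?_⟩
      rw [layer]; simp
    | succ t ih =>
      have hstep := layer_step D β ν d hD Z W b hb hkey t ih.1
      have hpos : (0 : ℝ) < ((layer D (Z ∪ W) b t).card : ℝ) := by
        have := Finset.card_pos.mpr ih.1
        exact_mod_cast this
      constructor
      · rw [← Finset.card_pos]
        by_contra hcon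
        have h0 : (layer D (Z ∪ W) b (t + 1)).card = 0 := by omega
        have h1 := hstep (by
          rw [h0]
          simp only [Nat.cast_zero]
          positivity)
        rw [h0] at h1
        simp only [Nat.cast_zero, mul_zero] at h1
        linarith
      · intro hs
        have h1 := hstep hs
        have h2 : ((layer D (Z ∪ W) b t).card : ℝ) ≤ β * (Fintype.card α : ℝ) := by
          have : (0 : ℝ) ≤ ((layer D (Z ∪ W) b (t + 1)).card : ℝ) := Nat.cast_nonneg _
          nlinarith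
        have h3 := ih.2 h2
        have h4 : (0 : ℝ) < ν ^ t := by positivity
        calc (1 : ℝ) ≤ ν ^ t * ((layer D (Z ∪ W) b t).card : ℝ) := h3
          _ ≤ ν ^ t * (ν * ((layer D (Z ∪ W) b (t + 1)).card : ℝ)) :=
              mul_le_mul_of_nonneg_left h1.le h4.le
          _ = ν ^ (t + 1) * ((layer D (Z ∪ W) b (t + 1)).card : ℝ) := by ring
  by_contra hcon
  push Not at hcon
  have h1 := (key T).2 hcon
  have h2 : ((layer D (Z ∪ W) b T).card : ℝ) ≤ (Fintype.card α : ℝ) := by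
    exact_mod_cast Finset.card_le_univ _
  have h3 : (0 : ℝ) < ν ^ T := by positivity
  nlinarith

lemma layer_reach (V : α → α → Prop) (Z W : Finset α) (b : α) : ∀ t : ℕ,
    layer V (Z ∪ W) b t ⊆ insert b (reach V Z b t) := by
  classical
  intro t
  induction t with
  | zero =>
    intro x hx
    rw [layer, Finset.mem_singleton] at hx
    rw [hx]; exact Finset.mem_insert_self _ _
  | succ t ih =>
    intro x hx
    rw [layer, Finset.mem_sdiff, mem_nb] at hx
    obtain ⟨⟨y, hy, hV⟩, hxU⟩ := hx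
    apply Finset.mem_insert_of_mem
    rw [reach, Finset.mem_sdiff, mem_nb]
    exact ⟨⟨y, ih hy, hV⟩, fun h => hxU (Finset.mem_union_left _ h)⟩

lemma layer_back (V : α → α → Prop) (Z W : Finset α) (a b : α) : ∀ (t : ℕ) (y : α),
    y ∈ layer (fun i j => V j i) (Z ∪ W) a (t + 1) → ∀ s, y ∈ reach V Z b s →
      ∃ z ∈ reach V Z b (s + t), V z a := by
  classical
  intro t
  induction t with
  | zero =>
    intro y hy s hs
    rw [layer, Finset.mem_sdiff, mem_nb] at hy
    obtain ⟨⟨x, hx, hV⟩, _⟩ := hy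
    rw [layer, Finset.mem_singleton] at hx
    subst hx
    exact ⟨y, hs, hV⟩
  | succ t ih =>
    intro y hy s hs
    rw [layer, Finset.mem_sdiff, mem_nb] at hy
    obtain ⟨⟨x, hx, hV⟩, _⟩ := hy
    have hxZ : x ∉ Z := by
      rw [layer, Finset.mem_sdiff] at hx
      exact fun h => hx.2 (Finset.mem_union_left _ h)
    have h1 : x ∈ reach V Z b (s + 1) := by
      rw [reach, Finset.mem_sdiff, mem_nb]
      exact ⟨⟨y, Finset.mem_insert_of_mem hs, hV⟩, hxZ⟩
    obtain ⟨z, hz1, hz2⟩ := ih x hx (s + 1) h1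
    refine ⟨z, ?_, hz2⟩
    have e : s + (t + 1) = s + 1 + t := by omega
    rw [e]; exact hz1

theorem linked_of_sparse (V : α → α → Prop) (β ν d : ℝ) (hβ : 0 ≤ β) (hν0 : 0 < ν)
    (hν : ν ≤ 1 / 4) (h1 : OutSparse V β ν d) (h2 : OutSparse (fun i j => V j i) β ν d)
    (hhole : ∀ X Y : Finset α, β * (Fintype.card α : ℝ) < (X.card : ℝ) →
      β * (Fintype.card α : ℝ) < (Y.card : ℝ) → ∃ i ∈ X, ∃ j ∈ Y, V i j)
    (T : ℕ) (hTpos : 0 < T) (hT : ν ^ T * (Fintype.card α : ℝ) < 1) :
    Linked V (β / 2) (4 * ν) (2 * T) := by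
  classical
  intro Z hZne hZ
  obtain ⟨W1, w1, k1⟩ := bad_out V β ν d hν0.le hν h1 Z hZne hZ
  obtain ⟨W2, w2, k2⟩ := bad_out (fun i j => V j i) β ν d hν0.le hν h2 Z hZne hZ
  refine ⟨W1 ∪ W2, ?_, ?_⟩
  · have h3 : ((W1 ∪ W2).card : ℝ) ≤ (W1.card : ℝ) + (W2.card : ℝ) := by
      exact_mod_cast Finset.card_union_le W1 W2
    linarith
  · intro a b ha hb
    rw [Finset.mem_union, not_or] at ha hb
    have f1 := layer_large V β ν d hβ hν0 hν h1 Z W1 b hb.1 k1 T hT
    have f2 := layer_large (fun i j => V j i) β ν d hβ hν0 hν h2 Z W2 a ha.2 k2 T hT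
    obtain ⟨x, hx, y, hy, hV⟩ := hhole _ _ f1 f2
    obtain ⟨T', rfl⟩ : ∃ T', T = T' + 1 := ⟨T - 1, by omega⟩
    have hyZ : y ∉ Z := by
      have hy' := hy
      rw [layer, Finset.mem_sdiff] at hy'
      exact fun h => hy'.2 (Finset.mem_union_left _ h)
    have hyr : y ∈ reach V Z b (T' + 1 + 1) := by
      rw [reach, Finset.mem_sdiff, mem_nb]
      exact ⟨⟨x, layer_reach V Z W1 b (T' + 1) hx, hV⟩, hyZ⟩
    obtain ⟨z, hz1, hz2⟩ := layer_back V Z W2 a b T' y hy (T' + 1 + 1) hyr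
    obtain ⟨m, m1, m2, m3, m4⟩ := reach_path V Z b _ z hz1
    refine ⟨m ++ [z], m1, m2, ?_, by omega⟩
    have h5 : List.IsChain V ([z] ++ [a]) := by simpa using hz2
    have h6 : List.IsChain V ((b :: m) ++ [z]) := by simpa using m3
    have h7 := h6.append_overlap h5 (by simp)
    simpa using h7

end ExPeriod
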