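import Mathlib
import Pool.Agent.H.MP_36be4a_lc.PX.Gen
import Pool.Agent.H.MP_36be4a_lc.PX.Spread

/-!
The decision criterion for spread bipartite graphs of polynomial degree.
-/

namespace ExPeriod

open Finset

variable {ι κ : Type} [Fintype ι] [Fintype κ]

open Classical in
/-- Degrees at least `d`; no set `W` of at least `ν |U|` vertices sends half of its degree into a
set `U` of size at most `β n` on the other side; no empty pair of sets larger than `β n`. -/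
def Spread (β ν d : ℝ) (E : ι → κ → Prop) : Prop :=
  (∀ i, d ≤ ((univ.filter (fun j => E i j)).card : ℝ)) ∧
  (∀ j, d ≤ ((univ.filter (fun i => E i j)).card : ℝ)) ∧
  (∀ (W : Finset ι) (U : Finset κ), W.Nonempty → (U.card : ℝ) ≤ β * (Fintype.card ι : ℝ) →
    ν * (U.card : ℝ) ≤ (W.card : ℝ) →
      ∑ i ∈ W, ((U.filter (fun j => E i j)).card : ℝ) < d / 2 * (W.card : ℝ)) ∧
  (∀ (W : Finset κ) (U : Finset ι), W.Nonempty → (U.card : ℝ) ≤ β * (Fintype.card ι : ℝ) →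
    ν * (U.card : ℝ) ≤ (W.card : ℝ) →
      ∑ j ∈ W, ((U.filter (fun i => E i j)).card : ℝ) < d / 2 * (W.card : ℝ)) ∧
  NoHole β E

lemma spread_out (β ν d : ℝ) (E : ι → κ → Prop) (hE : Spread β ν d E) (ρ : ι ≃ κ) :
    OutSparse (fun i j => E i (ρ j)) β ν d := by
  classical
  have hodeg : ∀ (i : ι) (U : Finset ι), odeg (fun i j => E i (ρ j)) i U =
      ((U.map ρ.toEmbedding).filter (fun j => E i j)).card := by
    intro i U
    unfold odeg
    rw [Finset.filter_map, Finset.card_map]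
    congr
  constructor
  · intro i
    rw [hodeg]
    have h1 := hE.1 i
    rw [Finset.map_univ_equiv]
    convert h1
  · intro W U hW hU hν
    have h1 := hE.2.2.1 W (U.map ρ.toEmbedding) hW (by rw [Finset.card_map]; exact hU)
      (by rw [Finset.card_map]; exact hν)
    refine lt_of_le_of_lt (le_of_eq ?_) h1
    apply Finset.sum_congr rfl
    intro i _
    rw [hodeg]

lemma spread_in (β ν d : ℝ) (E : ι → κ → Prop) (hE : Spread β ν d E) (ρ : ι ≃ κ) :
    OutSparse (fun i j => E j (ρ i)) β ν d := by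
  classical
  constructor
  · intro i
    have h1 := hE.2.1 (ρ i)
    unfold odeg
    convert h1
  · intro W U hW hU hν
    have h1 := hE.2.2.2.1 (W.map ρ.toEmbedding) U (hW.map) hU
      (by rw [Finset.card_map]; exact hν)
    rw [Finset.sum_map, Finset.card_map] at h1
    refine lt_of_le_of_lt (le_of_eq ?_) h1
    apply Finset.sum_congr rfl
    intro i _
    unfold odeg
    congr

lemma spread_hole (β ν d : ℝ) (E : ι → κ → Prop) (hE : Spread β ν d E) (ρ : ι ≃ κ)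
    (X Y : Finset ι) (hX : β * (Fintype.card ι : ℝ) < (X.card : ℝ))
    (hY : β * (Fintype.card ι : ℝ) < (Y.card : ℝ)) : ∃ i ∈ X, ∃ j ∈ Y, E i (ρ j) := by
  obtain ⟨i, hi, j, hj, h⟩ := hE.2.2.2.2 X (Y.map ρ.toEmbedding) hX
    (by rw [Finset.card_map]; exact hY)
  rw [Finset.mem_map] at hj
  obtain ⟨j', hj', rfl⟩ := hj
  exact ⟨i, hi, j', hj', h⟩

/-- Size conditions that hold for all large `n`. -/
lemma large_conditions (γ : ℝ) (hγ : 0 < γ) (A : ℝ) : ∃ n0 : ℕ, 2 ≤ n0 ∧ ∀ n : ℕ, n0 ≤ n →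
    (n : ℝ) ^ (-γ) ≤ 1 / 4 ∧ A * (n : ℝ) ^ (-(γ / 2)) < 1 := by
  have h1 := tendsto_rpow_neg_atTop hγ
  have h2 := (tendsto_rpow_neg_atTop (show 0 < γ / 2 by linarith)).const_mul A
  rw [mul_zero] at h2
  have e1 := h1.eventually (gt_mem_nhds (show (0 : ℝ) < 1 / 4 by norm_num))
  have e2 := h2.eventually (gt_mem_nhds (show (0 : ℝ) < 1 by norm_num))
  have e3 := (tendsto_natCast_atTop_atTop (R := ℝ)).eventually (e1.and e2)
  rw [Filter.eventually_atTop] at e3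
  obtain ⟨m, hm⟩ := e3
  refine ⟨max m 2, le_max_right _ _, ?_⟩
  intro n hn
  obtain ⟨h3, h4⟩ := hm n (le_trans (le_max_left _ _) hn)
  exact ⟨h3.le, h4⟩

theorem spread_decided (β γ : ℝ) (hβ : 0 < β) (hγ : 0 < γ) : ∃ P C : ℕ, 0 < P ∧
    ∀ (ι κ : Type) [Fintype ι] [Fintype κ] (E R : ι → κ → Prop) (d : ℝ),
      Spread β ((Fintype.card ι : ℝ) ^ (-γ)) d E → (∃ σ : ι ≃ κ, IsPM E σ) →
        DecidedBy P C E R := by
  set T : ℕ := ⌊1 / γ⌋₊ + 1 with hTdef
  set J : ℕ := ⌈4 / γ⌉₊ + 1 with hJdef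
  obtain ⟨n0, hn0, hlarge⟩ := large_conditions γ hγ (16 * (ML J (2 * T) : ℝ) * (1 + T))
  refine ⟨PL J (2 * T), CL J (2 * T) (β / 2) + n0, PL_pos _ _, ?_⟩
  intro ι κ _ _ E R d hE hpm
  apply decidedBy_of_step _ _ (PL_pos _ _) E hpm
  intro R' ρ τ hρ hτ hred
  classical
  have hn : n0 ≤ Fintype.card ι := by
    have := red_le R' τ
    omega
  obtain ⟨c1, c2⟩ := hlarge _ hn
  have hnR : (2 : ℝ) ≤ (Fintype.card ι : ℝ) := by
    have : 2 ≤ Fintype.card ι := hn0.trans hn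
    exact_mod_cast this
  set x : ℝ := (Fintype.card ι : ℝ) with hx
  have hx0 : 0 < x := by linarith
  have hx1 : 1 < x := by linarith
  have hν0 : 0 < x ^ (-γ) := Real.rpow_pos_of_pos hx0 _
  have hγT : 1 < γ * T := by
    have h1 := Nat.lt_floor_add_one (1 / γ)
    rw [div_lt_iff₀ hγ] at h1
    rw [hTdef]; push_cast
    linarith
  have hT : (x ^ (-γ)) ^ T * x < 1 := by
    rw [← Real.rpow_natCast, ← Real.rpow_mul hx0.le]
    have h2 : x ^ (-γ * (T : ℝ)) * x = x ^ (-γ * (T : ℝ) + 1) := by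
      rw [Real.rpow_add_one hx0.ne']
    rw [h2]
    exact Real.rpow_lt_one_of_one_lt_of_neg hx1 (by linarith)
  have hlink : Linked (fun i j => E i (ρ j)) (β / 2) (4 * x ^ (-γ)) (2 * T) :=
    linked_of_sparse _ β (x ^ (-γ)) d hβ.le hν0 c1 (spread_out β _ d E hE ρ)
      (spread_in β _ d E hE ρ) (spread_hole β _ d E hE ρ) T (by rw [hTdef]; omega) hT
  have hJpos : 0 < J := by rw [hJdef]; omega
  have hJ0 : (0 : ℝ) < (J : ℝ) := by exact_mod_cast hJpos
  set u : ℝ := x ^ ((1 : ℝ) / J) with hu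
  have hu1 : 1 ≤ u := Real.one_le_rpow hx1.le (by positivity)
  set q : ℕ := ⌊u⌋₊ + 1 with hq
  have huq : u < (q : ℝ) := by rw [hq]; push_cast; exact Nat.lt_floor_add_one u
  have hq2 : (q : ℝ) ≤ 2 * u := by
    have h1 := Nat.floor_le (show 0 ≤ u by linarith)
    rw [hq]; push_cast; linarith
  have huJ : u ^ J = x := by
    rw [hu, ← Real.rpow_natCast, ← Real.rpow_mul hx0.le]
    have : (1 : ℝ) / J * (J : ℝ) = 1 := by field_simp
    rw [this, Real.rpow_one]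
  have hqJ : Fintype.card ι < q ^ J := by
    have h1 : x < (q : ℝ) ^ J := by
      rw [← huJ]
      exact pow_lt_pow_left₀ huq (by linarith) hJpos.ne'
    have h2 : ((Fintype.card ι : ℕ) : ℝ) < ((q ^ J : ℕ) : ℝ) := by push_cast; exact h1
    exact_mod_cast h2
  have hJγ : 2 / (J : ℝ) ≤ γ / 2 := by
    have h1 := Nat.le_ceil (4 / γ)
    have h2 : 4 / γ ≤ (J : ℝ) := by rw [hJdef]; push_cast; linarith
    rw [div_le_iff₀ hγ] at h2
    rw [div_le_div_iff₀ hJ0 (by norm_num)]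
    linarith
  have huu : u * u ≤ x ^ (γ / 2) := by
    have h1 : u * u = x ^ (2 / (J : ℝ)) := by
      rw [hu, ← Real.rpow_add hx0]
      congr 1
      ring
    rw [h1]
    exact Real.rpow_le_rpow_of_exponent_le hx1.le hJγ
  have hcond : (4 * x ^ (-γ)) * (q : ℝ) *
      ((ML J (2 * T) : ℝ) * (q : ℝ) + (ML J (2 * T) : ℝ) * ((2 * T : ℕ) : ℝ)) < 1 := by
    have hM0 : (0 : ℝ) ≤ (ML J (2 * T) : ℝ) := Nat.cast_nonneg _
    have hT0 : (0 : ℝ) ≤ (T : ℝ) := Nat.cast_nonneg _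
    have hq0 : (0 : ℝ) ≤ (q : ℝ) := Nat.cast_nonneg _
    have h1 : (ML J (2 * T) : ℝ) * (q : ℝ) + (ML J (2 * T) : ℝ) * ((2 * T : ℕ) : ℝ) ≤
        (ML J (2 * T) : ℝ) * (2 * (1 + T)) * u := by
      push_cast
      have h2 : (q : ℝ) + 2 * (T : ℝ) ≤ 2 * (1 + T) * u := by nlinarith
      calc (ML J (2 * T) : ℝ) * (q : ℝ) + (ML J (2 * T) : ℝ) * (2 * (T : ℝ)) =
            (ML J (2 * T) : ℝ) * ((q : ℝ) + 2 * (T : ℝ)) := by ring
        _ ≤ (ML J (2 * T) : ℝ) * (2 * (1 + T) * u) := mul_le_mul_of_nonneg_left h2 hM0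
        _ = _ := by ring
    have h3 : (0 : ℝ) ≤ 4 * x ^ (-γ) * (q : ℝ) := by positivity
    have h4 : x ^ (-γ) * x ^ (γ / 2) = x ^ (-(γ / 2)) := by
      rw [← Real.rpow_add hx0]
      congr 1
      ring
    calc (4 * x ^ (-γ)) * (q : ℝ) *
          ((ML J (2 * T) : ℝ) * (q : ℝ) + (ML J (2 * T) : ℝ) * ((2 * T : ℕ) : ℝ)) ≤
          (4 * x ^ (-γ)) * (q : ℝ) * ((ML J (2 * T) : ℝ) * (2 * (1 + T)) * u) :=
            mul_le_mul_of_nonneg_left h1 h3
      _ ≤ (4 * x ^ (-γ)) * (2 * u) * ((ML J (2 * T) : ℝ) * (2 * (1 + T)) * u) := by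
            apply mul_le_mul_of_nonneg_right _ (by positivity)
            exact mul_le_mul_of_nonneg_left hq2 (by positivity)
      _ = 16 * (ML J (2 * T) : ℝ) * (1 + T) * (x ^ (-γ) * (u * u)) := by ring
      _ ≤ 16 * (ML J (2 * T) : ℝ) * (1 + T) * (x ^ (-γ) * x ^ (γ / 2)) := by
            apply mul_le_mul_of_nonneg_left _ (by positivity)
            exact mul_le_mul_of_nonneg_left huu hν0.le
      _ = 16 * (ML J (2 * T) : ℝ) * (1 + T) * x ^ (-(γ / 2)) := by rw [h4]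
      _ < 1 := c2
  refine step_of_shift (PL J (2 * T)) (CL J (2 * T) (β / 2)) E R' ρ τ hτ ?_ (by omega)
  intro w hw0 hw π hπ hgain
  exact shift_linked J (2 * T) q hJpos (β / 2) (4 * x ^ (-γ)) (by linarith) (by positivity)
    (fun i j => E i (ρ j)) w (fun a => hρ a) hw0 hw hlink hqJ hcond π hπ hgain

end ExPeriod
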