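import Mathlib
import Pool.Agent.H.MP_36be4a_lc.PX.SpreadB

/-!
Spread graphs have perfect matchings; pseudo-random (jumbled) graphs are spread.
-/

namespace ExPeriod

open Finset

variable {ι κ : Type} [Fintype ι] [Fintype κ]

theorem spread_pm (β ν d : ℝ) (hν1 : ν ≤ 1) (hd : 0 < d) (E : ι → κ → Prop)
    (hcard : Fintype.card ι = Fintype.card κ) (hE : Spread β ν d E) :
    ∃ σ : ι ≃ κ, IsPM E σ := by
  classical
  have hcard' : (Fintype.card ι : ℝ) = (Fintype.card κ : ℝ) := by exact_mod_cast hcard
  obtain ⟨d1, d2, s1, s2, hole⟩ := hE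
  have hall : ∀ X : Finset ι, X.card ≤ (X.biUnion (fun i => univ.filter (fun j => E i j))).card := by
    intro X
    by_contra hcon
    push Not at hcon
    set N := X.biUnion (fun i => univ.filter (fun j => E i j)) with hN
    have hXne : X.Nonempty := by
      rw [← Finset.card_pos]; omega
    have hXpos : (0 : ℝ) < (X.card : ℝ) := by
      have := Finset.card_pos.mpr hXne
      exact_mod_cast this
    have hNX : (N.card : ℝ) < (X.card : ℝ) := by exact_mod_cast hcon
    by_cases hsm : (N.card : ℝ) ≤ β * (Fintype.card ι : ℝ)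
    · have h1 := s1 X N hXne hsm (by
        have : (0 : ℝ) ≤ (N.card : ℝ) := Nat.cast_nonneg _
        nlinarith)
      have h2 : ∀ i ∈ X, d ≤ ((N.filter (fun j => E i j)).card : ℝ) := by
        intro i hi
        refine (d1 i).trans ?_
        have h3 : (univ.filter (fun j => E i j)).card ≤ (N.filter (fun j => E i j)).card := by
          apply Finset.card_le_card
          intro j hj
          rw [Finset.mem_filter] at hj
          rw [Finset.mem_filter, hN, Finset.mem_biUnion]
          exact ⟨⟨i, hi, by rw [Finset.mem_filter]; exact hj⟩, hj.2⟩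
        have h4 : ((univ.filter (fun j => E i j)).card : ℝ) ≤
            ((N.filter (fun j => E i j)).card : ℝ) := by exact_mod_cast h3
        refine le_trans (le_of_eq ?_) h4
        congr
      have h3 : d * (X.card : ℝ) ≤ ∑ i ∈ X, ((N.filter (fun j => E i j)).card : ℝ) := by
        calc d * (X.card : ℝ) = ∑ _i ∈ X, d := by rw [Finset.sum_const, nsmul_eq_mul]; ring
          _ ≤ _ := Finset.sum_le_sum h2
      have h4 : ∑ i ∈ X, ((N.filter (fun j => E i j)).card : ℝ) < d / 2 * (X.card : ℝ) := by
        refine lt_of_le_of_lt (le_of_eq ?_) h1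
        apply Finset.sum_congr rfl
        intro i _
        congr
      nlinarith
    · push Not at hsm
      have hXb : β * (Fintype.card ι : ℝ) < (X.card : ℝ) := by linarith
      set Y := univ \ N with hY
      have hYcard : Y.card + N.card = Fintype.card κ := by
        rw [hY, Finset.card_sdiff_add_card_eq_card (Finset.subset_univ _), Finset.card_univ]
      have hYb : (Y.card : ℝ) ≤ β * (Fintype.card ι : ℝ) := by
        by_contra hcon2
        push Not at hcon2
        obtain ⟨i, hi, j, hj, hEij⟩ := hole X Y hXb hcon2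
        rw [hY, Finset.mem_sdiff, hN, Finset.mem_biUnion] at hj
        exact hj.2 ⟨i, hi, by simp [hEij]⟩
      set U := Y.biUnion (fun j => univ.filter (fun i => E i j)) with hU
      have hUX : Disjoint U X := by
        rw [Finset.disjoint_left]
        intro i hi hiX
        rw [hU, Finset.mem_biUnion] at hi
        obtain ⟨j, hj, hij⟩ := hi
        rw [Finset.mem_filter] at hij
        rw [hY, Finset.mem_sdiff, hN, Finset.mem_biUnion] at hj
        exact hj.2 ⟨i, hiX, by simp [hij.2]⟩
      have hUcard : U.card + X.card ≤ Fintype.card ι := by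
        rw [← Finset.card_union_of_disjoint hUX]
        exact Finset.card_le_univ _
      have hUY : U.card < Y.card := by omega
      have hYne : Y.Nonempty := by rw [← Finset.card_pos]; omega
      have hUY' : (U.card : ℝ) < (Y.card : ℝ) := by exact_mod_cast hUY
      have h1 := s2 Y U hYne (by linarith) (by
        have : (0 : ℝ) ≤ (U.card : ℝ) := Nat.cast_nonneg _
        nlinarith)
      have hYpos : (0 : ℝ) < (Y.card : ℝ) := by
        have := Finset.card_pos.mpr hYne
        exact_mod_cast this
      have h2 : ∀ j ∈ Y, d ≤ ((U.filter (fun i => E i j)).card : ℝ) := by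
        intro j hj
        refine (d2 j).trans ?_
        have h3 : (univ.filter (fun i => E i j)).card ≤ (U.filter (fun i => E i j)).card := by
          apply Finset.card_le_card
          intro i hi
          rw [Finset.mem_filter] at hi
          rw [Finset.mem_filter, hU, Finset.mem_biUnion]
          exact ⟨⟨j, hj, by rw [Finset.mem_filter]; exact hi⟩, hi.2⟩
        have h4 : ((univ.filter (fun i => E i j)).card : ℝ) ≤
            ((U.filter (fun i => E i j)).card : ℝ) := by exact_mod_cast h3
        refine le_trans (le_of_eq ?_) h4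
        congr
      have h3 : d * (Y.card : ℝ) ≤ ∑ j ∈ Y, ((U.filter (fun i => E i j)).card : ℝ) := by
        calc d * (Y.card : ℝ) = ∑ _j ∈ Y, d := by rw [Finset.sum_const, nsmul_eq_mul]; ring
          _ ≤ _ := Finset.sum_le_sum h2
      have h4 : ∑ j ∈ Y, ((U.filter (fun i => E i j)).card : ℝ) < d / 2 * (Y.card : ℝ) := by
        refine lt_of_le_of_lt (le_of_eq ?_) h1
        apply Finset.sum_congr rfl
        intro i _
        congr
      nlinarith
  obtain ⟨f, hinj, hf2⟩ := (Finset.all_card_le_biUnion_card_iff_exists_injective _).mp hall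
  have hbij : Function.Bijective f :=
    (Fintype.bijective_iff_injective_and_card f).mpr ⟨hinj, hcard⟩
  refine ⟨Equiv.ofBijective f hbij, ?_⟩
  intro i
  have := hf2 i
  simpa using this

open Classical in
/-- Number of edges between a set of rows and a set of columns. -/
noncomputable def edges (E : ι → κ → Prop) (X : Finset ι) (Y : Finset κ) : ℕ :=
  ∑ i ∈ X, (Y.filter (fun j => E i j)).card

/-- All edge counts deviate from density `D / n` by at most `lam √(|X| |Y|)`. -/
def Jumbled (D lam : ℝ) (E : ι → κ → Prop) : Prop :=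
  ∀ (X : Finset ι) (Y : Finset κ),
    |(edges E X Y : ℝ) - D * (X.card : ℝ) * (Y.card : ℝ) / (Fintype.card ι : ℝ)| ≤
      lam * Real.sqrt ((X.card : ℝ) * (Y.card : ℝ))

lemma edges_swap (E : ι → κ → Prop) (X : Finset ι) (Y : Finset κ) [DecidableRel E] :
    edges E X Y = ∑ j ∈ Y, (X.filter (fun i => E i j)).card := by
  classical
  unfold edges
  simp only [Finset.card_filter]
  rw [Finset.sum_comm]
  apply Finset.sum_congr rfl
  intro j _
  apply Finset.sum_congr rfl
  intro i _
  congr

theorem spread_of_jumbled (D lam γ : ℝ) (hD : 0 < D) (hl : 0 ≤ lam) (hγ : 0 < γ)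
    (E : ι → κ → Prop) (hn : 0 < Fintype.card ι)
    (hlam : lam ≤ D * (Fintype.card ι : ℝ) ^ (-(γ / 2)) / 16)
    (hdeg : MinDeg (D / 2 / (Fintype.card ι : ℝ)) E) (hJ : Jumbled D lam E) :
    Spread (1 / 16) ((Fintype.card ι : ℝ) ^ (-γ)) (D / 2) E := by
  classical
  have hnR : (1 : ℝ) ≤ (Fintype.card ι : ℝ) := by exact_mod_cast hn
  set n : ℝ := (Fintype.card ι : ℝ) with hndef
  have hn0 : 0 < n := by linarith
  have e1 : D / 2 / n * n = D / 2 := by field_simp
  have hu : 0 < n ^ (-(γ / 2)) := Real.rpow_pos_of_pos hn0 _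
  have hνu : n ^ (-γ) = (n ^ (-(γ / 2))) ^ 2 := by
    rw [← Real.rpow_natCast, ← Real.rpow_mul hn0.le]
    congr 1
    push_cast
    ring
  have hsqrt : ∀ w u : ℝ, 0 ≤ w → 0 ≤ u → n ^ (-γ) * u ≤ w →
      n ^ (-(γ / 2)) * Real.sqrt (w * u) ≤ w := by
    intro w u hw hu0 h
    have h1 : n ^ (-(γ / 2)) * Real.sqrt (w * u) =
        Real.sqrt ((n ^ (-(γ / 2))) ^ 2 * (w * u)) := by
      rw [Real.sqrt_mul (show 0 ≤ (n ^ (-(γ / 2))) ^ 2 by positivity) (w * u),
        Real.sqrt_sq hu.le]
    rw [h1, ← hνu]
    apply Real.sqrt_le_iff.mpr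
    refine ⟨hw, ?_⟩
    nlinarith
  have hupper : ∀ (X : Finset ι) (Y : Finset κ) (w u : ℝ), 0 < w → 0 ≤ u →
      (X.card : ℝ) * (Y.card : ℝ) = w * u → u ≤ 1 / 16 * n → n ^ (-γ) * u ≤ w →
      (edges E X Y : ℝ) < D / 2 / 2 * w := by
    intro X Y w u hw hu0 hprod hub hν
    have h1 := (abs_le.mp (hJ X Y)).2
    have h2 : D * (X.card : ℝ) * (Y.card : ℝ) / n ≤ D * w / 16 := by
      rw [div_le_iff₀ hn0, mul_assoc, hprod]
      nlinarith [mul_pos hD hw]
    have h3 : lam * Real.sqrt ((X.card : ℝ) * (Y.card : ℝ)) ≤ D * w / 16 := by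
      rw [hprod]
      have h4 := hsqrt w u hw.le hu0 hν
      have h5 : 0 ≤ Real.sqrt (w * u) := Real.sqrt_nonneg _
      calc lam * Real.sqrt (w * u) ≤ (D * n ^ (-(γ / 2)) / 16) * Real.sqrt (w * u) :=
            mul_le_mul_of_nonneg_right hlam h5
        _ = D / 16 * (n ^ (-(γ / 2)) * Real.sqrt (w * u)) := by ring
        _ ≤ D / 16 * w := mul_le_mul_of_nonneg_left h4 (by positivity)
        _ = D * w / 16 := by ring
    have h4 : 0 < D * w := mul_pos hD hw
    linarith
  refine ⟨?_, ?_, ?_, ?_, ?_⟩
  · intro i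
    have h1 := hdeg.1 i
    rw [e1] at h1
    exact h1
  · intro j
    have h1 := hdeg.2 j
    rw [e1] at h1
    exact h1
  · intro W U hW hU hν
    have hWpos : (0 : ℝ) < (W.card : ℝ) := by
      have := Finset.card_pos.mpr hW
      exact_mod_cast this
    have h1 := hupper W U W.card U.card hWpos (Nat.cast_nonneg _) rfl hU hν
    unfold edges at h1
    push_cast at h1
    exact h1
  · intro W U hW hU hν
    have hWpos : (0 : ℝ) < (W.card : ℝ) := by
      have := Finset.card_pos.mpr hW
      exact_mod_cast this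
    have h1 := hupper U W W.card U.card hWpos (Nat.cast_nonneg _) (mul_comm _ _) hU hν
    rw [edges_swap] at h1
    push_cast at h1
    refine lt_of_le_of_lt (le_of_eq ?_) h1
    apply Finset.sum_congr rfl
    intro j _
    congr
  · intro X Y hX hY
    by_contra hcon
    push Not at hcon
    have h0 : edges E X Y = 0 := by
      unfold edges
      apply Finset.sum_eq_zero
      intro i hi
      rw [Finset.card_eq_zero, Finset.filter_eq_empty_iff]
      intro j hj
      exact hcon i hi j hj
    have h1 := (abs_le.mp (hJ X Y)).1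
    rw [h0] at h1
    have hs : (1 / 16 * n) ^ 2 < (X.card : ℝ) * (Y.card : ℝ) := by
      have : 0 ≤ 1 / 16 * n := by positivity
      nlinarith
    have hs2 : 1 / 16 * n < Real.sqrt ((X.card : ℝ) * (Y.card : ℝ)) :=
      Real.lt_sqrt_of_sq_lt hs
    set r := Real.sqrt ((X.card : ℝ) * (Y.card : ℝ)) with hr
    have hrr : r * r = (X.card : ℝ) * (Y.card : ℝ) :=
      Real.mul_self_sqrt (by positivity)
    have h2 : D * (X.card : ℝ) * (Y.card : ℝ) / n = D * r * r / n := by
      rw [mul_assoc D r r, hrr, mul_assoc]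
    rw [h2] at h1
    have hr0 : 0 < r := by
      have : 0 ≤ 1 / 16 * n := by positivity
      linarith
    have h3 : D * r * r / n ≤ lam * r := by
      push_cast at h1
      linarith
    rw [div_le_iff₀ hn0] at h3
    have h4 : D * r ≤ lam * n := by
      have h5 : (D * r) * r ≤ (lam * n) * r := by nlinarith
      exact le_of_mul_le_mul_right h5 hr0
    have h5 : n ^ (-(γ / 2)) ≤ 1 := Real.rpow_le_one_of_one_le_of_nonpos hnR (by linarith)
    have h6 : lam ≤ D / 16 := by
      refine hlam.trans ?_
      nlinarith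
    nlinarith

end ExPeriod
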