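import Mathlib
import Pool.Agent.H.MP_36be4a_lc.PX.Deg

/-!
A family of expanding graphs whose red counts are multiples of `g`.
-/

namespace ExPeriod

open Finset

/-- Blow-up of a cycle of length `g` with loops: row class `s` sees column classes `s`, `s + 1`. -/
def cycE (g m : ℕ) : ZMod g × Fin m → ZMod g × Fin m → Prop :=
  fun p q => q.1 = p.1 ∨ q.1 = p.1 + 1

/-- The edges that move to the next class are red. -/
def cycR (g m : ℕ) : ZMod g × Fin m → ZMod g × Fin m → Prop := fun p q => q.1 = p.1 + 1

lemma mem_nbhd {ι κ : Type} [Fintype ι] [Fintype κ] (E : ι → κ → Prop) (X : Finset ι) (j : κ) :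
    j ∈ nbhd E X ↔ ∃ i ∈ X, E i j := by simp [nbhd]

lemma cyc_expanding (g m : ℕ) [NeZero g] : Expanding (1 / (g : ℝ)) (cycE g m) := by
  classical
  intro X hX
  have hg : (0 : ℝ) < (g : ℝ) := by
    have := NeZero.pos g
    exact_mod_cast this
  set S : Finset (ZMod g) := X.image Prod.fst with hS
  set S' : Finset (ZMod g) := S ∪ S.image (fun s => s + 1) with hS'
  have hN : nbhd (cycE g m) X = S' ×ˢ (univ : Finset (Fin m)) := by
    ext q
    rw [mem_nbhd]
    simp only [cycE, Finset.mem_univ, Finset.mem_product, and_true, hS', Finset.mem_union,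
      Finset.mem_image, hS]
    constructor
    · rintro ⟨p, hp, h | h⟩
      · left; exact ⟨p, hp, h.symm⟩
      · right; exact ⟨p.1, ⟨p, hp, rfl⟩, h.symm⟩
    · rintro (⟨p, hp, h⟩ | ⟨s, ⟨p, hp, rfl⟩, h⟩)
      · exact ⟨p, hp, Or.inl h.symm⟩
      · exact ⟨p, hp, Or.inr h.symm⟩
  have hSne : S.Nonempty := hX.image _
  by_cases hall : S' = univ
  · left
    rw [hN, hall]
    simp
  · right
    have h1 : S.card + 1 ≤ S'.card := by
      by_contra hcon
      have h2 : S'.card ≤ S.card := by omega
      have h3 : S = S' := Finset.eq_of_subset_of_card_le Finset.subset_union_left h2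
      have h4 : ∀ s ∈ S, s + 1 ∈ S := by
        intro s hs
        have : s + 1 ∈ S' := by
          rw [hS']
          exact Finset.mem_union_right _ (Finset.mem_image.mpr ⟨s, hs, rfl⟩)
        rwa [← h3] at this
      obtain ⟨s0, hs0⟩ := hSne
      have h5 : ∀ k : ℕ, s0 + (k : ZMod g) ∈ S := by
        intro k
        induction k with
        | zero => simpa using hs0
        | succ k ih =>
          have := h4 _ ih
          push_cast
          rwa [← add_assoc]
      apply hall
      rw [← h3]
      ext t
      simp only [Finset.mem_univ, iff_true]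
      have h6 := h5 (t - s0).val
      rw [ZMod.natCast_val, ZMod.cast_id] at h6
      simpa using h6
    have h2 : X.card ≤ S.card * m := by
      have h3 : X ⊆ S ×ˢ (univ : Finset (Fin m)) := by
        intro p hp
        rw [Finset.mem_product]
        exact ⟨Finset.mem_image.mpr ⟨p, hp, rfl⟩, Finset.mem_univ _⟩
      have h4 := Finset.card_le_card h3
      rw [Finset.card_product, Finset.card_univ, Fintype.card_fin] at h4
      exact h4
    have h3 : (nbhd (cycE g m) X).card = S'.card * m := by
      rw [hN, Finset.card_product, Finset.card_univ, Fintype.card_fin]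
    have h4 : X.card + m ≤ (nbhd (cycE g m) X).card := by
      rw [h3]
      calc X.card + m ≤ S.card * m + m := by omega
        _ = (S.card + 1) * m := by ring
        _ ≤ S'.card * m := Nat.mul_le_mul_right m h1
    have h5 : 1 / (g : ℝ) * (Fintype.card (ZMod g × Fin m) : ℝ) = (m : ℝ) := by
      rw [Fintype.card_prod, ZMod.card, Fintype.card_fin]
      push_cast
      field_simp
    rw [h5]
    exact_mod_cast h4

lemma cyc_dvd (g m k : ℕ) [NeZero g] (hg : 2 ≤ g) (h : HasExact (cycE g m) (cycR g m) k) :
    g ∣ k := by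
  classical
  obtain ⟨σ, h1, h2⟩ := h
  rw [← ZMod.natCast_eq_zero_iff]
  have h3 : ∑ p : ZMod g × Fin m, ((σ p).1 - p.1) = 0 := by
    rw [Finset.sum_sub_distrib]
    have := Equiv.sum_comp σ (fun p : ZMod g × Fin m => p.1)
    rw [this, sub_self]
  have hne : (1 : ZMod g) ≠ 0 := by
    have : Fact (1 < g) := ⟨by omega⟩
    exact one_ne_zero
  have h4 : ∀ p : ZMod g × Fin m, (σ p).1 - p.1 = if cycR g m p (σ p) then 1 else 0 := by
    intro p
    rcases h1 p with h5 | h5
    · rw [if_neg]
      · rw [h5, sub_self]
      · intro h6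
        have h7 : (σ p).1 = p.1 + 1 := h6
        rw [h5] at h7
        exact hne (by simpa using h7)
    · rw [if_pos (show cycR g m p (σ p) from h5), h5]
      ring
  rw [Finset.sum_congr rfl (fun p _ => h4 p), Finset.sum_boole] at h3
  rw [← h2, red]
  exact h3

/-- Any period that is valid for all graphs expanding with constant `1 / g` is a multiple of
`g`. -/
theorem period_lower (g : ℕ) (hg : 1 ≤ g) (P C : ℕ)
    (H : ∀ (ι κ : Type) [Fintype ι] [Fintype κ] (E R : ι → κ → Prop),
      Expanding (1 / (g : ℝ)) E → ∀ b k, HasExact E R b → HasExact E R k → k + C ≤ b →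
        HasExact E R (k + P)) : g ∣ P := by
  classical
  rcases Nat.lt_or_ge 1 g with hg2 | hg2
  · haveI : NeZero g := ⟨by omega⟩
    have hne : (1 : ZMod g) ≠ 0 := by
      have : Fact (1 < g) := ⟨by omega⟩
      exact one_ne_zero
    have h0 : HasExact (cycE g (C + 1)) (cycR g (C + 1)) 0 := by
      refine ⟨Equiv.refl _, fun p => Or.inl rfl, ?_⟩
      rw [red, Finset.card_eq_zero, Finset.filter_eq_empty_iff]
      intro p _ h
      have h7 : p.1 = p.1 + 1 := h
      exact hne (by simpa using h7)
    have h1 : HasExact (cycE g (C + 1)) (cycR g (C + 1)) (g * (C + 1)) := by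
      refine ⟨Equiv.prodCongr (Equiv.addRight 1) (Equiv.refl _), fun p => Or.inr rfl, ?_⟩
      rw [red, Finset.filter_true_of_mem, Finset.card_univ, Fintype.card_prod, ZMod.card,
        Fintype.card_fin]
      intro p _
      exact (rfl : p.1 + 1 = p.1 + 1)
    have h2 := H _ _ (cycE g (C + 1)) (cycR g (C + 1)) (cyc_expanding g (C + 1)) _ 0 h1 h0
      (by nlinarith)
    rw [zero_add] at h2
    exact cyc_dvd g (C + 1) P (by omega) h2
  · have : g = 1 := by omega
    rw [this]; exact one_dvd _

end ExPeriod
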