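import Mathlib
import Pool.Agent.H.MP_36be4a_lc.PX.Deg

/-!
Almost all bipartite graphs are expanding.
-/

namespace ExPeriod

open Finset

section count

variable (n : ℕ)

/-- Rows with at most `n / 8` ones. -/
def small : Finset (Fin n → Bool) :=
  univ.filter (fun f => 8 * (univ.filter (fun j => f j = true)).card ≤ n)

lemma sum_weights (x : ℝ) :
    ∑ f : Fin n → Bool, x ^ (univ.filter (fun j => f j = true)).card = (x + 1) ^ n := by
  have h1 : ∀ f : Fin n → Bool, x ^ (univ.filter (fun j => f j = true)).card =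
      ∏ j, (if f j = true then x else 1) := by
    intro f
    rw [Finset.prod_ite, Finset.prod_const, Finset.prod_const_one, mul_one]
  rw [Finset.sum_congr rfl (fun f _ => h1 f)]
  have h2 := Finset.prod_univ_sum (fun _ : Fin n => (univ : Finset Bool))
    (fun _ b => if b = true then x else (1 : ℝ))
  rw [Fintype.piFinset_univ] at h2
  rw [← h2]
  simp

lemma small_card (r : ℝ) (hr0 : 0 < r) (hr1 : r ≤ 1) (hr : r ^ 8 = 1 / 2) :
    ((small n).card : ℝ) * r ^ n ≤ (3 / 2) ^ n := by
  have h1 := sum_weights n (1 / 2)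
  have h2 : ((small n).card : ℝ) * r ^ n = ∑ _f ∈ small n, r ^ n := by simp
  rw [h2]
  calc ∑ _f ∈ small n, r ^ n ≤
      ∑ f ∈ small n, (1 / 2 : ℝ) ^ (univ.filter (fun j => f j = true)).card := by
        apply Finset.sum_le_sum
        intro f hf
        rw [small, Finset.mem_filter] at hf
        rw [← hr, ← pow_mul]
        exact pow_le_pow_of_le_one hr0.le hr1 hf.2
    _ ≤ ∑ f : Fin n → Bool, (1 / 2 : ℝ) ^ (univ.filter (fun j => f j = true)).card := by
        apply Finset.sum_le_sum_of_subset_of_nonneg (Finset.subset_univ _)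
        intro f _ _
        positivity
    _ = (3 / 2) ^ n := by rw [h1]; norm_num

lemma row_card (i : Fin n) (S : Finset (Fin n → Bool)) :
    ((univ : Finset (Fin n → Fin n → Bool)).filter (fun E => E i ∈ S)).card * 2 ^ n =
      S.card * 2 ^ (n * n) := by
  classical
  have h1 : (univ : Finset (Fin n → Fin n → Bool)).filter (fun E => E i ∈ S) =
      Fintype.piFinset (fun i' => if i' = i then S else univ) := by
    ext E
    simp only [Finset.mem_filter, Finset.mem_univ, true_and, Fintype.mem_piFinset]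
    constructor
    · intro h i'
      split_ifs with hi
      · rw [hi]; exact h
      · exact Finset.mem_univ _
    · intro h
      have := h i
      simpa using this
  rw [h1, Fintype.card_piFinset]
  have h2 : ∀ i' : Fin n, (if i' = i then S else (univ : Finset (Fin n → Bool))).card =
      if i' = i then S.card else 2 ^ n := by
    intro i'
    split_ifs
    · rfl
    · simp
  rw [Finset.prod_congr rfl (fun i' _ => h2 i'), ← Finset.mul_prod_erase _ _ (Finset.mem_univ i),
    if_pos rfl]
  have h3 : ∏ i' ∈ (univ : Finset (Fin n)).erase i, (if i' = i then S.card else 2 ^ n) =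
      (2 ^ n) ^ (n - 1) := by
    rw [Finset.prod_congr rfl (fun i' hi' => if_neg (Finset.ne_of_mem_erase hi')),
      Finset.prod_const, Finset.card_erase_of_mem (Finset.mem_univ _), Finset.card_univ,
      Fintype.card_fin]
  rw [h3, mul_assoc, ← pow_succ, ← pow_mul]
  have hn : 0 < n := i.pos
  have h4 : n - 1 + 1 = n := by omega
  rw [h4]

lemma col_card (j : Fin n) (S : Finset (Fin n → Bool)) :
    ((univ : Finset (Fin n → Fin n → Bool)).filter (fun E => (fun i => E i j) ∈ S)).card * 2 ^ n =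
      S.card * 2 ^ (n * n) := by
  classical
  rw [← row_card n j S]
  congr 1
  apply Finset.card_bij (fun E _ => fun a b => E b a)
  · intro E hE
    simpa using hE
  · intro E _ E' _ h
    funext a b
    exact congrFun (congrFun h b) a
  · intro E hE
    exact ⟨fun a b => E b a, by simpa using hE, rfl⟩

lemma hole_card (X Y : Finset (Fin n)) :
    ((univ : Finset (Fin n → Fin n → Bool)).filter
      (fun E => ∀ i ∈ X, ∀ j ∈ Y, E i j = false)).card * 2 ^ (X.card * Y.card) =
      2 ^ (n * n) := by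
  classical
  have h1 : (univ : Finset (Fin n → Fin n → Bool)).filter
      (fun E => ∀ i ∈ X, ∀ j ∈ Y, E i j = false) =
      Fintype.piFinset (fun i => Fintype.piFinset
        (fun j => if i ∈ X ∧ j ∈ Y then {false} else (univ : Finset Bool))) := by
    ext E
    simp only [Finset.mem_filter, Finset.mem_univ, true_and, Fintype.mem_piFinset]
    constructor
    · intro h i j
      split_ifs with hij
      · rw [Finset.mem_singleton]; exact h i hij.1 j hij.2
      · exact Finset.mem_univ _
    · intro h i hi j hj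
      have := h i j
      rw [if_pos ⟨hi, hj⟩, Finset.mem_singleton] at this
      exact this
  rw [h1, Fintype.card_piFinset]
  have h2 : ∀ i j : Fin n, (if i ∈ X ∧ j ∈ Y then {false} else (univ : Finset Bool)).card *
      (if i ∈ X ∧ j ∈ Y then 2 else 1) = 2 := by
    intro i j
    split_ifs <;> simp
  have h3 : (2 : ℕ) ^ (X.card * Y.card) = ∏ i : Fin n, ∏ j : Fin n,
      (if i ∈ X ∧ j ∈ Y then 2 else 1) := by
    have h4 : ∀ i : Fin n, ∏ j : Fin n, (if i ∈ X ∧ j ∈ Y then 2 else 1) =
        if i ∈ X then 2 ^ Y.card else 1 := by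
      intro i
      by_cases hi : i ∈ X
      · simp only [hi, true_and, if_true]
        rw [Finset.prod_ite, Finset.prod_const, Finset.prod_const_one, mul_one,
          Finset.filter_mem_eq_inter, Finset.univ_inter]
      · simp [hi]
    rw [Finset.prod_congr rfl (fun i _ => h4 i), Finset.prod_ite, Finset.prod_const,
      Finset.prod_const_one, mul_one, Finset.filter_mem_eq_inter, Finset.univ_inter, ← pow_mul,
      mul_comm]
  rw [h3, ← Finset.prod_mul_distrib]
  have h5 : ∀ i : Fin n, (Fintype.piFinset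
        (fun j => if i ∈ X ∧ j ∈ Y then {false} else (univ : Finset Bool))).card *
        (∏ j : Fin n, (if i ∈ X ∧ j ∈ Y then 2 else 1)) = 2 ^ n := by
    intro i
    rw [Fintype.card_piFinset, ← Finset.prod_mul_distrib,
      Finset.prod_congr rfl (fun j _ => h2 i j), Finset.prod_const, Finset.card_univ,
      Fintype.card_fin]
  rw [Finset.prod_congr rfl (fun i _ => h5 i), Finset.prod_const, Finset.card_univ,
    Fintype.card_fin, ← pow_mul]

end count

open Classical in
/-- The number of bipartite graphs with parts `Fin n` that are not expanding. -/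
noncomputable def numBad (c : ℝ) (n : ℕ) : ℕ :=
  ((univ : Finset (Fin n → Fin n → Bool)).filter
    (fun E => ¬ Expanding c (fun i j => E i j = true))).card

lemma bad_subset (n : ℕ) (E : Fin n → Fin n → Bool)
    (hE : ¬ Expanding (1 / 16) (fun i j => E i j = true)) :
    (∃ i, E i ∈ small n) ∨ (∃ j, (fun i => E i j) ∈ small n) ∨
      ∃ X Y : Finset (Fin n), n < 16 * X.card ∧ n < 16 * Y.card ∧
        ∀ i ∈ X, ∀ j ∈ Y, E i j = false := by
  classical
  by_contra hcon
  push Not at hcon
  obtain ⟨h1, h2, h3⟩ := hcon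
  apply hE
  have hd : MinDeg (1 / 8) (fun i j => E i j = true) := by
    constructor
    · intro i
      have h4 := h1 i
      rw [small, Finset.mem_filter] at h4
      push Not at h4
      have h5 := h4 (Finset.mem_univ _)
      have h6 : ((n : ℕ) : ℝ) ≤ ((8 * (univ.filter (fun j => E i j = true)).card : ℕ) : ℝ) := by
        exact_mod_cast h5.le
      push_cast at h6
      rw [Fintype.card_fin]
      have h7 : ((univ.filter (fun j => E i j = true)).card : ℝ) =
        ((@Finset.filter _ (fun j => E i j = true) (fun j => Classical.propDecidable _)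
          univ).card : ℝ) := by congr
      linarith
    · intro j
      have h4 := h2 j
      rw [small, Finset.mem_filter] at h4
      push Not at h4
      have h5 := h4 (Finset.mem_univ _)
      have h6 : ((n : ℕ) : ℝ) ≤ ((8 * (univ.filter (fun i => E i j = true)).card : ℕ) : ℝ) := by
        exact_mod_cast h5.le
      push_cast at h6
      rw [Fintype.card_fin]
      have h7 : ((univ.filter (fun i => E i j = true)).card : ℝ) =
        ((@Finset.filter _ (fun i => E i j = true) (fun j => Classical.propDecidable _)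
          univ).card : ℝ) := by congr
      linarith
  have hh : NoHole (1 / 16) (fun i j => E i j = true) := by
    intro X Y hX hY
    rw [Fintype.card_fin] at hX hY
    have hX' : (n : ℝ) < ((16 * X.card : ℕ) : ℝ) := by push_cast; linarith
    have hY' : (n : ℝ) < ((16 * Y.card : ℕ) : ℝ) := by push_cast; linarith
    obtain ⟨i, hi, j, hj, h4⟩ := h3 X Y (by exact_mod_cast hX') (by exact_mod_cast hY')
    exact ⟨i, hi, j, hj, by simpa using h4⟩
  have := expanding_of_noHole (1 / 8) (1 / 16) (fun i j => E i j = true) rfl hd hh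
  norm_num at this ⊢
  exact this

lemma numBad_le (r : ℝ) (hr0 : 0 < r) (hr1 : r ≤ 1) (hr : r ^ 8 = 1 / 2) (n : ℕ)
    (hn : 1024 ≤ n) :
    (numBad (1 / 16) n : ℝ) ≤ (2 * (n : ℝ) * (3 / (4 * r)) ^ n + (1 / 4) ^ n) * 2 ^ (n * n) := by
  classical
  set A : Fin n → Finset (Fin n → Fin n → Bool) := fun i => univ.filter (fun E => E i ∈ small n)
    with hA
  set B : Fin n → Finset (Fin n → Fin n → Bool) :=
    fun j => univ.filter (fun E => (fun i => E i j) ∈ small n) with hB
  set H : Finset (Fin n) × Finset (Fin n) → Finset (Fin n → Fin n → Bool) :=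
    fun p => univ.filter (fun E => ∀ i ∈ p.1, ∀ j ∈ p.2, E i j = false) with hH
  set Pr : Finset (Finset (Fin n) × Finset (Fin n)) :=
    univ.filter (fun p => n < 16 * p.1.card ∧ n < 16 * p.2.card) with hPr
  have hsub : (univ : Finset (Fin n → Fin n → Bool)).filter
      (fun E => ¬ Expanding (1 / 16) (fun i j => E i j = true)) ⊆
      univ.biUnion A ∪ (univ.biUnion B ∪ Pr.biUnion H) := by
    intro E hE
    rw [Finset.mem_filter] at hE
    rcases bad_subset n E hE.2 with ⟨i, hi⟩ | ⟨j, hj⟩ | ⟨X, Y, hX, hY, h⟩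
    · apply Finset.mem_union_left
      rw [Finset.mem_biUnion]
      exact ⟨i, Finset.mem_univ _, by rw [hA]; simpa using hi⟩
    · apply Finset.mem_union_right
      apply Finset.mem_union_left
      rw [Finset.mem_biUnion]
      exact ⟨j, Finset.mem_univ _, by rw [hB]; simpa using hj⟩
    · apply Finset.mem_union_right
      apply Finset.mem_union_right
      rw [Finset.mem_biUnion]
      refine ⟨(X, Y), by rw [hPr]; simp [hX, hY], ?_⟩
      rw [hH]
      simp only [Finset.mem_filter, Finset.mem_univ, true_and]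
      exact h
  have hle : numBad (1 / 16) n ≤ ∑ i, (A i).card + (∑ j, (B j).card + ∑ p ∈ Pr, (H p).card) := by
    unfold numBad
    have h1 := Finset.card_le_card hsub
    have h2 := Finset.card_union_le (univ.biUnion A) (univ.biUnion B ∪ Pr.biUnion H)
    have h3 := Finset.card_union_le (univ.biUnion B) (Pr.biUnion H)
    have h4 : (univ.biUnion A).card ≤ ∑ i, (A i).card := Finset.card_biUnion_le
    have h5 : (univ.biUnion B).card ≤ ∑ i, (B i).card := Finset.card_biUnion_le
    have h6 : (Pr.biUnion H).card ≤ ∑ p ∈ Pr, (H p).card := Finset.card_biUnion_le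
    refine le_trans (le_of_eq ?_) (h1.trans (h2.trans (by omega)))
    congr
  have hle' : (numBad (1 / 16) n : ℝ) ≤
      ∑ i, ((A i).card : ℝ) + (∑ j, ((B j).card : ℝ) + ∑ p ∈ Pr, ((H p).card : ℝ)) := by
    exact_mod_cast hle
  have hT : (0 : ℝ) < 2 ^ (n * n) := by positivity
  have hs : ((small n).card : ℝ) ≤ (3 / (4 * r)) ^ n * 2 ^ n := by
    have h1 := small_card n r hr0 hr1 hr
    have h2 : (3 / (4 * r)) ^ n * 2 ^ n * r ^ n = (3 / 2) ^ n := by
      rw [← mul_pow, ← mul_pow]
      congr 1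
      field_simp
      ring
    rw [← h2] at h1
    exact le_of_mul_le_mul_right h1 (by positivity)
  have h2n : (0 : ℝ) < 2 ^ n := by positivity
  have hAi : ∀ i, ((A i).card : ℝ) ≤ (3 / (4 * r)) ^ n * 2 ^ (n * n) := by
    intro i
    have h1 : ((A i).card : ℝ) * 2 ^ n = ((small n).card : ℝ) * 2 ^ (n * n) := by
      exact_mod_cast row_card n i (small n)
    have h2 : ((A i).card : ℝ) * 2 ^ n ≤ ((3 / (4 * r)) ^ n * 2 ^ (n * n)) * 2 ^ n := by
      rw [h1]
      nlinarith
    exact le_of_mul_le_mul_right h2 h2n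
  have hBj : ∀ j, ((B j).card : ℝ) ≤ (3 / (4 * r)) ^ n * 2 ^ (n * n) := by
    intro j
    have h1 : ((B j).card : ℝ) * 2 ^ n = ((small n).card : ℝ) * 2 ^ (n * n) := by
      exact_mod_cast col_card n j (small n)
    have h2 : ((B j).card : ℝ) * 2 ^ n ≤ ((3 / (4 * r)) ^ n * 2 ^ (n * n)) * 2 ^ n := by
      rw [h1]
      nlinarith
    exact le_of_mul_le_mul_right h2 h2n
  have hHp : ∀ p ∈ Pr, ((H p).card : ℝ) ≤ (1 / 16) ^ n * 2 ^ (n * n) := by
    rintro ⟨X, Y⟩ hp
    rw [hPr, Finset.mem_filter] at hp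
    obtain ⟨_, hX, hY⟩ := hp
    simp only at hX hY
    have h1 : ((H (X, Y)).card : ℝ) * 2 ^ (X.card * Y.card) = 2 ^ (n * n) := by
      exact_mod_cast hole_card n X Y
    have h2 : 4 * n ≤ X.card * Y.card := by
      have h3 : n * n < (16 * X.card) * (16 * Y.card) := Nat.mul_lt_mul_of_lt_of_lt hX hY
      nlinarith
    have h3 : (2 : ℝ) ^ (4 * n) ≤ 2 ^ (X.card * Y.card) :=
      pow_le_pow_right₀ (by norm_num) h2
    have h4 : ((H (X, Y)).card : ℝ) * 2 ^ (4 * n) ≤ 2 ^ (n * n) := by
      rw [← h1]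
      exact mul_le_mul_of_nonneg_left h3 (Nat.cast_nonneg _)
    have h5 : (2 : ℝ) ^ (4 * n) = 16 ^ n := by rw [pow_mul]; norm_num
    rw [h5] at h4
    have h6 : (0 : ℝ) < 16 ^ n := by positivity
    rw [one_div, inv_pow, inv_mul_eq_div, le_div_iff₀ h6]
    exact h4
  have hPc : (Pr.card : ℝ) ≤ 4 ^ n := by
    have h1 : Pr.card ≤ Fintype.card (Finset (Fin n) × Finset (Fin n)) := Finset.card_le_univ _
    have h2 : Fintype.card (Finset (Fin n) × Finset (Fin n)) = 4 ^ n := by
      simp only [Fintype.card_prod, Fintype.card_finset, Fintype.card_fin]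
      rw [← mul_pow]
      norm_num
    rw [h2] at h1
    exact_mod_cast h1
  have s1 : ∑ i, ((A i).card : ℝ) ≤ (n : ℝ) * ((3 / (4 * r)) ^ n * 2 ^ (n * n)) := by
    calc ∑ i, ((A i).card : ℝ) ≤ ∑ _i : Fin n, (3 / (4 * r)) ^ n * 2 ^ (n * n) :=
          Finset.sum_le_sum (fun i _ => hAi i)
      _ = _ := by simp
  have s2 : ∑ j, ((B j).card : ℝ) ≤ (n : ℝ) * ((3 / (4 * r)) ^ n * 2 ^ (n * n)) := by
    calc ∑ j, ((B j).card : ℝ) ≤ ∑ _j : Fin n, (3 / (4 * r)) ^ n * 2 ^ (n * n) :=
          Finset.sum_le_sum (fun i _ => hBj i)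
      _ = _ := by simp
  have s3 : ∑ p ∈ Pr, ((H p).card : ℝ) ≤ (1 / 4) ^ n * 2 ^ (n * n) := by
    calc ∑ p ∈ Pr, ((H p).card : ℝ) ≤ ∑ _p ∈ Pr, (1 / 16 : ℝ) ^ n * 2 ^ (n * n) :=
          Finset.sum_le_sum (fun p hp => hHp p hp)
      _ = (Pr.card : ℝ) * ((1 / 16 : ℝ) ^ n * 2 ^ (n * n)) := by simp
      _ ≤ 4 ^ n * ((1 / 16 : ℝ) ^ n * 2 ^ (n * n)) :=
          mul_le_mul_of_nonneg_right hPc (by positivity)
      _ = (1 / 4) ^ n * 2 ^ (n * n) := by
          rw [← mul_assoc, ← mul_pow]; norm_num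
  linarith

/-- All but an exponentially small proportion of the bipartite graphs with parts of size `n` are
expanding. -/
theorem most_expanding : ∃ q : ℝ, 0 < q ∧ q < 1 ∧ ∀ᶠ n : ℕ in Filter.atTop,
    (numBad (1 / 16) n : ℝ) ≤ q ^ n * 2 ^ (n * n) := by
  set r : ℝ := (1 / 2 : ℝ) ^ ((1 : ℝ) / 8) with hrdef
  have hr0 : 0 < r := Real.rpow_pos_of_pos (by norm_num) _
  have hr : r ^ 8 = 1 / 2 := by
    rw [hrdef, ← Real.rpow_natCast, ← Real.rpow_mul (by norm_num)]
    norm_num
  have hr1 : r ≤ 1 := by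
    by_contra h
    push Not at h
    have : (1 : ℝ) < r ^ 8 := one_lt_pow₀ h (by norm_num)
    rw [hr] at this
    norm_num at this
  have hr2 : 3 / 4 < r := by
    by_contra h
    push Not at h
    have : r ^ 8 ≤ (3 / 4) ^ 8 := pow_le_pow_left₀ hr0.le h 8
    rw [hr] at this
    norm_num at this
  set q0 : ℝ := 3 / (4 * r) with hq0
  have hq01 : q0 < 1 := by
    rw [hq0, div_lt_one (by positivity)]
    linarith
  have hq02 : 1 / 4 ≤ q0 := by
    rw [hq0, le_div_iff₀ (by positivity)]
    linarith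
  set q : ℝ := (1 + q0) / 2 with hq
  have hq1 : q < 1 := by rw [hq]; linarith
  have hqpos : 0 < q := by rw [hq]; linarith
  have hqq : q0 < q := by rw [hq]; linarith
  refine ⟨q, hqpos, hq1, ?_⟩
  set s : ℝ := q0 / q with hs
  have hs0 : 0 ≤ s := by rw [hs]; exact div_nonneg (by linarith) hqpos.le
  have hs1 : s < 1 := by rw [hs, div_lt_one hqpos]; exact hqq
  have t1 : Filter.Tendsto (fun n : ℕ => (n : ℝ) ^ 1 * s ^ n) Filter.atTop (nhds 0) :=
    tendsto_pow_const_mul_const_pow_of_abs_lt_one 1 (by rw [abs_of_nonneg hs0]; exact hs1)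
  have t2 : Filter.Tendsto (fun n : ℕ => s ^ n) Filter.atTop (nhds 0) :=
    tendsto_pow_atTop_nhds_zero_of_lt_one hs0 hs1
  have t3 : Filter.Tendsto (fun n : ℕ => 2 * ((n : ℝ) ^ 1 * s ^ n) + s ^ n) Filter.atTop
      (nhds (2 * 0 + 0)) := (t1.const_mul 2).add t2
  rw [mul_zero, add_zero] at t3
  have t4 := t3.eventually (gt_mem_nhds (show (0 : ℝ) < 1 by norm_num))
  filter_upwards [t4, Filter.eventually_ge_atTop 1024] with n h1 h2
  refine (numBad_le r hr0 hr1 hr n h2).trans ?_
  apply mul_le_mul_of_nonneg_right _ (by positivity)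
  have h3 : (1 / 4 : ℝ) ^ n ≤ q0 ^ n := pow_le_pow_left₀ (by norm_num) hq02 n
  have h4 : q0 ^ n = s ^ n * q ^ n := by
    rw [← mul_pow, hs, div_mul_cancel₀ _ hqpos.ne']
  have h5 : (0 : ℝ) < q ^ n := by positivity
  rw [pow_one] at h1
  calc 2 * (n : ℝ) * q0 ^ n + (1 / 4) ^ n ≤ 2 * (n : ℝ) * q0 ^ n + q0 ^ n := by linarith
    _ = (2 * ((n : ℝ) * s ^ n) + s ^ n) * q ^ n := by rw [h4]; ring
    _ ≤ 1 * q ^ n := mul_le_mul_of_nonneg_right h1.le h5.le
    _ = q ^ n := one_mul _

end ExPeriod
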