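import Mathlib
import Pool.Agent.H.MP_36be4a_lc.PX.SpreadB

/-!
Random bipartite graphs: every pair is an edge independently with probability `p`.
-/

namespace ExPeriod

open Finset

/-- Probability of the graph `E` when every pair is an edge independently with probability
`p`. -/
noncomputable def wt (p : ℝ) (n : ℕ) (E : Fin n → Fin n → Bool) : ℝ :=
  ∏ i, ∏ j, if E i j = true then p else 1 - p

open Classical in
/-- Probability of the event `S` for a random bipartite graph with edge probability `p`. -/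
noncomputable def Pr (p : ℝ) (n : ℕ) (S : (Fin n → Fin n → Bool) → Prop) : ℝ :=
  ∑ E ∈ univ.filter S, wt p n E

lemma wt_nonneg (p : ℝ) (hp0 : 0 ≤ p) (hp1 : p ≤ 1) (n : ℕ) (E : Fin n → Fin n → Bool) :
    0 ≤ wt p n E := by
  unfold wt
  apply Finset.prod_nonneg
  intro i _
  apply Finset.prod_nonneg
  intro j _
  split_ifs <;> linarith

/-- Number of pairs of `S` that are edges. -/
def cnt (n : ℕ) (S : Finset (Fin n × Fin n)) (E : Fin n → Fin n → Bool) : ℕ :=
  (S.filter (fun x => E x.1 x.2 = true)).card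

lemma sum_prod_prod (n : ℕ) (g : Fin n → Fin n → Bool → ℝ) :
    ∑ E : Fin n → Fin n → Bool, ∏ i, ∏ j, g i j (E i j) = ∏ i, ∏ j, ∑ b : Bool, g i j b := by
  have h1 : ∀ i : Fin n, ∏ j, ∑ b : Bool, g i j b =
      ∑ f : Fin n → Bool, ∏ j, g i j (f j) := by
    intro i
    have := Finset.prod_univ_sum (fun _ : Fin n => (univ : Finset Bool)) (fun j b => g i j b)
    rw [Fintype.piFinset_univ] at this
    exact this
  rw [Finset.prod_congr rfl (fun i _ => h1 i)]
  have h2 := Finset.prod_univ_sum (fun _ : Fin n => (univ : Finset (Fin n → Bool)))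
    (fun i f => ∏ j, g i j (f j))
  rw [Fintype.piFinset_univ] at h2
  exact h2.symm

lemma mgf (p lam : ℝ) (n : ℕ) (S : Finset (Fin n × Fin n)) :
    ∑ E : Fin n → Fin n → Bool, wt p n E * lam ^ cnt n S E = (1 - p + p * lam) ^ S.card := by
  classical
  have h1 : ∀ E : Fin n → Fin n → Bool, wt p n E * lam ^ cnt n S E =
      ∏ i, ∏ j, ((if E i j = true then p else 1 - p) *
        (if (i, j) ∈ S ∧ E i j = true then lam else 1)) := by
    intro E
    have h2 : lam ^ cnt n S E = ∏ i, ∏ j, (if (i, j) ∈ S ∧ E i j = true then lam else 1) := by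
      rw [← Finset.prod_product', Finset.univ_product_univ, cnt, Finset.prod_ite,
        Finset.prod_const, Finset.prod_const_one, mul_one]
      congr 2
      ext x
      simp
    rw [h2, wt]
    simp only [Finset.prod_mul_distrib]
  rw [Finset.sum_congr rfl (fun E _ => h1 E)]
  have h3 := sum_prod_prod n (fun i j b => (if b = true then p else 1 - p) *
        (if (i, j) ∈ S ∧ b = true then lam else 1))
  rw [h3]
  have h4 : ∀ i j : Fin n, ∑ b : Bool, ((if b = true then p else 1 - p) *
        (if (i, j) ∈ S ∧ b = true then lam else 1)) =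
        if (i, j) ∈ S then 1 - p + p * lam else 1 := by
    intro i j
    rw [Fintype.sum_bool]
    by_cases h : (i, j) ∈ S
    · simp [h]; ring
    · simp [h]
  simp only [h4]
  rw [← Finset.prod_product', Finset.univ_product_univ, Finset.prod_ite, Finset.prod_const,
    Finset.prod_const_one, mul_one]
  congr 2
  ext x
  simp

lemma markov (p lam c : ℝ) (hp0 : 0 ≤ p) (hp1 : p ≤ 1) (hl : 0 ≤ lam) (hc : 0 ≤ c) (n : ℕ)
    (S : Finset (Fin n × Fin n)) (T : (Fin n → Fin n → Bool) → Prop)
    (hT : ∀ E, T E → 1 ≤ c * lam ^ cnt n S E) :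
    Pr p n T ≤ c * (1 - p + p * lam) ^ S.card := by
  classical
  rw [← mgf p lam n S, Finset.mul_sum, Pr]
  calc ∑ E ∈ univ.filter T, wt p n E ≤
      ∑ E ∈ univ.filter T, c * (wt p n E * lam ^ cnt n S E) := by
        apply Finset.sum_le_sum
        intro E hE
        rw [Finset.mem_filter] at hE
        have h1 := hT E hE.2
        have h2 := wt_nonneg p hp0 hp1 n E
        nlinarith
    _ ≤ ∑ E, c * (wt p n E * lam ^ cnt n S E) := by
        apply Finset.sum_le_sum_of_subset_of_nonneg (Finset.subset_univ _)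
        intro E _ _
        have h2 := wt_nonneg p hp0 hp1 n E
        positivity

lemma Pr_mono (p : ℝ) (hp0 : 0 ≤ p) (hp1 : p ≤ 1) (n : ℕ)
    (S T : (Fin n → Fin n → Bool) → Prop) (h : ∀ E, S E → T E) : Pr p n S ≤ Pr p n T := by
  classical
  unfold Pr
  apply Finset.sum_le_sum_of_subset_of_nonneg
  · intro E hE
    rw [Finset.mem_filter] at hE ⊢
    exact ⟨hE.1, h E hE.2⟩
  · intro E _ _
    exact wt_nonneg p hp0 hp1 n E

lemma Pr_or (p : ℝ) (hp0 : 0 ≤ p) (hp1 : p ≤ 1) (n : ℕ)
    (S T : (Fin n → Fin n → Bool) → Prop) :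
    Pr p n (fun E => S E ∨ T E) ≤ Pr p n S + Pr p n T := by
  classical
  unfold Pr
  have h1 := Finset.sum_union_inter (s₁ := univ.filter S) (s₂ := univ.filter T)
    (f := wt p n)
  have h2 : 0 ≤ ∑ E ∈ univ.filter S ∩ univ.filter T, wt p n E :=
    Finset.sum_nonneg (fun E _ => wt_nonneg p hp0 hp1 n E)
  rw [← h1]
  refine le_trans (le_of_eq ?_) (le_add_of_nonneg_right h2)
  apply Finset.sum_congr _ (fun _ _ => rfl)
  ext E
  simp

lemma Pr_exists {A : Type} [DecidableEq A] (p : ℝ) (hp0 : 0 ≤ p) (hp1 : p ≤ 1) (n : ℕ)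
    (s : Finset A) (S : A → (Fin n → Fin n → Bool) → Prop) :
    Pr p n (fun E => ∃ a ∈ s, S a E) ≤ ∑ a ∈ s, Pr p n (S a) := by
  classical
  induction s using Finset.induction_on with
  | empty =>
    simp [Pr]
  | insert a s ha ih =>
    rw [Finset.sum_insert ha]
    refine le_trans (Pr_mono p hp0 hp1 n _ (fun E => S a E ∨ ∃ a ∈ s, S a E) ?_)
      ((Pr_or p hp0 hp1 n _ _).trans (by linarith))
    rintro E ⟨b, hb, hS⟩
    rcases Finset.mem_insert.mp hb with rfl | hb
    · left; exact hS
    · right; exact ⟨b, hb, hS⟩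

lemma Pr_total (p : ℝ) (n : ℕ) : ∑ E : Fin n → Fin n → Bool, wt p n E = 1 := by
  have h := mgf p 1 n ∅
  simpa using h

lemma Pr_compl (p : ℝ) (n : ℕ) (S : (Fin n → Fin n → Bool) → Prop) :
    Pr p n S = 1 - Pr p n (fun E => ¬ S E) := by
  classical
  have h := Finset.sum_filter_add_sum_filter_not (univ : Finset (Fin n → Fin n → Bool)) S (wt p n)
  rw [Pr_total] at h
  unfold Pr
  have h2 : ∑ E ∈ univ.filter (fun E => ¬ S E), wt p n E =
      ∑ E ∈ @Finset.filter _ (fun E => ¬ S E) (fun E => Classical.propDecidable _) univ,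
        wt p n E := by congr
  have h3 : ∑ E ∈ univ.filter S, wt p n E =
      ∑ E ∈ @Finset.filter _ S (fun E => Classical.propDecidable _) univ, wt p n E := by congr
  linarith

end ExPeriod
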