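import Mathlib
import Pool.Agent.H.MP_36be4a_lc.PX.Rand

/-!
Random bipartite graphs are spread with high probability.
-/

namespace ExPeriod

open Finset

lemma count_small (A : Type) [Fintype A] [DecidableEq A] (D : ℕ) :
    ((univ : Finset (Finset A)).filter (fun T => T.card ≤ D)).card ≤
      (Fintype.card A + 1) ^ D := by
  classical
  have h1 : (Fintype.card A + 1) ^ D = Fintype.card (Fin D → Option A) := by
    simp [Fintype.card_option]
  rw [h1, ← Finset.card_univ]
  apply Finset.card_le_card_of_surjOn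
    (fun g : Fin D → Option A => univ.filter (fun x => ∃ i, g i = some x))
  intro T hT
  simp only [Finset.coe_filter, Finset.mem_univ, true_and, Set.mem_setOf_eq] at hT
  refine ⟨fun i => if h : (i : ℕ) < T.card then some (T.equivFin.symm ⟨i, h⟩ : A) else none,
    by simp, ?_⟩
  ext x
  simp only [Finset.mem_filter, Finset.mem_univ, true_and]
  constructor
  · rintro ⟨i, hi⟩
    split_ifs at hi with h
    · rw [Option.some.injEq] at hi
      rw [← hi]
      exact (T.equivFin.symm ⟨i, h⟩).2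
  · intro hx
    refine ⟨⟨(T.equivFin ⟨x, hx⟩ : ℕ), lt_of_lt_of_le (T.equivFin ⟨x, hx⟩).2 hT⟩, ?_⟩
    rw [dif_pos (T.equivFin ⟨x, hx⟩).2]
    simp

lemma half_pow (k : ℕ) : ((1 : ℝ) / 2) ^ k = Real.exp (-(Real.log 2 * k)) := by
  rw [show -(Real.log 2 * (k : ℝ)) = (k : ℝ) * (-Real.log 2) by ring, Real.exp_nat_mul,
    Real.exp_neg, Real.exp_log (by norm_num)]
  norm_num

lemma degree_prob (p : ℝ) (hp0 : 0 ≤ p) (hp1 : p ≤ 1) (n : ℕ) (S : Finset (Fin n × Fin n))
    (hS : S.card = n) :
    Pr p n (fun E => (cnt n S E : ℝ) < p * n / 2) ≤ Real.exp (-(p * n / 8)) := by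
  have h1 := markov p (1 / 2) (Real.exp (Real.log 2 * (p * n / 2))) hp0 hp1 (by norm_num)
    (Real.exp_pos _).le n S (fun E => (cnt n S E : ℝ) < p * n / 2) (by
      intro E hE
      rw [half_pow, ← Real.exp_add]
      apply Real.one_le_exp
      have h2 : (0 : ℝ) ≤ Real.log 2 := Real.log_nonneg (by norm_num)
      nlinarith)
  refine h1.trans ?_
  rw [hS]
  have h2 : (1 - p + p * (1 / 2)) ^ n ≤ Real.exp (-(p / 2) * n) := by
    have h3 : 1 - p + p * (1 / 2) ≤ Real.exp (-(p / 2)) := by
      have := Real.add_one_le_exp (-(p / 2))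
      linarith
    calc (1 - p + p * (1 / 2)) ^ n ≤ (Real.exp (-(p / 2))) ^ n :=
          pow_le_pow_left₀ (by linarith) h3 n
      _ = Real.exp (-(p / 2) * n) := by
          rw [← Real.exp_nat_mul]; congr 1; ring
  calc Real.exp (Real.log 2 * (p * n / 2)) * (1 - p + p * (1 / 2)) ^ n ≤
        Real.exp (Real.log 2 * (p * n / 2)) * Real.exp (-(p / 2) * n) :=
          mul_le_mul_of_nonneg_left h2 (Real.exp_pos _).le
    _ = Real.exp (Real.log 2 * (p * n / 2) + -(p / 2) * n) := by rw [Real.exp_add]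
    _ ≤ Real.exp (-(p * n / 8)) := by
        apply Real.exp_le_exp.mpr
        have h3 := Real.log_two_lt_d9
        have h4 : 0 ≤ p * (n : ℝ) := by positivity
        nlinarith

lemma dense_prob (p : ℝ) (hp0 : 0 ≤ p) (hp1 : p ≤ 1) (n : ℕ) (S : Finset (Fin n × Fin n))
    (w : ℕ) (hS : (S.card : ℝ) ≤ (w : ℝ) * n / 16) :
    Pr p n (fun E => p * n / 2 / 2 * w ≤ (cnt n S E : ℝ)) ≤ Real.exp (-(p * n / 8) * w) := by
  have h1 := markov p (Real.exp 1) (Real.exp (-(p * n / 4 * w))) hp0 hp1 (Real.exp_pos _).le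
    (Real.exp_pos _).le n S (fun E => p * n / 2 / 2 * w ≤ (cnt n S E : ℝ)) (by
      intro E hE
      rw [← Real.exp_nat_mul, ← Real.exp_add]
      apply Real.one_le_exp
      linarith)
  refine h1.trans ?_
  have he : Real.exp 1 ≤ 3 := by
    have := Real.exp_one_lt_d9
    linarith
  have he0 : 0 < Real.exp 1 := Real.exp_pos _
  have h2 : (1 - p + p * Real.exp 1) ^ S.card ≤ Real.exp (p * 2 * S.card) := by
    have h3 : 1 - p + p * Real.exp 1 ≤ Real.exp (p * 2) := by
      have := Real.add_one_le_exp (p * 2)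
      nlinarith
    have h0 : 0 ≤ 1 - p + p * Real.exp 1 := by
      have : 0 ≤ p * Real.exp 1 := by positivity
      linarith
    calc (1 - p + p * Real.exp 1) ^ S.card ≤ (Real.exp (p * 2)) ^ S.card :=
          pow_le_pow_left₀ h0 h3 _
      _ = Real.exp (p * 2 * S.card) := by
          rw [← Real.exp_nat_mul]; congr 1; ring
  calc Real.exp (-(p * n / 4 * w)) * (1 - p + p * Real.exp 1) ^ S.card ≤
        Real.exp (-(p * n / 4 * w)) * Real.exp (p * 2 * S.card) :=
          mul_le_mul_of_nonneg_left h2 (Real.exp_pos _).le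
    _ = Real.exp (-(p * n / 4 * w) + p * 2 * S.card) := by rw [Real.exp_add]
    _ ≤ Real.exp (-(p * n / 8) * w) := by
        apply Real.exp_le_exp.mpr
        have h3 : p * 2 * (S.card : ℝ) ≤ p * 2 * ((w : ℝ) * n / 16) :=
          mul_le_mul_of_nonneg_left hS (by positivity)
        linarith

lemma hole_prob (p : ℝ) (hp0 : 0 ≤ p) (hp1 : p ≤ 1) (n : ℕ) (S : Finset (Fin n × Fin n))
    (hS : (n : ℝ) ^ 2 / 256 ≤ (S.card : ℝ)) :
    Pr p n (fun E => cnt n S E = 0) ≤ Real.exp (-(p * n ^ 2 / 256)) := by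
  have h1 := markov p 0 1 hp0 hp1 le_rfl zero_le_one n S (fun E => cnt n S E = 0) (by
      intro E hE
      rw [hE]; simp)
  refine h1.trans ?_
  rw [mul_zero, add_zero, one_mul]
  have h3 : 1 - p ≤ Real.exp (-p) := by
    have := Real.add_one_le_exp (-p)
    linarith
  calc (1 - p) ^ S.card ≤ (Real.exp (-p)) ^ S.card := pow_le_pow_left₀ (by linarith) h3 _
    _ = Real.exp (-p * S.card) := by
        rw [← Real.exp_nat_mul]; congr 1; ring
    _ ≤ Real.exp (-(p * n ^ 2 / 256)) := by
        apply Real.exp_le_exp.mpr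
        nlinarith

/-- Sum over the pairs of sets in the local sparsity condition. -/
lemma sum_pairs (n : ℕ) (ν x : ℝ) (hν : 0 < ν) :
    ∑ q ∈ (univ : Finset (Finset (Fin n) × Finset (Fin n))).filter
        (fun q => q.1.Nonempty ∧ ν * (q.2.card : ℝ) ≤ (q.1.card : ℝ)),
      Real.exp (-x * (q.1.card : ℝ)) ≤
      Real.exp (n * Real.exp (Real.log (n + 1) / ν - x)) - 1 := by
  classical
  set r : ℝ := Real.exp (Real.log (n + 1) / ν - x) with hr
  have hr0 : 0 < r := Real.exp_pos _
  have h1 : ∑ q ∈ (univ : Finset (Finset (Fin n) × Finset (Fin n))).filter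
        (fun q => q.1.Nonempty ∧ ν * (q.2.card : ℝ) ≤ (q.1.card : ℝ)),
      Real.exp (-x * (q.1.card : ℝ)) ≤
      ∑ W ∈ (univ : Finset (Finset (Fin n))).filter (fun W => W.Nonempty), r ^ W.card := by
    rw [Finset.sum_filter, Fintype.sum_prod_type, Finset.sum_filter]
    apply Finset.sum_le_sum
    intro W _
    by_cases hW : W.Nonempty
    swap
    · simp [hW]
    simp only [hW, true_and, if_true]
    rw [← Finset.sum_filter, Finset.sum_const, nsmul_eq_mul]
    have h3 : (((univ : Finset (Finset (Fin n))).filter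
        (fun U => ν * (U.card : ℝ) ≤ (W.card : ℝ))).card : ℝ) ≤
        Real.exp (Real.log (n + 1) * ((W.card : ℝ) / ν)) := by
      have h4 : (univ : Finset (Finset (Fin n))).filter
          (fun U => ν * (U.card : ℝ) ≤ (W.card : ℝ)) ⊆
          (univ : Finset (Finset (Fin n))).filter
            (fun U => U.card ≤ ⌊(W.card : ℝ) / ν⌋₊) := by
        intro U hU
        rw [Finset.mem_filter] at hU ⊢
        refine ⟨hU.1, Nat.le_floor ?_⟩
        rw [le_div_iff₀ hν]
        linarith [hU.2]
      have h5 := (Finset.card_le_card h4).trans (count_small (Fin n) ⌊(W.card : ℝ) / ν⌋₊)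
      rw [Fintype.card_fin] at h5
      have h6 : (((univ : Finset (Finset (Fin n))).filter
        (fun U => ν * (U.card : ℝ) ≤ (W.card : ℝ))).card : ℝ) ≤
          ((n : ℝ) + 1) ^ ⌊(W.card : ℝ) / ν⌋₊ := by exact_mod_cast h5
      refine h6.trans ?_
      have hn1 : (0 : ℝ) < (n : ℝ) + 1 := by positivity
      have h7 : ((n : ℝ) + 1) ^ ⌊(W.card : ℝ) / ν⌋₊ =
          Real.exp (Real.log (n + 1) * (⌊(W.card : ℝ) / ν⌋₊ : ℝ)) := by
        rw [mul_comm, Real.exp_nat_mul, Real.exp_log hn1]
      rw [h7]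
      apply Real.exp_le_exp.mpr
      apply mul_le_mul_of_nonneg_left (Nat.floor_le (by positivity))
      exact Real.log_nonneg (by linarith [Nat.cast_nonneg (α := ℝ) n])
    calc (((univ : Finset (Finset (Fin n))).filter
        (fun U => ν * (U.card : ℝ) ≤ (W.card : ℝ))).card : ℝ) * Real.exp (-x * (W.card : ℝ)) ≤
          Real.exp (Real.log (n + 1) * ((W.card : ℝ) / ν)) * Real.exp (-x * (W.card : ℝ)) :=
            mul_le_mul_of_nonneg_right h3 (Real.exp_pos _).le
      _ = r ^ W.card := by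
          rw [← Real.exp_add, hr, ← Real.exp_nat_mul]
          congr 1
          ring
  have h2 : ∑ W ∈ (univ : Finset (Finset (Fin n))).filter (fun W => W.Nonempty), r ^ W.card =
      (r + 1) ^ n - 1 := by
    have h3 := Finset.sum_pow_mul_eq_add_pow r 1 (univ : Finset (Fin n))
    simp only [one_pow, mul_one, Finset.card_univ, Fintype.card_fin, Finset.powerset_univ] at h3
    have h4 := Finset.sum_filter_add_sum_filter_not (univ : Finset (Finset (Fin n)))
      (fun W => W.Nonempty) (fun W => r ^ W.card)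
    have h5 : (univ : Finset (Finset (Fin n))).filter (fun W => ¬ W.Nonempty) = {∅} := by
      ext W
      simp [Finset.not_nonempty_iff_eq_empty]
    rw [h5, Finset.sum_singleton, Finset.card_empty, pow_zero, h3] at h4
    linarith
  rw [h2] at h1
  refine h1.trans ?_
  have h3 : (r + 1) ^ n ≤ Real.exp (n * r) := by
    calc (r + 1) ^ n ≤ (Real.exp r) ^ n :=
          pow_le_pow_left₀ (by linarith) (Real.add_one_le_exp r) n
      _ = Real.exp (n * r) := by rw [← Real.exp_nat_mul]
  linarith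

end ExPeriod
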