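import Mathlib
import Pool.Agent.H.MP_36be4a_lc.PX.RandB

/-!
Random bipartite graphs are spread with high probability: the union bound and the limit.
-/

namespace ExPeriod

open Finset

lemma cnt_rows (n : ℕ) (W U : Finset (Fin n)) (E : Fin n → Fin n → Bool) :
    cnt n (W ×ˢ U) E = ∑ i ∈ W, (U.filter (fun j => E i j = true)).card := by
  unfold cnt
  rw [Finset.card_filter, Finset.sum_product]
  apply Finset.sum_congr rfl
  intro i _
  rw [Finset.card_filter]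

lemma cnt_cols (n : ℕ) (W U : Finset (Fin n)) (E : Fin n → Fin n → Bool) :
    cnt n (U ×ˢ W) E = ∑ j ∈ W, (U.filter (fun i => E i j = true)).card := by
  unfold cnt
  rw [Finset.card_filter, Finset.sum_product_right]
  apply Finset.sum_congr rfl
  intro i _
  rw [Finset.card_filter]

lemma not_spread_cases (n : ℕ) (ν d : ℝ) (E : Fin n → Fin n → Bool)
    (h : ¬ Spread (1 / 16) ν d (fun i j => E i j = true)) :
    (∃ i ∈ (univ : Finset (Fin n)), (cnt n ({i} ×ˢ univ) E : ℝ) < d) ∨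
    (∃ j ∈ (univ : Finset (Fin n)), (cnt n (univ ×ˢ {j}) E : ℝ) < d) ∨
    (∃ q ∈ (univ : Finset (Finset (Fin n) × Finset (Fin n))).filter
        (fun q => q.1.Nonempty ∧ ν * (q.2.card : ℝ) ≤ (q.1.card : ℝ)),
        (q.2.card : ℝ) ≤ (n : ℝ) / 16 ∧ d / 2 * (q.1.card : ℝ) ≤ (cnt n (q.1 ×ˢ q.2) E : ℝ)) ∨
    (∃ q ∈ (univ : Finset (Finset (Fin n) × Finset (Fin n))).filter
        (fun q => q.1.Nonempty ∧ ν * (q.2.card : ℝ) ≤ (q.1.card : ℝ)),
        (q.2.card : ℝ) ≤ (n : ℝ) / 16 ∧ d / 2 * (q.1.card : ℝ) ≤ (cnt n (q.2 ×ˢ q.1) E : ℝ)) ∨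
    (∃ q ∈ (univ : Finset (Finset (Fin n) × Finset (Fin n))),
        ((n : ℝ) ^ 2 / 256 ≤ ((q.1 ×ˢ q.2).card : ℝ)) ∧ cnt n (q.1 ×ˢ q.2) E = 0) := by
  classical
  by_contra hcon
  push Not at hcon
  obtain ⟨h1, h2, h3, h4, h5⟩ := hcon
  apply h
  refine ⟨?_, ?_, ?_, ?_, ?_⟩
  · intro i
    have := h1 i (Finset.mem_univ _)
    rw [cnt_rows, Finset.sum_singleton] at this
    refine this.trans (le_of_eq ?_)
    congr
  · intro j
    have := h2 j (Finset.mem_univ _)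
    rw [cnt_cols, Finset.sum_singleton] at this
    refine this.trans (le_of_eq ?_)
    congr
  · intro W U hW hU hν
    rw [Fintype.card_fin] at hU
    have := h3 (W, U) (by rw [Finset.mem_filter]; exact ⟨Finset.mem_univ _, hW, hν⟩)
      (by show (U.card : ℝ) ≤ (n : ℝ) / 16; linarith)
    simp only at this
    rw [cnt_rows] at this
    push_cast at this
    refine lt_of_le_of_lt (le_of_eq ?_) this
    apply Finset.sum_congr rfl
    intro i _
    congr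
  · intro W U hW hU hν
    rw [Fintype.card_fin] at hU
    have := h4 (W, U) (by rw [Finset.mem_filter]; exact ⟨Finset.mem_univ _, hW, hν⟩)
      (by show (U.card : ℝ) ≤ (n : ℝ) / 16; linarith)
    simp only at this
    rw [cnt_cols] at this
    push_cast at this
    refine lt_of_le_of_lt (le_of_eq ?_) this
    apply Finset.sum_congr rfl
    intro i _
    congr
  · intro X Y hX hY
    rw [Fintype.card_fin] at hX hY
    have := h5 (X, Y) (Finset.mem_univ _) (by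
      show (n : ℝ) ^ 2 / 256 ≤ ((X ×ˢ Y).card : ℝ)
      rw [Finset.card_product]
      push_cast
      have hn : (0 : ℝ) ≤ (n : ℝ) := Nat.cast_nonneg _
      nlinarith)
    simp only at this
    unfold cnt at this
    rw [Finset.card_ne_zero] at this
    obtain ⟨x, hx⟩ := this
    rw [Finset.mem_filter, Finset.mem_product] at hx
    exact ⟨x.1, hx.1.1, x.2, hx.1.2, hx.2⟩

lemma Pr_false (p : ℝ) (n : ℕ) (S : (Fin n → Fin n → Bool) → Prop) (h : ∀ E, ¬ S E) :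
    Pr p n S = 0 := by
  classical
  unfold Pr
  apply Finset.sum_eq_zero
  intro E hE
  rw [Finset.mem_filter] at hE
  exact absurd hE.2 (h E)

lemma not_spread_prob (p : ℝ) (hp0 : 0 ≤ p) (hp1 : p ≤ 1) (n : ℕ) (ν : ℝ) (hν : 0 < ν) :
    Pr p n (fun E => ¬ Spread (1 / 16) ν (p * n / 2) (fun i j => E i j = true)) ≤
      2 * (n : ℝ) * Real.exp (-(p * n / 8)) +
      2 * (Real.exp (n * Real.exp (Real.log (n + 1) / ν - p * n / 8)) - 1) +
      4 ^ n * Real.exp (-(p * n ^ 2 / 256)) := by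
  classical
  have h0 := Pr_mono p hp0 hp1 n _ _ (fun E hE => not_spread_cases n ν (p * n / 2) E hE)
  have o1 := Pr_or p hp0 hp1 n
    (fun E => ∃ i ∈ (univ : Finset (Fin n)), (cnt n ({i} ×ˢ univ) E : ℝ) < p * n / 2)
    (fun E => (∃ j ∈ (univ : Finset (Fin n)), (cnt n (univ ×ˢ {j}) E : ℝ) < p * n / 2) ∨
    (∃ q ∈ (univ : Finset (Finset (Fin n) × Finset (Fin n))).filter
        (fun q => q.1.Nonempty ∧ ν * (q.2.card : ℝ) ≤ (q.1.card : ℝ)),
        (q.2.card : ℝ) ≤ (n : ℝ) / 16 ∧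
          p * n / 2 / 2 * (q.1.card : ℝ) ≤ (cnt n (q.1 ×ˢ q.2) E : ℝ)) ∨
    (∃ q ∈ (univ : Finset (Finset (Fin n) × Finset (Fin n))).filter
        (fun q => q.1.Nonempty ∧ ν * (q.2.card : ℝ) ≤ (q.1.card : ℝ)),
        (q.2.card : ℝ) ≤ (n : ℝ) / 16 ∧
          p * n / 2 / 2 * (q.1.card : ℝ) ≤ (cnt n (q.2 ×ˢ q.1) E : ℝ)) ∨
    (∃ q ∈ (univ : Finset (Finset (Fin n) × Finset (Fin n))),
        ((n : ℝ) ^ 2 / 256 ≤ ((q.1 ×ˢ q.2).card : ℝ)) ∧ cnt n (q.1 ×ˢ q.2) E = 0))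
  have o2 := Pr_or p hp0 hp1 n
    (fun E => ∃ j ∈ (univ : Finset (Fin n)), (cnt n (univ ×ˢ {j}) E : ℝ) < p * n / 2)
    (fun E =>
    (∃ q ∈ (univ : Finset (Finset (Fin n) × Finset (Fin n))).filter
        (fun q => q.1.Nonempty ∧ ν * (q.2.card : ℝ) ≤ (q.1.card : ℝ)),
        (q.2.card : ℝ) ≤ (n : ℝ) / 16 ∧
          p * n / 2 / 2 * (q.1.card : ℝ) ≤ (cnt n (q.1 ×ˢ q.2) E : ℝ)) ∨
    (∃ q ∈ (univ : Finset (Finset (Fin n) × Finset (Fin n))).filter
        (fun q => q.1.Nonempty ∧ ν * (q.2.card : ℝ) ≤ (q.1.card : ℝ)),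
        (q.2.card : ℝ) ≤ (n : ℝ) / 16 ∧
          p * n / 2 / 2 * (q.1.card : ℝ) ≤ (cnt n (q.2 ×ˢ q.1) E : ℝ)) ∨
    (∃ q ∈ (univ : Finset (Finset (Fin n) × Finset (Fin n))),
        ((n : ℝ) ^ 2 / 256 ≤ ((q.1 ×ˢ q.2).card : ℝ)) ∧ cnt n (q.1 ×ˢ q.2) E = 0))
  have o3 := Pr_or p hp0 hp1 n
    (fun E => ∃ q ∈ (univ : Finset (Finset (Fin n) × Finset (Fin n))).filter
        (fun q => q.1.Nonempty ∧ ν * (q.2.card : ℝ) ≤ (q.1.card : ℝ)),
        (q.2.card : ℝ) ≤ (n : ℝ) / 16 ∧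
          p * n / 2 / 2 * (q.1.card : ℝ) ≤ (cnt n (q.1 ×ˢ q.2) E : ℝ))
    (fun E =>
    (∃ q ∈ (univ : Finset (Finset (Fin n) × Finset (Fin n))).filter
        (fun q => q.1.Nonempty ∧ ν * (q.2.card : ℝ) ≤ (q.1.card : ℝ)),
        (q.2.card : ℝ) ≤ (n : ℝ) / 16 ∧
          p * n / 2 / 2 * (q.1.card : ℝ) ≤ (cnt n (q.2 ×ˢ q.1) E : ℝ)) ∨
    (∃ q ∈ (univ : Finset (Finset (Fin n) × Finset (Fin n))),
        ((n : ℝ) ^ 2 / 256 ≤ ((q.1 ×ˢ q.2).card : ℝ)) ∧ cnt n (q.1 ×ˢ q.2) E = 0))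
  have o4 := Pr_or p hp0 hp1 n
    (fun E => ∃ q ∈ (univ : Finset (Finset (Fin n) × Finset (Fin n))).filter
        (fun q => q.1.Nonempty ∧ ν * (q.2.card : ℝ) ≤ (q.1.card : ℝ)),
        (q.2.card : ℝ) ≤ (n : ℝ) / 16 ∧
          p * n / 2 / 2 * (q.1.card : ℝ) ≤ (cnt n (q.2 ×ˢ q.1) E : ℝ))
    (fun E => ∃ q ∈ (univ : Finset (Finset (Fin n) × Finset (Fin n))),
        ((n : ℝ) ^ 2 / 256 ≤ ((q.1 ×ˢ q.2).card : ℝ)) ∧ cnt n (q.1 ×ˢ q.2) E = 0)
  have e1 : Pr p n (fun E => ∃ i ∈ (univ : Finset (Fin n)),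
      (cnt n ({i} ×ˢ univ) E : ℝ) < p * n / 2) ≤ (n : ℝ) * Real.exp (-(p * n / 8)) := by
    refine (Pr_exists p hp0 hp1 n _ _).trans ?_
    calc ∑ i ∈ (univ : Finset (Fin n)), Pr p n (fun E => (cnt n ({i} ×ˢ univ) E : ℝ) < p * n / 2)
        ≤ ∑ _i ∈ (univ : Finset (Fin n)), Real.exp (-(p * n / 8)) := by
          apply Finset.sum_le_sum
          intro i _
          exact degree_prob p hp0 hp1 n _ (by simp)
      _ = _ := by simp
  have e2 : Pr p n (fun E => ∃ j ∈ (univ : Finset (Fin n)),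
      (cnt n (univ ×ˢ {j}) E : ℝ) < p * n / 2) ≤ (n : ℝ) * Real.exp (-(p * n / 8)) := by
    refine (Pr_exists p hp0 hp1 n _ _).trans ?_
    calc ∑ j ∈ (univ : Finset (Fin n)), Pr p n (fun E => (cnt n (univ ×ˢ {j}) E : ℝ) < p * n / 2)
        ≤ ∑ _i ∈ (univ : Finset (Fin n)), Real.exp (-(p * n / 8)) := by
          apply Finset.sum_le_sum
          intro i _
          exact degree_prob p hp0 hp1 n _ (by simp)
      _ = _ := by simp
  have hsum := sum_pairs n ν (p * n / 8) hν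
  have e3 : Pr p n (fun E => ∃ q ∈ (univ : Finset (Finset (Fin n) × Finset (Fin n))).filter
        (fun q => q.1.Nonempty ∧ ν * (q.2.card : ℝ) ≤ (q.1.card : ℝ)),
        (q.2.card : ℝ) ≤ (n : ℝ) / 16 ∧
          p * n / 2 / 2 * (q.1.card : ℝ) ≤ (cnt n (q.1 ×ˢ q.2) E : ℝ)) ≤
      Real.exp (n * Real.exp (Real.log (n + 1) / ν - p * n / 8)) - 1 := by
    refine (Pr_exists p hp0 hp1 n _ _).trans (le_trans (Finset.sum_le_sum ?_) hsum)
    intro q _
    by_cases hq : (q.2.card : ℝ) ≤ (n : ℝ) / 16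
    · refine (Pr_mono p hp0 hp1 n _ _ (fun E h => h.2)).trans
        (dense_prob p hp0 hp1 n (q.1 ×ˢ q.2) q.1.card ?_)
      rw [Finset.card_product]
      push_cast
      have : (0 : ℝ) ≤ (q.1.card : ℝ) := Nat.cast_nonneg _
      nlinarith
    · rw [Pr_false p n _ (fun E h => hq h.1)]
      exact (Real.exp_pos _).le
  have e4 : Pr p n (fun E => ∃ q ∈ (univ : Finset (Finset (Fin n) × Finset (Fin n))).filter
        (fun q => q.1.Nonempty ∧ ν * (q.2.card : ℝ) ≤ (q.1.card : ℝ)),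
        (q.2.card : ℝ) ≤ (n : ℝ) / 16 ∧
          p * n / 2 / 2 * (q.1.card : ℝ) ≤ (cnt n (q.2 ×ˢ q.1) E : ℝ)) ≤
      Real.exp (n * Real.exp (Real.log (n + 1) / ν - p * n / 8)) - 1 := by
    refine (Pr_exists p hp0 hp1 n _ _).trans (le_trans (Finset.sum_le_sum ?_) hsum)
    intro q _
    by_cases hq : (q.2.card : ℝ) ≤ (n : ℝ) / 16
    · refine (Pr_mono p hp0 hp1 n _ _ (fun E h => h.2)).trans
        (dense_prob p hp0 hp1 n (q.2 ×ˢ q.1) q.1.card ?_)
      rw [Finset.card_product]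
      push_cast
      have : (0 : ℝ) ≤ (q.1.card : ℝ) := Nat.cast_nonneg _
      nlinarith
    · rw [Pr_false p n _ (fun E h => hq h.1)]
      exact (Real.exp_pos _).le
  have e5 : Pr p n (fun E => ∃ q ∈ (univ : Finset (Finset (Fin n) × Finset (Fin n))),
        ((n : ℝ) ^ 2 / 256 ≤ ((q.1 ×ˢ q.2).card : ℝ)) ∧ cnt n (q.1 ×ˢ q.2) E = 0) ≤
      4 ^ n * Real.exp (-(p * n ^ 2 / 256)) := by
    refine (Pr_exists p hp0 hp1 n _ _).trans ?_
    calc ∑ q ∈ (univ : Finset (Finset (Fin n) × Finset (Fin n))), Pr p n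
          (fun E => ((n : ℝ) ^ 2 / 256 ≤ ((q.1 ×ˢ q.2).card : ℝ)) ∧ cnt n (q.1 ×ˢ q.2) E = 0)
        ≤ ∑ _q ∈ (univ : Finset (Finset (Fin n) × Finset (Fin n))),
            Real.exp (-(p * n ^ 2 / 256)) := by
          apply Finset.sum_le_sum
          intro q _
          by_cases hq : (n : ℝ) ^ 2 / 256 ≤ ((q.1 ×ˢ q.2).card : ℝ)
          · exact (Pr_mono p hp0 hp1 n _ _ (fun E h => h.2)).trans
              (hole_prob p hp0 hp1 n (q.1 ×ˢ q.2) hq)
          · rw [Pr_false p n _ (fun E h => hq h.1)]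
            exact (Real.exp_pos _).le
      _ = 4 ^ n * Real.exp (-(p * n ^ 2 / 256)) := by
          rw [Finset.sum_const, Finset.card_univ, nsmul_eq_mul]
          congr 1
          simp only [Fintype.card_prod, Fintype.card_finset, Fintype.card_fin]
          push_cast
          rw [← mul_pow]
          norm_num
  linarith

/-- Elementary estimates for large `n`. -/
lemma large_log (γ : ℝ) (hγ : 0 < γ) : ∀ᶠ n : ℕ in Filter.atTop,
    Real.log ((n : ℝ) + 1) ≤ (n : ℝ) ^ (γ / 2) / 32 ∧ 1 ≤ n ∧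
      710 ≤ ((n : ℝ) ^ (γ / 2)) ^ 2 := by
  have h1 := (isLittleO_log_rpow_atTop (show 0 < γ / 2 by linarith)).bound
    (show (0 : ℝ) < 1 / 64 by norm_num)
  have h2 := (tendsto_natCast_atTop_atTop (R := ℝ)).eventually h1
  have h3 : Filter.Tendsto (fun n : ℕ => (n : ℝ) ^ (γ / 2)) Filter.atTop Filter.atTop :=
    (tendsto_rpow_atTop (show 0 < γ / 2 by linarith)).comp tendsto_natCast_atTop_atTop
  have h4 := h3.eventually_ge_atTop 710
  filter_upwards [h2, h4, Filter.eventually_ge_atTop 2] with n a1 a2 a3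
  have hn : (2 : ℝ) ≤ (n : ℝ) := by exact_mod_cast a3
  have hn0 : (0 : ℝ) < (n : ℝ) := by linarith
  refine ⟨?_, by omega, by nlinarith⟩
  have b1 : Real.log ((n : ℝ) + 1) ≤ 2 * Real.log (n : ℝ) := by
    rw [two_mul, ← Real.log_mul hn0.ne' hn0.ne']
    apply Real.log_le_log (by linarith)
    nlinarith
  have b2 : 0 ≤ Real.log (n : ℝ) := Real.log_nonneg (by linarith)
  rw [Real.norm_of_nonneg b2, Real.norm_of_nonneg (by positivity)] at a1
  linarith

theorem random_spread (γ : ℝ) (hγ : 0 < γ) (ε : ℝ) (hε : 0 < ε) : ∃ n0 : ℕ, ∀ n : ℕ, n0 ≤ n →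
    ∀ p : ℝ, (n : ℝ) ^ (γ - 1) ≤ p → p ≤ 1 →
      Pr p n (fun E => ¬ Spread (1 / 16) ((n : ℝ) ^ (-(γ / 2))) (p * n / 2)
        (fun i j => E i j = true)) ≤ ε := by
  have hy : Filter.Tendsto (fun n : ℕ => ((n : ℝ) ^ (γ / 2)) ^ 2) Filter.atTop Filter.atTop := by
    have h3 : Filter.Tendsto (fun n : ℕ => (n : ℝ) ^ (γ / 2)) Filter.atTop Filter.atTop :=
      (tendsto_rpow_atTop (show 0 < γ / 2 by linarith)).comp tendsto_natCast_atTop_atTop
    exact (Filter.tendsto_pow_atTop (by norm_num)).comp h3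
  have l0 : ∀ K : ℝ, 0 < K → Filter.Tendsto
      (fun n : ℕ => Real.exp (-(((n : ℝ) ^ (γ / 2)) ^ 2 / K))) Filter.atTop (nhds 0) := by
    intro K hK
    exact Real.tendsto_exp_neg_atTop_nhds_zero.comp (hy.atTop_div_const hK)
  have l1 := l0 16 (by norm_num)
  have l2 := l0 512 (by norm_num)
  have l3 : Filter.Tendsto (fun n : ℕ =>
      2 * Real.exp (-(((n : ℝ) ^ (γ / 2)) ^ 2 / 16)) +
      2 * (Real.exp (Real.exp (-(((n : ℝ) ^ (γ / 2)) ^ 2 / 16))) - 1) +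
      Real.exp (-(((n : ℝ) ^ (γ / 2)) ^ 2 / 512))) Filter.atTop
      (nhds (2 * 0 + 2 * (Real.exp 0 - 1) + 0)) :=
    ((l1.const_mul 2).add ((((Real.continuous_exp.tendsto 0).comp l1).sub_const 1).const_mul
      2)).add l2
  rw [Real.exp_zero] at l3
  norm_num at l3
  have l4 := l3.eventually (gt_mem_nhds hε)
  have l5 := l4.and (large_log γ hγ)
  rw [Filter.eventually_atTop] at l5
  obtain ⟨n0, hn0⟩ := l5
  refine ⟨n0, ?_⟩
  intro n hn p hp hp1
  obtain ⟨a1, a2, a3, a4⟩ := hn0 n hn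
  have hnpos : (0 : ℝ) < (n : ℝ) := by
    have : 0 < n := by omega
    exact_mod_cast this
  have hn1 : (1 : ℝ) ≤ (n : ℝ) := by exact_mod_cast a3
  have hp0 : 0 ≤ p := le_trans (Real.rpow_nonneg hnpos.le _) hp
  set y : ℝ := (n : ℝ) ^ (γ / 2) with hydef
  have hy0 : 0 < y := Real.rpow_pos_of_pos hnpos _
  have hy1 : 1 ≤ y := by nlinarith
  have hpn : y ^ 2 ≤ p * n := by
    have h1 : y ^ 2 = (n : ℝ) ^ γ := by
      rw [hydef, ← Real.rpow_natCast, ← Real.rpow_mul hnpos.le]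
      congr 1
      push_cast
      ring
    have h2 : (n : ℝ) ^ γ = (n : ℝ) ^ (γ - 1) * n := by
      rw [Real.rpow_sub_one hnpos.ne', div_mul_cancel₀ _ hnpos.ne']
    rw [h1, h2]
    exact mul_le_mul_of_nonneg_right hp hnpos.le
  have hνinv : ((n : ℝ) ^ (-(γ / 2)))⁻¹ = y := by
    rw [Real.rpow_neg hnpos.le, inv_inv]
  have hν : 0 < (n : ℝ) ^ (-(γ / 2)) := Real.rpow_pos_of_pos hnpos _
  have hnexp : (n : ℝ) ≤ Real.exp (y / 32) := by
    have h1 : Real.log (n : ℝ) ≤ y / 32 :=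
      (Real.log_le_log hnpos (by linarith)).trans a2
    calc (n : ℝ) = Real.exp (Real.log (n : ℝ)) := (Real.exp_log hnpos).symm
      _ ≤ Real.exp (y / 32) := Real.exp_le_exp.mpr h1
  refine (not_spread_prob p hp0 hp1 n _ hν).trans (le_trans ?_ a1.le)
  have t1 : 2 * (n : ℝ) * Real.exp (-(p * n / 8)) ≤ 2 * Real.exp (-(y ^ 2 / 16)) := by
    have h1 : (n : ℝ) * Real.exp (-(p * n / 8)) ≤ Real.exp (y / 32) * Real.exp (-(y ^ 2 / 8)) := by
      apply mul_le_mul hnexp _ (Real.exp_pos _).le (Real.exp_pos _).le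
      apply Real.exp_le_exp.mpr
      linarith
    rw [← Real.exp_add] at h1
    have h2 : Real.exp (y / 32 + -(y ^ 2 / 8)) ≤ Real.exp (-(y ^ 2 / 16)) := by
      apply Real.exp_le_exp.mpr
      nlinarith
    linarith
  have t2 : (n : ℝ) * Real.exp (Real.log (n + 1) / (n : ℝ) ^ (-(γ / 2)) - p * n / 8) ≤
      Real.exp (-(y ^ 2 / 16)) := by
    have h0 : Real.log ((n : ℝ) + 1) / (n : ℝ) ^ (-(γ / 2)) ≤ y ^ 2 / 32 := by
      rw [div_eq_mul_inv, hνinv]
      nlinarith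
    have h1 : (n : ℝ) * Real.exp (Real.log (n + 1) / (n : ℝ) ^ (-(γ / 2)) - p * n / 8) ≤
        Real.exp (y / 32) * Real.exp (y ^ 2 / 32 - y ^ 2 / 8) := by
      apply mul_le_mul hnexp _ (Real.exp_pos _).le (Real.exp_pos _).le
      apply Real.exp_le_exp.mpr
      linarith
    rw [← Real.exp_add] at h1
    refine h1.trans ?_
    apply Real.exp_le_exp.mpr
    nlinarith
  have t3 : (4 : ℝ) ^ n * Real.exp (-(p * n ^ 2 / 256)) ≤ Real.exp (-(y ^ 2 / 512)) := by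
    have h1 : (4 : ℝ) ^ n ≤ Real.exp (n * (710 / 512)) := by
      rw [Real.exp_nat_mul]
      apply pow_le_pow_left₀ (by norm_num)
      have h2 : Real.log 4 ≤ 710 / 512 := by
        have h3 : Real.log 4 = 2 * Real.log 2 := by
          rw [show (4 : ℝ) = 2 ^ 2 by norm_num, Real.log_pow]
          norm_num
        rw [h3]
        have := Real.log_two_lt_d9
        linarith
      calc (4 : ℝ) = Real.exp (Real.log 4) := (Real.exp_log (by norm_num)).symm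
        _ ≤ Real.exp (710 / 512) := Real.exp_le_exp.mpr h2
    calc (4 : ℝ) ^ n * Real.exp (-(p * n ^ 2 / 256)) ≤
          Real.exp (n * (710 / 512)) * Real.exp (-(p * n ^ 2 / 256)) :=
            mul_le_mul_of_nonneg_right h1 (Real.exp_pos _).le
      _ = Real.exp (n * (710 / 512) + -(p * n ^ 2 / 256)) := by rw [Real.exp_add]
      _ ≤ Real.exp (-(y ^ 2 / 512)) := by
          apply Real.exp_le_exp.mpr
          have h3 : (n : ℝ) * y ^ 2 ≤ p * n ^ 2 := by nlinarith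
          nlinarith
  have t4 : Real.exp ((n : ℝ) * Real.exp (Real.log (n + 1) / (n : ℝ) ^ (-(γ / 2)) - p * n / 8)) ≤
      Real.exp (Real.exp (-(y ^ 2 / 16))) := Real.exp_le_exp.mpr t2
  linarith

end ExPeriod
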