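import Mathlib
import Pool.Agent.H.MP_36be4a_lc.PX.Jumbled
import Pool.Agent.H.MP_36be4a_lc.PX.RandC

/-!
Exact matching is decided on spread, jumbled and random bipartite graphs of polynomial degree.
-/

namespace ExPeriod

open Finset

lemma rpow_neg_le_one (n : ℕ) (γ : ℝ) (hγ : 0 < γ) : (n : ℝ) ^ (-γ) ≤ 1 := by
  rcases Nat.eq_zero_or_pos n with h | h
  · subst h
    rw [Nat.cast_zero, Real.zero_rpow (by linarith)]
    norm_num
  · have h1 : (1 : ℝ) ≤ (n : ℝ) := by exact_mod_cast h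
    exact Real.rpow_le_one_of_one_le_of_nonpos h1 (by linarith)

lemma spread_mono {ι κ : Type} [Fintype ι] [Fintype κ] (β ν ν' d : ℝ) (h : ν' ≤ ν)
    (E : ι → κ → Prop) (hE : Spread β ν' d E) : Spread β ν d E := by
  refine ⟨hE.1, hE.2.1, ?_, ?_, hE.2.2.2.2⟩
  · intro W U hW hU hν
    exact hE.2.2.1 W U hW hU
      ((mul_le_mul_of_nonneg_right h (Nat.cast_nonneg _)).trans hν)
  · intro W U hW hU hν
    exact hE.2.2.2.1 W U hW hU
      ((mul_le_mul_of_nonneg_right h (Nat.cast_nonneg _)).trans hν)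

lemma spread_empty {ι κ : Type} [Fintype ι] [Fintype κ] (β ν d : ℝ) (hβ : 0 ≤ β)
    (E : ι → κ → Prop) (h1 : Fintype.card ι = 0) (h2 : Fintype.card κ = 0) :
    Spread β ν d E := by
  have i1 : IsEmpty ι := Fintype.card_eq_zero_iff.mp h1
  have i2 : IsEmpty κ := Fintype.card_eq_zero_iff.mp h2
  refine ⟨fun i => i1.elim i, fun j => i2.elim j, ?_, ?_, ?_⟩
  · intro W U hW _ _
    obtain ⟨x, _⟩ := hW
    exact i1.elim x
  · intro W U hW _ _
    obtain ⟨x, _⟩ := hW
    exact i2.elim x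
  · intro X Y hX _
    have h3 : X = ∅ := Finset.eq_empty_of_isEmpty X
    rw [h3, h1] at hX
    simp at hX

theorem spread_main (β γ : ℝ) (hβ : 0 < β) (hγ : 0 < γ) : ∃ P C : ℕ, 0 < P ∧
    ∀ (ι κ : Type) [Fintype ι] [Fintype κ] (E R : ι → κ → Prop) (d : ℝ), 0 < d →
      Fintype.card ι = Fintype.card κ →
      Spread β ((Fintype.card ι : ℝ) ^ (-γ)) d E → DecidedBy P C E R := by
  obtain ⟨P, C, hP, H⟩ := spread_decided β γ hβ hγ
  refine ⟨P, C, hP, ?_⟩
  intro ι κ _ _ E R d hd hcard hE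
  exact H ι κ E R d hE (spread_pm β _ d (rpow_neg_le_one _ γ hγ) hd E hcard hE)

theorem sparse_main (γ : ℝ) (hγ : 0 < γ) : ∃ P C : ℕ, 0 < P ∧
    (∀ (ι κ : Type) [Fintype ι] [Fintype κ] (E R : ι → κ → Prop) (D lam : ℝ), 0 < D →
      Fintype.card ι = Fintype.card κ → MinDeg (D / 2 / (Fintype.card ι : ℝ)) E →
      Jumbled D lam E → 0 ≤ lam → lam ≤ D * (Fintype.card ι : ℝ) ^ (-γ) / 16 →
        DecidedBy P C E R) ∧
    (∀ ε : ℝ, 0 < ε → ∃ n0 : ℕ, ∀ n : ℕ, n0 ≤ n → ∀ p : ℝ, (n : ℝ) ^ (γ - 1) ≤ p → p ≤ 1 →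
      1 - ε ≤ Pr p n (fun E => ∀ R : Fin n → Fin n → Prop,
        DecidedBy P C (fun i j => E i j = true) R)) := by
  obtain ⟨P, C, hP, H⟩ := spread_main (1 / 16) (γ / 2) (by norm_num) (by linarith)
  refine ⟨P, C, hP, ?_, ?_⟩
  · intro ι κ _ _ E R D lam hD hcard hdeg hJ hl hlam
    rcases Nat.eq_zero_or_pos (Fintype.card ι) with h0 | h0
    · exact H ι κ E R 1 one_pos hcard
        (spread_empty _ _ _ (by norm_num) E h0 (by rw [← hcard]; exact h0))
    · have h1 : (1 : ℝ) ≤ (Fintype.card ι : ℝ) := by exact_mod_cast h0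
      have h2 := spread_of_jumbled D lam (2 * γ) hD hl (by linarith) E h0 (by
        have e : -(2 * γ / 2) = -γ := by ring
        rw [e]; exact hlam) hdeg hJ
      refine H ι κ E R (D / 2) (by linarith) hcard (spread_mono _ _ _ _ ?_ E h2)
      exact Real.rpow_le_rpow_of_exponent_le h1 (by linarith)
  · intro ε hε
    obtain ⟨n0, hn0⟩ := random_spread γ hγ ε hε
    refine ⟨max n0 1, ?_⟩
    intro n hn p hp hp1
    have h1 : n0 ≤ n := (le_max_left _ _).trans hn
    have h2 : 1 ≤ n := (le_max_right _ _).trans hn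
    have hnpos : (0 : ℝ) < (n : ℝ) := by exact_mod_cast h2
    have hppos : 0 < p := lt_of_lt_of_le (Real.rpow_pos_of_pos hnpos _) hp
    have h3 := hn0 n h1 p hp hp1
    have h4 := Pr_compl p n (fun E => ∀ R : Fin n → Fin n → Prop,
        DecidedBy P C (fun i j => E i j = true) R)
    have h5 := Pr_mono p hppos.le hp1 n
      (fun E => ¬ ∀ R : Fin n → Fin n → Prop, DecidedBy P C (fun i j => E i j = true) R)
      (fun E => ¬ Spread (1 / 16) ((n : ℝ) ^ (-(γ / 2))) (p * n / 2)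
        (fun i j => E i j = true)) (by
      intro E hE hS
      apply hE
      intro R
      refine H (Fin n) (Fin n) (fun i j => E i j = true) R (p * n / 2) (by positivity) rfl ?_
      rw [Fintype.card_fin]
      exact hS)
    linarith

end ExPeriod
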